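import Pool.Agent.Q236.SH.Mach
import Pool.Agent.Q236.MR.Marg

set_option autoImplicit false

/-!
# The union over all constellations, intervals and progressions
-/

namespace Pool.Agent.Q236.SH

open Finset Filter Polynomial
open Pool.Agent.Q236.RP (Box mem_Box card_Box ev_log_ge ev_pow_log)
open Pool.Agent.Q236.CG (BA mem_BA CZ evm)
open Pool.Agent.Q236.MR (pv ap mem_ap sum_ap marg')
open Pool.Agent.H373R2.T7 (pz mem_pz Vz)

variable {m d e : ℕ}

/-- the set of the members of a constellation -/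
noncomputable def JQ (Q : SF m e) : Finset (Fin m) := by classical exact univ.image Q.ix

lemma mem_JQ (Q : SF m e) (t : Fin e) : Q.ix t ∈ JQ Q := by
  classical
  unfold JQ
  exact mem_image_of_mem _ (mem_univ _)

lemma card_JQ (Q : SF m e) : (JQ Q).card ≤ e := by
  classical
  unfold JQ
  refine card_image_le.trans ?_
  rw [card_univ, Fintype.card_fin]

/-- the constellation in its own members -/
noncomputable def rsQ (Q : SF m e) : SF (JQ Q).card e :=
  ⟨fun t => ((JQ Q).orderIsoOfFin rfl).symm ⟨Q.ix t, mem_JQ Q t⟩, Q.sh⟩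

lemma rsQ_ix (Q : SF m e) (t : Fin e) : (JQ Q).orderEmbOfFin rfl ((rsQ Q).ix t) = Q.ix t := by
  rw [← Finset.coe_orderIsoOfFin_apply]
  unfold rsQ
  simp

lemma vs_rs (Q : SF m e) (F : Fin m → ℤ[X]) (c : Fin m → Fin d → ℤ) (k : ℕ) (t : Fin e) :
    vs (rsQ Q) (fun j => F ((JQ Q).orderEmbOfFin rfl j)) (fun j => c ((JQ Q).orderEmbOfFin rfl j)) k t = vs Q F c k t := by
  unfold vs pv
  simp only
  rw [rsQ_ix]
  rfl

lemma PQ_rs (Q : SF m e) (F : Fin m → ℤ[X]) (c : Fin m → Fin d → ℤ) (b q z : ℕ) :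
    PQ b q (rsQ Q) (fun j => F ((JQ Q).orderEmbOfFin rfl j)) z (fun j => c ((JQ Q).orderEmbOfFin rfl j)) = PQ b q Q F z c := by
  classical
  unfold PQ
  apply Finset.prod_congr rfl
  intro p _
  congr 3
  unfold omb
  congr 1
  apply Finset.filter_congr
  intro k _
  rw [not_iff_not]
  unfold gd good
  apply forall_congr'
  intro t
  rw [vs_rs]

open Classical in
/-- the number of the prime points of a constellation -/
noncomputable def cntQ (Q : SF m e) (F : Fin m → ℤ[X]) (c : Fin m → Fin d → ℤ) (b q a h : ℕ) : ℕ :=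
  ((Ioc a (a + h)).filter (fun k => ∀ t, (vs Q F c (b + q * k) t).toNat.Prime)).card

lemma cnt_rs (Q : SF m e) (F : Fin m → ℤ[X]) (c : Fin m → Fin d → ℤ) (b q a h : ℕ) :
    cntQ (rsQ Q) (fun j => F ((JQ Q).orderEmbOfFin rfl j)) (fun j => c ((JQ Q).orderEmbOfFin rfl j)) b q a h = cntQ Q F c b q a h := by
  classical
  unfold cntQ
  congr 1
  apply Finset.filter_congr
  intro k _
  apply forall_congr'
  intro t
  rw [vs_rs]

/-- the formula fails -/
def Bad (ε : ℝ) (X z : ℕ) (Q : SF m e) (F : Fin m → ℤ[X]) (c : Fin m → Fin d → ℤ) (b q a h : ℕ) : Prop :=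
  ¬ |(cntQ Q F c b q a h : ℝ) - PQ b q Q F z c / Vz z ^ e * (h / Real.log X ^ e)| ≤
    ε * (PQ b q Q F z c / Vz z ^ e * (h / Real.log X ^ e))

/-- the constellations with distinct points -/
def Inj (Q : SF m e) : Prop := ∀ t t', Q.ix t = Q.ix t' → Q.sh t = Q.sh t' → t = t'

/-- the size of a union -/
lemma cbu {α β : Type*} [DecidableEq β] (S : Finset α) (f : α → Finset β) (b c : ℝ) (hS : (S.card : ℝ) ≤ b) (hc : 0 ≤ c)
    (h : ∀ a ∈ S, ((f a).card : ℝ) ≤ c) : ((S.biUnion f).card : ℝ) ≤ b * c := by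
  calc ((S.biUnion f).card : ℝ) ≤ ∑ a ∈ S, ((f a).card : ℝ) := by exact_mod_cast card_biUnion_le
    _ ≤ ∑ _a ∈ S, c := Finset.sum_le_sum h
    _ = S.card * c := by rw [Finset.sum_const, nsmul_eq_mul]
    _ ≤ b * c := mul_le_mul_of_nonneg_right hS hc

open Classical in
/-- **All constellations, all intervals, all progressions.** -/
theorem all_sh (N B E s C A D d : ℕ) (η : ℝ) (hη : 0 < η) (hs1 : 1 ≤ s)
    (hs : ((B + 1 + (2 * E + 1) * N + 4 * (E + 1) : ℕ) : ℝ) + 4 < s * (η / 8)) (hd : 2 * s * N ≤ d) (ε : ℝ) (hε : 0 < ε) :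
    ∀ᶠ X : ℕ in atTop, ∀ z : ℕ, Real.log X ^ ((C + E + 1) * d) ≤ z → (z : ℝ) ≤ Real.log X ^ A →
    ∀ m : ℕ, (m : ℝ) ≤ Real.log X ^ E → ∀ (F : Fin m → ℤ[X]) (Z : Fin m → Fin d → ℤ) (Y : Fin m → Fin d → ℕ),
    (∀ i, (F i).natDegree ≤ D) → (∀ i j, (X : ℝ) / Real.log X ^ C ≤ Y i j) →
    (∀ i, ∀ c ∈ Box (Z i) (Y i), ∀ k : ℕ, 1 ≤ k → (k : ℝ) ≤ Real.log X ^ E →
      (X : ℝ) / Real.log X ^ C ≤ evm (fun k => (F i).eval (k : ℤ)) 1 c k ∧ (evm (fun k => (F i).eval (k : ℤ)) 1 c k : ℝ) ≤ X * Real.log X ^ C) →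
    (((BA Z Y).filter (fun c => ∃ (e : ℕ) (Q : SF m e) (b q a h : ℕ), 1 ≤ e ∧ e ≤ N ∧ Inj Q ∧ 1 ≤ q ∧
      (∀ t, ((b + q * (a + h) + Q.sh t : ℕ) : ℝ) ≤ Real.log X ^ E) ∧ Real.log X ^ ((e : ℝ) + η) ≤ h ∧ Bad ε X z Q F c b q a h)).card : ℝ) ≤
      (BA Z Y).card / Real.log X ^ B := by
  obtain ⟨B', hB'⟩ : ∃ B', B' = B + 1 + (2 * E + 1) * N + 4 * (E + 1) := ⟨_, rfl⟩
  obtain ⟨C', hC'⟩ : ∃ C', C' = C + E + 1 := ⟨_, rfl⟩
  rw [← hB'] at hs
  rw [← hC']
  have hall : ∀ᶠ X : ℕ in atTop, ∀ n ∈ range (N + 1), ∀ e ∈ Icc 1 N, ∀ b q z a h : ℕ, 1 ≤ q →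
    (z : ℝ) ≤ Real.log X ^ A → Real.log X ^ (C' * d) ≤ z → Real.log X ^ ((e : ℝ) + η) ≤ h →
    ∀ (Q : SF n e) (F : Fin n → ℤ[X]) (Z : Fin n → Fin d → ℤ) (Y : Fin n → Fin d → ℕ) (T : Finset ℕ),
    (∀ t t', Q.ix t = Q.ix t' → Q.sh t = Q.sh t' → t = t') → (∀ i, (F i).natDegree ≤ max D d) → (∀ k ∈ ap b q a h, ∀ t, k + Q.sh t ∈ T) →
    (∀ i, CZ C' X (fun k => (F i).eval (k : ℤ)) 1 (Z i) (Y i) T) →
    (((BA Z Y).filter (fun c => ¬ |(((Ioc a (a + h)).filter (fun k => ∀ t, (vs Q F c (b + q * k) t).toNat.Prime)).card : ℝ) -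
      PQ b q Q F z c / Vz z ^ e * (h / Real.log X ^ e)| ≤ ε * (PQ b q Q F z c / Vz z ^ e * (h / Real.log X ^ e)))).card : ℝ) ≤
      (BA Z Y).card / Real.log X ^ B' := by
    rw [Filter.eventually_all_finset]
    intro n _
    rw [Filter.eventually_all_finset]
    intro e he
    rw [mem_Icc] at he
    exact machS n e B' s d C' A (max D d) he.1 η hη hs1 hs (by
      refine le_trans ?_ hd
      exact Nat.mul_le_mul_left _ he.2) (by have := le_max_right D d; omega) (by omega) ε hε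
  filter_upwards [hall, ev_log_ge 2, ev_log_ge ((N + 1 : ℕ) : ℝ)] with X hall hL2 hLN z hzlow hzup m hm F Z Y hF hside hval
  obtain ⟨L, hL⟩ : ∃ L, L = Real.log (X : ℝ) := ⟨_, rfl⟩
  have hX0 : (0 : ℝ) ≤ X := Nat.cast_nonneg _
  rw [← hL] at hall hL2 hLN hzlow hzup hm hside hval ⊢
  have hL0 : 0 < L := by linarith
  have hL1 : 1 ≤ L := by linarith
  have hCC : L ^ C ≤ L ^ C' := pow_le_pow_right₀ hL1 (by omega)
  have hEC : L ^ E ≤ L ^ C' := pow_le_pow_right₀ hL1 (by omega)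
  have hdiv : (X : ℝ) / L ^ C' ≤ X / L ^ C := div_le_div_of_nonneg_left hX0 (by positivity) hCC
  obtain ⟨T, hT⟩ : ∃ T : ℕ, T = ⌊L ^ E⌋₊ := ⟨_, rfl⟩
  have hLE : (0 : ℝ) < L ^ E := by positivity
  have hTle : (T : ℝ) ≤ L ^ E := by rw [hT]; exact Nat.floor_le hLE.le
  obtain ⟨W, hW⟩ : ∃ W, W = BA Z Y := ⟨_, rfl⟩
  have hCZ : ∀ i, CZ C' X (fun k => (F i).eval (k : ℤ)) 1 (Z i) (Y i) (Icc 1 T) := by
    intro i
    constructor
    · intro j
      rw [← hL]
      exact hdiv.trans (hside i j)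
    · intro k hk
      rw [mem_Icc] at hk
      rw [← hL]
      have : (k : ℝ) ≤ T := by exact_mod_cast hk.2
      linarith
    · exact one_ne_zero
    · rw [← hL]
      push_cast
      rw [abs_one]
      exact one_le_pow₀ hL1
    · intro k hk c hc
      rw [mem_Icc] at hk
      rw [← hL]
      have : (k : ℝ) ≤ T := by exact_mod_cast hk.2
      exact hdiv.trans (hval i c hc k hk.1 (by linarith)).1
    · intro k hk c hc
      rw [mem_Icc] at hk
      rw [← hL]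
      have : (k : ℝ) ≤ T := by exact_mod_cast hk.2
      exact (hval i c hc k hk.1 (by linarith)).2.trans (mul_le_mul_of_nonneg_left hCC hX0)
  obtain ⟨Q4, hQ4⟩ : ∃ Q4 : Finset (ℕ × ℕ × ℕ × ℕ), Q4 = range (T + 1) ×ˢ range (T + 1) ×ˢ range (T + 1) ×ˢ range (T + 1) := ⟨_, rfl⟩
  obtain ⟨bd, hbd⟩ : ∃ bd : (e : ℕ) → (Fin e → Fin m × ℕ) → (ℕ × ℕ × ℕ × ℕ) → Finset (Fin m → Fin d → ℤ), bd = fun (e : ℕ)
    (f : Fin e → Fin m × ℕ) (x : ℕ × ℕ × ℕ × ℕ) => W.filter (fun c => Inj (SF.mk (fun t => (f t).1) (fun t => (f t).2)) ∧ 1 ≤ x.2.1 ∧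
      (∀ t, ((x.1 + x.2.1 * (x.2.2.1 + x.2.2.2) + (f t).2 : ℕ) : ℝ) ≤ L ^ E) ∧ L ^ ((e : ℝ) + η) ≤ x.2.2.2 ∧
      Bad ε X z (SF.mk (fun t => (f t).1) (fun t => (f t).2)) F c x.1 x.2.1 x.2.2.1 x.2.2.2) := ⟨_, rfl⟩
  obtain ⟨U, hU⟩ : ∃ U : Finset (Fin m → Fin d → ℤ), U = (Icc 1 N).biUnion (fun e =>
    (Fintype.piFinset fun _ : Fin e => (univ : Finset (Fin m)) ×ˢ range (T + 1)).biUnion (fun f => Q4.biUnion (fun x => bd e f x))) := ⟨_, rfl⟩
  rw [← hW]
  have hsub : W.filter (fun c => ∃ (e : ℕ) (Q : SF m e) (b q a h : ℕ), 1 ≤ e ∧ e ≤ N ∧ Inj Q ∧ 1 ≤ q ∧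
      (∀ t, ((b + q * (a + h) + Q.sh t : ℕ) : ℝ) ≤ L ^ E) ∧ L ^ ((e : ℝ) + η) ≤ h ∧ Bad ε X z Q F c b q a h) ⊆ U := by
    intro c hc
    rw [mem_filter] at hc
    obtain ⟨hcW, e, Q, b, q, a, h, he1, heN, hinj, hq, hpts, hh, hbad⟩ := hc
    have hle : ∀ t, b + q * (a + h) + Q.sh t ≤ T := by
      intro t
      rw [hT]
      exact Nat.le_floor (hpts t)
    have h1 : a + h ≤ q * (a + h) := Nat.le_mul_of_pos_left _ (by omega)
    have hh0 : 1 ≤ h := by
      have h2 : (0 : ℝ) < h := lt_of_lt_of_le (Real.rpow_pos_of_pos hL0 _) hh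
      exact_mod_cast h2
    have h3 : q ≤ q * (a + h) := Nat.le_mul_of_pos_right _ (by omega)
    have h4 := hle ⟨0, by omega⟩
    rw [hU]
    simp only [mem_biUnion]
    refine ⟨e, mem_Icc.2 ⟨he1, heN⟩, fun t => (Q.ix t, Q.sh t), ?_, (b, q, a, h), ?_, ?_⟩
    · rw [Fintype.mem_piFinset]
      intro t
      rw [mem_product, mem_range]
      exact ⟨mem_univ _, by have := hle t; simp only; omega⟩
    · rw [hQ4, mem_product, mem_product, mem_product, mem_range, mem_range, mem_range, mem_range]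
      simp only
      exact ⟨by omega, by omega, by omega, by omega⟩
    · rw [hbd]
      simp only
      rw [mem_filter]
      exact ⟨hcW, hinj, hq, hpts, hh, hbad⟩
  have hone : ∀ e ∈ Icc 1 N, ∀ f ∈ (Fintype.piFinset fun _ : Fin e => (univ : Finset (Fin m)) ×ˢ range (T + 1)), ∀ x ∈ Q4,
      ((bd e f x).card : ℝ) ≤ W.card / L ^ B' := by
    intro e he f _ x _
    obtain ⟨b, q, a, h⟩ := x
    rw [mem_Icc] at he
    obtain ⟨Q, hQ⟩ : ∃ Q : SF m e, Q = SF.mk (fun t => (f t).1) (fun t => (f t).2) := ⟨_, rfl⟩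
    by_cases hx : Inj Q ∧ 1 ≤ q ∧ (∀ t, ((b + q * (a + h) + Q.sh t : ℕ) : ℝ) ≤ L ^ E) ∧ L ^ ((e : ℝ) + η) ≤ h
    · obtain ⟨hinj, hq, hpts, hh⟩ := hx
      have hpt : ∀ k ∈ ap b q a h, ∀ t, k + (rsQ Q).sh t ∈ Icc 1 T := by
        intro k hk t
        unfold ap at hk
        rw [mem_image] at hk
        obtain ⟨l, hl, rfl⟩ := hk
        rw [mem_Ioc] at hl
        have h1 : l ≤ q * l := Nat.le_mul_of_pos_left _ (by omega)
        have h2 : b + q * l ≤ b + q * (a + h) := Nat.add_le_add_left (Nat.mul_le_mul_left q hl.2) b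
        have h3 : b + q * (a + h) + Q.sh t ≤ T := by
          rw [hT]
          exact Nat.le_floor (hpts t)
        have h4 : (rsQ Q).sh t = Q.sh t := rfl
        rw [mem_Icc, h4]
        omega
      have hinj' : ∀ t t', (rsQ Q).ix t = (rsQ Q).ix t' → (rsQ Q).sh t = (rsQ Q).sh t' → t = t' := by
        intro t t' h1 h2
        apply hinj t t' _ h2
        rw [← rsQ_ix Q t, ← rsQ_ix Q t', h1]
      have hJ : (JQ Q).card ∈ range (N + 1) := by
        rw [mem_range]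
        have := card_JQ Q
        omega
      have h1 := hall (JQ Q).card hJ e (mem_Icc.2 he) b q z a h hq hzup hzlow hh (rsQ Q)
        (fun j => F ((JQ Q).orderEmbOfFin rfl j)) (fun j => Z ((JQ Q).orderEmbOfFin rfl j)) (fun j => Y ((JQ Q).orderEmbOfFin rfl j)) (Icc 1 T)
        hinj' (fun i => (hF _).trans (le_max_left _ _)) hpt (fun i => hCZ _)
      have h2 := marg' (V := Fin d → ℤ) (fun i => Box (Z i) (Y i)) ((JQ Q).orderEmbOfFin rfl) ((JQ Q).orderEmbOfFin rfl).injective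
        (fun c => Bad ε X z (rsQ Q) (fun j => F ((JQ Q).orderEmbOfFin rfl j)) c b q a h) (1 / L ^ B') (by
          unfold BA at h1
          unfold Bad cntQ
          rw [one_div_mul_eq_div, ← hL]
          refine le_trans (le_of_eq ?_) h1
          congr)
      rw [one_div_mul_eq_div] at h2
      rw [hW]
      unfold BA
      refine le_trans ?_ h2
      rw [hbd]
      simp only
      rw [hW, ← hQ]
      unfold BA
      exact_mod_cast card_le_card (fun c hc => by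
        rw [mem_filter] at hc ⊢
        refine ⟨hc.1, ?_⟩
        have h3 := hc.2.2.2.2.2
        unfold Bad at h3 ⊢
        rw [cnt_rs, PQ_rs]
        exact h3)
    · have : bd e f (b, q, a, h) = ∅ := by
        rw [hbd]
        simp only
        rw [filter_eq_empty_iff]
        rintro c _ ⟨h1, h2, h3, h4, _⟩
        rw [← hQ] at h1
        exact hx ⟨h1, h2, by rw [hQ]; exact h3, h4⟩
      rw [this, card_empty, Nat.cast_zero]
      positivity
  have hW0 : (0 : ℝ) ≤ W.card / L ^ B' := by positivity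
  have hT1 : (T : ℝ) + 1 ≤ L ^ (E + 1) := by
    have h3 : (1 : ℝ) ≤ L ^ E := one_le_pow₀ hL1
    rw [pow_succ]
    nlinarith
  have hQc : (Q4.card : ℝ) ≤ (L ^ (E + 1)) ^ 4 := by
    have h2 : Q4.card = (T + 1) ^ 4 := by
      rw [hQ4]
      simp only [card_product, card_range]
      ring
    rw [h2]
    push_cast
    exact pow_le_pow_left₀ (by positivity) hT1 4
  have hsum : (U.card : ℝ) ≤ (N : ℝ) * ((L ^ (2 * E + 1)) ^ N * ((L ^ (E + 1)) ^ 4 * (W.card / L ^ B'))) := by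
    rw [hU]
    apply cbu
    · rw [Nat.card_Icc, Nat.add_sub_cancel]
    · positivity
    intro e he
    have heN : e ≤ N := (mem_Icc.1 he).2
    apply cbu
    · rw [Fintype.card_piFinset, Finset.prod_const, card_univ, Fintype.card_fin, card_product, card_univ, Fintype.card_fin, card_range]
      push_cast
      calc ((m : ℝ) * (T + 1)) ^ e ≤ (L ^ E * L ^ (E + 1)) ^ e := by
            apply pow_le_pow_left₀ (by positivity)
            exact mul_le_mul hm hT1 (by positivity) (by positivity)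
        _ = (L ^ (2 * E + 1)) ^ e := by
            congr 1
            rw [← pow_add]
            congr 1
            ring
        _ ≤ (L ^ (2 * E + 1)) ^ N := pow_le_pow_right₀ (one_le_pow₀ hL1) heN
    · positivity
    intro f hf
    apply cbu
    · exact hQc
    · exact hW0
    intro x hx
    exact hone e he f hf x hx
  have h5 := (Nat.cast_le (α := ℝ)).2 (card_le_card hsub)
  refine h5.trans (hsum.trans ?_)
  have hW0 : (0 : ℝ) ≤ W.card := Nat.cast_nonneg _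
  have e1 : L ^ B' = L ^ B * (L * ((L ^ (2 * E + 1)) ^ N * (L ^ (E + 1)) ^ 4)) := by
    rw [hB', ← pow_mul, ← pow_mul, ← pow_add, ← pow_succ', ← pow_add]
    congr 1
    ring
  have e2 : (N : ℝ) * ((L ^ (2 * E + 1)) ^ N * ((L ^ (E + 1)) ^ 4 * (W.card / L ^ B'))) = (N / L) * (W.card / L ^ B) := by
    rw [e1]
    field_simp
  rw [e2]
  calc ((N : ℝ) / L) * (W.card / L ^ B) ≤ 1 * (W.card / L ^ B) := by
        apply mul_le_mul_of_nonneg_right _ (by positivity)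
        rw [div_le_one hL0]
        push_cast at hLN
        linarith
    _ = W.card / L ^ B := one_mul _

end Pool.Agent.Q236.SH
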