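import Mathlib.NumberTheory.ArithmeticFunction.Misc
import Mathlib.Analysis.SpecialFunctions.Pow.NNReal
import Mathlib.Analysis.SpecialFunctions.Pow.Real
import Mathlib.Tactic

/-!
# `64 ^ ω(n)` is at most `K n ^ η`
-/

set_option autoImplicit false

namespace Pool.Agent.Q236.SH

open Finset

theorem exists_omega (η : ℝ) (hη : 0 < η) : ∃ K : ℝ, 1 ≤ K ∧ ∀ n : ℕ, 1 ≤ n →
    (64 : ℝ) ^ n.primeFactors.card ≤ K * (n : ℝ) ^ η := by
  obtain ⟨P, hP⟩ : ∃ P : ℕ, (64 : ℝ) ≤ (P : ℝ) ^ η := by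
    obtain ⟨P, hP⟩ := exists_nat_ge ((64 : ℝ) ^ (1 / η))
    refine ⟨P, ?_⟩
    have h1 : ((64 : ℝ) ^ (1 / η)) ^ η ≤ (P : ℝ) ^ η :=
      Real.rpow_le_rpow (by positivity) hP hη.le
    rw [← Real.rpow_mul (by norm_num), one_div, inv_mul_cancel₀ hη.ne', Real.rpow_one] at h1
    exact h1
  refine ⟨(64 : ℝ) ^ P, one_le_pow₀ (by norm_num), fun n hn => ?_⟩
  have h1 : (64 : ℝ) ^ n.primeFactors.card ≤
      ∏ p ∈ n.primeFactors, ((if p < P then (64 : ℝ) else 1) * (p : ℝ) ^ η) := by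
    rw [← Finset.prod_const]
    refine Finset.prod_le_prod (fun _ _ => by norm_num) (fun p hp => ?_)
    have hp1 : (1 : ℝ) ≤ p := by exact_mod_cast (Nat.prime_of_mem_primeFactors hp).one_lt.le
    have hp2 : (1 : ℝ) ≤ (p : ℝ) ^ η := Real.one_le_rpow hp1 hη.le
    split_ifs with h
    · linarith
    · have h3 : (P : ℝ) ≤ p := by exact_mod_cast not_lt.1 h
      have h4 : (P : ℝ) ^ η ≤ (p : ℝ) ^ η := Real.rpow_le_rpow (Nat.cast_nonneg _) h3 hη.le
      linarith
  refine h1.trans ?_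
  rw [Finset.prod_mul_distrib]
  have h2 : ∏ p ∈ n.primeFactors, (if p < P then (64 : ℝ) else 1) ≤ (64 : ℝ) ^ P := by
    rw [← Finset.prod_filter, Finset.prod_const]
    refine pow_le_pow_right₀ (by norm_num) ?_
    calc (n.primeFactors.filter (fun p => p < P)).card ≤ (Finset.range P).card :=
          Finset.card_le_card (fun p hp => by
            rw [Finset.mem_filter] at hp
            exact Finset.mem_range.2 hp.2)
      _ = P := Finset.card_range P
  have h3 : ∏ p ∈ n.primeFactors, (p : ℝ) ^ η ≤ (n : ℝ) ^ η := by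
    rw [Real.finset_prod_rpow _ _ (fun p _ => Nat.cast_nonneg p)]
    refine Real.rpow_le_rpow (Finset.prod_nonneg fun p _ => Nat.cast_nonneg p) ?_ hη.le
    have h4 : ∏ p ∈ n.primeFactors, p ≤ n :=
      Nat.le_of_dvd (by omega) (Nat.prod_primeFactors_dvd n)
    calc ∏ p ∈ n.primeFactors, (p : ℝ) = ((∏ p ∈ n.primeFactors, p : ℕ) : ℝ) := by push_cast; rfl
      _ ≤ n := by exact_mod_cast h4
  exact mul_le_mul h2 h3 (Finset.prod_nonneg fun p _ => by positivity) (by positivity)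

end Pool.Agent.Q236.SH
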