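import Pool.Agent.TH133.SH.GenMain
import Pool.Agent.Q236.SH.Omega

/-!
# Many elements of `Γ₀(N)` of a given size
-/

set_option autoImplicit false

open Finset Matrix.SpecialLinearGroup MatrixGroups ModularGroup
open Pool.Agent.TH133.SH

namespace Pool.Agent.Q236.SH

/-- a matrix with given bottom row and reduced first column -/
theorem exists_matrix (c d : ℤ) (hc : 0 < c) (h : IsCoprime d c) :
    ∃ γ : SL(2, ℤ), γ 1 0 = c ∧ γ 1 1 = d ∧ 0 ≤ γ 0 0 ∧ γ 0 0 < c := by
  obtain ⟨x, y, hxy⟩ := h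
  -- `x d + y c = 1`
  set a : ℤ := x % c with ha
  have ha1 : x = a + c * (x / c) := (Int.emod_add_mul_ediv x c).symm
  refine ⟨mk a (-(y + (x / c) * d)) c d ?_, rfl, rfl, Int.emod_nonneg _ hc.ne',
    Int.emod_lt_of_pos _ hc⟩
  rw [ha1] at hxy
  linear_combination hxy

/-- in a block of `g` consecutive integers there is one prime to `M` -/
theorem exists_coprime_block (M : ℕ) (hM : M ≠ 0) (g : ℕ) (hg : 4 * 8 ^ M.primeFactors.card ≤ g)
    (x : ℤ) : ∃ d : ℤ, x ≤ d ∧ d < x + g ∧ IsCoprime d (M : ℤ) := by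
  obtain ⟨k, hk, hk'⟩ := exists_coprime_term hM x 1 isCoprime_one_right
  have h1 := gap_le M.primeFactors.card
  have h2 : k < g := lt_of_lt_of_le hk (h1.trans hg)
  refine ⟨x + k * 1, by omega, by omega, hk'⟩

/-- The pairs of an index `k` in `(h, R]` and a number `j < n` of a block are mapped to bottom rows
`(N k, d)` such that `N (k a + d m)` lies in `(N h, N R]`. -/
theorem exists_rows (N : ℕ) (hN : 1 ≤ N) (a m : ℤ) (hm : 0 < m) (h R g n : ℕ) (hg1 : 1 ≤ g)
    (hg : ∀ k : ℕ, 1 ≤ k → k ≤ R → 4 * 8 ^ (N * k).primeFactors.card ≤ g)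
    (hn : h + n * g * m ≤ R) :
    ∃ f : ℕ × ℕ → ℤ, ∀ k j : ℕ, h < k → k ≤ R → j < n →
      IsCoprime (f (k, j)) ((N : ℤ) * k) ∧ (h : ℤ) < k * a + f (k, j) * m ∧
      k * a + f (k, j) * m ≤ (R : ℤ) ∧
      (((h : ℤ) - k * a) / m + 1) + j * g ≤ f (k, j) ∧
      f (k, j) < (((h : ℤ) - k * a) / m + 1) + (j + 1) * g := by
  classical
  have key : ∀ x : ℕ × ℕ, ∃ d : ℤ, h < x.1 → x.1 ≤ R → x.2 < n →
      IsCoprime d ((N : ℤ) * x.1) ∧ (h : ℤ) < x.1 * a + d * m ∧
      x.1 * a + d * m ≤ (R : ℤ) ∧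
      (((h : ℤ) - x.1 * a) / m + 1) + x.2 * g ≤ d ∧
      d < (((h : ℤ) - x.1 * a) / m + 1) + (x.2 + 1) * g := by
    rintro ⟨k, j⟩
    by_cases hc : h < k ∧ k ≤ R ∧ j < n
    · obtain ⟨h1, h2, h3⟩ := hc
      have hk1 : 1 ≤ k := by omega
      obtain ⟨d, hd1, hd2, hd3⟩ := exists_coprime_block (N * k) (by positivity) g
        (hg k hk1 h2) ((((h : ℤ) - k * a) / m + 1) + j * g)
      refine ⟨d, fun _ _ _ => ⟨?_, ?_, ?_, hd1, ?_⟩⟩
      · push_cast at hd3
        exact hd3
      · have h4 : (h : ℤ) - k * a < (((h : ℤ) - k * a) / m + 1) * m :=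
          Int.lt_ediv_add_one_mul_self _ hm
        have h5 : (((h : ℤ) - k * a) / m + 1) * m ≤ d * m := by
          refine mul_le_mul_of_nonneg_right ?_ hm.le
          have : (0 : ℤ) ≤ (j : ℤ) * g := by positivity
          linarith
        dsimp only
        linarith
      · have h4 : ((h : ℤ) - k * a) / m * m ≤ (h : ℤ) - k * a := Int.ediv_mul_le _ hm.ne'
        have h5 : d ≤ ((h : ℤ) - k * a) / m + (j + 1) * g := by
          have : ((j : ℤ) + 1) * g = j * g + g := by ring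
          linarith
        have h6 : ((j : ℤ) + 1) * g ≤ n * g := by
          refine mul_le_mul_of_nonneg_right ?_ (by positivity)
          exact_mod_cast h3
        have h7 : d * m ≤ (((h : ℤ) - k * a) / m + n * g) * m :=
          mul_le_mul_of_nonneg_right (by linarith) hm.le
        have h8 : (((h : ℤ) - k * a) / m + (n : ℤ) * g) * m =
            ((h : ℤ) - k * a) / m * m + n * g * m := by ring
        dsimp only
        linarith
      · have : ((j : ℤ) + 1) * g = j * g + g := by ring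
        dsimp only
        linarith
    · exact ⟨0, fun h1 h2 h3 => absurd ⟨h1, h2, h3⟩ hc⟩
  choose f hf using key
  exact ⟨f, fun k j h1 h2 h3 => hf (k, j) h1 h2 h3⟩

end Pool.Agent.Q236.SH
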