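import Pool.Agent.Q236.SH.Orth

set_option autoImplicit false

/-!
# The primes and their model at the points of a constellation
-/

namespace Pool.Agent.Q236.SH

open Finset Filter Polynomial
open Pool.Agent.Q236.RP (ev_log_ge ev_pow_log Box mem_Box card_Box)
open Pool.Agent.Q236.CG (BA mem_BA di pri pri_nonneg pri_le mi mi_small DD PP MM Orth CZ evm card_pts moment)
open Pool.Agent.Q236.MR (pv)

open Classical in
/-- **Large deviations on a free set** -/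
theorem cgS (n d e A C B s : ℕ) (he : 1 ≤ e) (η : ℝ) (hη : 0 < η) (hs1 : 1 ≤ s) (hs : (B : ℝ) + 2 < s * η) (hd : 2 * s * e ≤ d) :
    ∀ᶠ X : ℕ in atTop, ∀ z : ℕ, (z : ℝ) ≤ Real.log X ^ A → Real.log X ^ (C * d) ≤ z →
    ∀ (Q : SF n e) (F : Fin n → ℤ[X]) (Z : Fin n → Fin d → ℤ) (Y : Fin n → Fin d → ℕ) (S T : Finset ℕ),
    (∀ t t', Q.ix t = Q.ix t' → Q.sh t = Q.sh t' → t = t') → (∀ k ∈ S, ∀ t, k + Q.sh t ∈ T) →
    (∀ k ∈ S, ∀ l ∈ S, k ≠ l → ∀ t t', Q.ix t = Q.ix t' → k + Q.sh t ≠ l + Q.sh t') →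
    (∀ i, CZ C X (fun k => (F i).eval (k : ℤ)) 1 (Z i) (Y i) T) →
    (((BA Z Y).filter (fun c => Real.log X ^ η * Real.sqrt (1 + (∑ k ∈ S, |(1 : ℝ)|) / Real.log X ^ e) <
      |∑ k ∈ S, (1 : ℝ) * DD z (vs Q F c k)|)).card : ℝ) ≤ (BA Z Y).card / Real.log X ^ B := by
  obtain ⟨B', hB'⟩ : ∃ B', B' = 2 * s * (C + 2) := ⟨_, rfl⟩
  obtain ⟨R, hR⟩ : ∃ R : ℝ, R = (s : ℝ) ^ (2 * s) * ((s + 1) * 2 ^ s) + (1 + (s : ℝ) ^ (2 * s) * 2 ^ s * (s + 1)) := ⟨_, rfl⟩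
  obtain ⟨η', hη'⟩ : ∃ η' : ℝ, η' = η / (e + 1) := ⟨_, rfl⟩
  have hn0 : (0 : ℝ) < e + 1 := by positivity
  have hη'0 : 0 < η' := by rw [hη']; positivity
  have hη'n : e * η' ≤ η := by
    rw [hη', mul_div_assoc', div_le_iff₀ hn0]
    nlinarith
  obtain ⟨η'', hη''⟩ : ∃ η'' : ℝ, η'' = min η' (1 / 2) := ⟨_, rfl⟩
  have hη''0 : 0 < η'' := by rw [hη'']; positivity
  have hη''1 : η'' ≤ η' := by rw [hη'']; exact min_le_left _ _
  have hη''2 : η'' ≤ 1 / 2 := by rw [hη'']; exact min_le_right _ _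
  have hhalf : ∀ᶠ X : ℕ in atTop, (2 : ℝ) ≤ Real.log X ^ (1 / 2 : ℝ) :=
    ((tendsto_rpow_atTop (show (0 : ℝ) < 1 / 2 by norm_num)).comp (Real.tendsto_log_atTop.comp
      (tendsto_natCast_atTop_atTop (R := ℝ)))).eventually_ge_atTop 2
  filter_upwards [orthS n d e A B' C (2 * s) hd, mi_small A C η'' hη''0, ev_log_ge 4, ev_log_ge R, ev_pow_log (C + 1), hhalf] with X
    horth hmi hL4 hLR hP hhalf z hzA hzC Q F Z Y S T hinj hST hfree hsz
  have hn : 0 < n := (Q.ix ⟨0, he⟩).pos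
  have hpts : ∀ k ∈ S, (k : ℝ) ≤ Real.log X ^ C := by
    intro k hk
    have h1 := (hsz ⟨0, hn⟩).pts _ (hST k hk ⟨0, he⟩)
    push_cast at h1
    have h2 : (0 : ℝ) ≤ (Q.sh ⟨0, he⟩ : ℝ) := Nat.cast_nonneg _
    linarith
  obtain ⟨L, hL⟩ : ∃ L, L = Real.log (X : ℝ) := ⟨_, rfl⟩
  have horth2 := horth z hzA hzC Q F Z Y S T hinj hST hfree hsz
  rw [← hL] at horth2 hmi hL4 hLR hP hzA hzC hpts hhalf ⊢
  have hL0 : 0 < L := by linarith
  have hL1 : 1 ≤ L := by linarith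
  have hLp : ∀ j : ℕ, 0 < L ^ j := fun j => by positivity
  have hLp1 : ∀ j : ℕ, 1 ≤ L ^ j := fun j => one_le_pow₀ hL1
  have hScard := card_pts L C S hL1 hpts
  have hz1 : 1 ≤ z := by
    have : (1 : ℝ) ≤ z := (hLp1 _).trans hzC
    exact_mod_cast this
  obtain ⟨W, hW⟩ : ∃ W, W = BA Z Y := ⟨_, rfl⟩
  have hW0 : (0 : ℝ) ≤ W.card := Nat.cast_nonneg _
  rw [← hW] at horth2
  -- the bounds of the values
  obtain ⟨b, hb⟩ : ∃ b : ℝ, b = L ^ η'' / L := ⟨_, rfl⟩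
  have hb0 : 0 ≤ b := by rw [hb]; have := Real.rpow_pos_of_pos hL0 η''; positivity
  have hb1 : b ≤ 1 / 2 := by
    rw [hb, div_le_iff₀ hL0]
    have h1 : L ^ η'' ≤ L ^ (1 / 2 : ℝ) := Real.rpow_le_rpow_of_exponent_le hL1 hη''2
    have h2 : L = L ^ (1 / 2 : ℝ) * L ^ (1 / 2 : ℝ) := by
      rw [← Real.rpow_add hL0]
      norm_num
    nlinarith
  have hlow : ∀ c ∈ W, ∀ k ∈ S, ∀ i, (X : ℝ) / L ^ C ≤ vs Q F c k i := by
    intro c hc k hk i
    rw [hW, mem_BA] at hc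
    have := (hsz (Q.ix i)).low (k + Q.sh i) (hST k hk i) (c (Q.ix i)) (hc _)
    rw [← hL] at this
    rw [vs_evm]
    exact this
  have hmib : ∀ c ∈ W, ∀ k ∈ S, ∀ i, 0 ≤ mi z (vs Q F c k i) ∧ mi z (vs Q F c k i) ≤ b := by
    intro c hc k hk i
    have h1 := hmi z _ hz1 hzA (hlow c hc k hk i)
    exact ⟨h1.1, by rw [hb]; exact h1.2⟩
  have hM0 : ∀ c ∈ W, ∀ k ∈ S, 0 ≤ MM z (vs Q F c k) := fun c hc k hk =>
    Finset.prod_nonneg fun i _ => (hmib c hc k hk i).1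
  have hM1 : ∀ c ∈ W, ∀ k ∈ S, MM z (vs Q F c k) ≤ b ^ e := by
    intro c hc k hk
    calc MM z (vs Q F c k) ≤ ∏ _i : Fin e, b :=
          Finset.prod_le_prod (fun i _ => (hmib c hc k hk i).1) (fun i _ => (hmib c hc k hk i).2)
      _ = b ^ e := by rw [Finset.prod_const, card_univ, Fintype.card_fin]
  have hP0 : ∀ v : Fin e → ℤ, 0 ≤ PP v := fun v => Finset.prod_nonneg fun i _ => pri_nonneg _
  have hP1 : ∀ v : Fin e → ℤ, PP v ≤ 1 := fun v => Finset.prod_le_one (fun i _ => pri_nonneg _) (fun i _ => pri_le _)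
  have hbn : b ^ e ≤ 1 / 2 := by
    calc b ^ e ≤ b ^ 1 := pow_le_pow_of_le_one hb0 (by linarith) he
      _ = b := pow_one b
      _ ≤ 1 / 2 := hb1
  have hbn0 : 0 ≤ b ^ e := pow_nonneg hb0 e
  have hbL : b ^ e ≤ L ^ η / L ^ e := by
    rw [hb, div_pow]
    apply div_le_div_of_nonneg_right _ (hLp e).le
    rw [← Real.rpow_natCast, ← Real.rpow_mul hL0.le]
    apply Real.rpow_le_rpow_of_exponent_le hL1
    calc η'' * e ≤ η' * e := mul_le_mul_of_nonneg_right hη''1 (Nat.cast_nonneg e)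
      _ = e * η' := mul_comm _ _
      _ ≤ η := hη'n
  have hLη : 0 < L ^ η := Real.rpow_pos_of_pos hL0 η
  have hLη1 : 1 ≤ L ^ η := Real.one_le_rpow hL1 hη.le
  -- the weight
  have hone : ((W.filter (fun c => L ^ η * Real.sqrt (1 + (∑ k ∈ S, |(1 : ℝ)|) / L ^ e) <
      |∑ k ∈ S, (1 : ℝ) * DD z (vs Q F c k)|)).card : ℝ) ≤ R / L ^ (B + 2) * W.card := by
    have hmom := moment W (vs Q F) (DD z) (MM z) S s hs1 (1 / L ^ B') (b ^ e) (by positivity) horth2 hbn0 hbn (by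
      intro c hc k hk
      have h1 := hM0 c hc k hk
      have h2 := hM1 c hc k hk
      have h3 := hP0 (vs Q F c k)
      have h4 := hP1 (vs Q F c k)
      unfold DD
      rw [abs_le]
      constructor <;> linarith) hM0 hM1 (by
      intro c hc k hk
      have h1 := hM0 c hc k hk
      have h3 := hP0 (vs Q F c k)
      unfold DD
      rw [abs_le]
      constructor <;> linarith) (fun _ => 1) (fun _ _ => by simp)
    obtain ⟨ω, hω⟩ : ∃ ω : ℝ, ω = ∑ k ∈ S, |(1 : ℝ)| := ⟨_, rfl⟩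
    have hω0 : 0 ≤ ω := by rw [hω]; exact Finset.sum_nonneg fun k _ => abs_nonneg _
    rw [← hω] at hmom ⊢
    obtain ⟨R1, hQ⟩ : ∃ R1 : ℝ, R1 = 1 + ω / L ^ e := ⟨_, rfl⟩
    have hQ1 : 1 ≤ R1 := by
      rw [hQ]
      have : 0 ≤ ω / L ^ e := by positivity
      linarith
    rw [← hQ]
    obtain ⟨Fb, hFb⟩ : ∃ Fb, Fb = W.filter (fun c => L ^ η * Real.sqrt R1 < |∑ k ∈ S, (1 : ℝ) * DD z (vs Q F c k)|) := ⟨_, rfl⟩
    rw [← hFb]
    have hmk : (Fb.card : ℝ) * (L ^ (η * (2 * s : ℕ)) * R1 ^ s) ≤ ∑ c ∈ W, (∑ k ∈ S, (1 : ℝ) * DD z (vs Q F c k)) ^ (2 * s) := by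
      calc (Fb.card : ℝ) * (L ^ (η * (2 * s : ℕ)) * R1 ^ s) = ∑ _c ∈ Fb, L ^ (η * (2 * s : ℕ)) * R1 ^ s := by
            rw [Finset.sum_const, nsmul_eq_mul]
        _ ≤ ∑ c ∈ Fb, (∑ k ∈ S, (1 : ℝ) * DD z (vs Q F c k)) ^ (2 * s) := by
            apply Finset.sum_le_sum
            intro c hc
            rw [hFb, mem_filter] at hc
            have h1 : (L ^ η * Real.sqrt R1) ^ (2 * s) ≤ |∑ k ∈ S, (1 : ℝ) * DD z (vs Q F c k)| ^ (2 * s) :=
              pow_le_pow_left₀ (by positivity) hc.2.le _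
            rw [Even.pow_abs (even_two_mul s)] at h1
            refine le_trans (le_of_eq ?_) h1
            rw [mul_pow, pow_mul (Real.sqrt R1), Real.sq_sqrt (by linarith), Real.rpow_mul hL0.le, Real.rpow_natCast]
        _ ≤ ∑ c ∈ W, (∑ k ∈ S, (1 : ℝ) * DD z (vs Q F c k)) ^ (2 * s) := by
            apply Finset.sum_le_sum_of_subset_of_nonneg
            · rw [hFb]; exact filter_subset _ _
            · intro c _ _
              rw [pow_mul]
              positivity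
    have h1 : (1 + 2 * b ^ e * ω) ^ s ≤ 2 ^ s * L ^ (η * s) * R1 ^ s := by
      have h2 : 1 + 2 * b ^ e * ω ≤ 2 * L ^ η * R1 := by
        have h3 : b ^ e * ω ≤ L ^ η * (ω / L ^ e) := by
          calc b ^ e * ω ≤ L ^ η / L ^ e * ω := mul_le_mul_of_nonneg_right hbL hω0
            _ = _ := by ring
        rw [hQ]
        nlinarith
      calc (1 + 2 * b ^ e * ω) ^ s ≤ (2 * L ^ η * R1) ^ s := pow_le_pow_left₀ (by positivity) h2 s
        _ = 2 ^ s * L ^ (η * s) * R1 ^ s := by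
            rw [mul_pow, mul_pow, Real.rpow_mul hL0.le, Real.rpow_natCast]
    have h2 : (1 + (S.card : ℝ)) ^ (2 * s) * (1 / L ^ B') ≤ 1 := by
      have h3 : 1 + (S.card : ℝ) ≤ L ^ (C + 2) := by
        calc 1 + (S.card : ℝ) ≤ L ^ C + 2 * L ^ C := add_le_add (hLp1 C) hScard
          _ = 3 * L ^ C := by ring
          _ ≤ L ^ 2 * L ^ C := by
              apply mul_le_mul_of_nonneg_right _ (hLp C).le
              nlinarith
          _ = L ^ (C + 2) := by ring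
      have h4 : (1 + (S.card : ℝ)) ^ (2 * s) ≤ (L ^ (C + 2)) ^ (2 * s) := pow_le_pow_left₀ (by positivity) h3 _
      have h5 : L ^ B' = (L ^ (C + 2)) ^ (2 * s) := by rw [hB']; ring
      rw [mul_one_div, h5, div_le_one (by positivity)]
      exact h4
    have h3 : (s : ℝ) ^ (2 * s) * ((s + 1) * (1 + 2 * b ^ e * ω) ^ s) +
        (1 + (s : ℝ) ^ (2 * s) * 2 ^ s * (s + 1)) * (1 + S.card) ^ (2 * s) * (1 / L ^ B') ≤ R * (L ^ (η * s) * R1 ^ s) := by
      have h4 : 1 ≤ L ^ (η * s) * R1 ^ s := by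
        have := Real.one_le_rpow hL1 (show 0 ≤ η * s by positivity)
        exact one_le_mul_of_one_le_of_one_le this (one_le_pow₀ hQ1)
      have h5 : (s : ℝ) ^ (2 * s) * ((s + 1) * (1 + 2 * b ^ e * ω) ^ s) ≤ (s : ℝ) ^ (2 * s) * ((s + 1) * 2 ^ s) * (L ^ (η * s) * R1 ^ s) := by
        calc (s : ℝ) ^ (2 * s) * ((s + 1) * (1 + 2 * b ^ e * ω) ^ s) ≤
            (s : ℝ) ^ (2 * s) * ((s + 1) * (2 ^ s * L ^ (η * s) * R1 ^ s)) := by gcongr
          _ = _ := by ring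
      have h6 : (1 + (s : ℝ) ^ (2 * s) * 2 ^ s * (s + 1)) * (1 + S.card) ^ (2 * s) * (1 / L ^ B') ≤
          (1 + (s : ℝ) ^ (2 * s) * 2 ^ s * (s + 1)) * (L ^ (η * s) * R1 ^ s) := by
        rw [mul_assoc]
        exact mul_le_mul_of_nonneg_left (h2.trans h4) (by positivity)
      rw [hR]
      nlinarith
    have h4 : (Fb.card : ℝ) * (L ^ (η * (2 * s : ℕ)) * R1 ^ s) ≤ R * (L ^ (η * s) * R1 ^ s) * W.card :=
      (hmk.trans hmom).trans (mul_le_mul_of_nonneg_right h3 hW0)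
    have e1 : L ^ (η * (2 * s : ℕ)) = L ^ (η * s) * L ^ (η * s) := by
      rw [← Real.rpow_add hL0]
      congr 1
      push_cast
      ring
    have hLs : 0 < L ^ (η * s) := Real.rpow_pos_of_pos hL0 _
    have hQs : 0 < R1 ^ s := by positivity
    have h5 : (Fb.card : ℝ) * L ^ (η * s) ≤ R * W.card := by
      have h6 : (Fb.card : ℝ) * L ^ (η * s) * (L ^ (η * s) * R1 ^ s) ≤ R * W.card * (L ^ (η * s) * R1 ^ s) := by
        rw [e1] at h4
        linarith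
      exact le_of_mul_le_mul_right h6 (mul_pos hLs hQs)
    have h6 : L ^ (B + 2) ≤ L ^ (η * s) := by
      rw [← Real.rpow_natCast L (B + 2)]
      apply Real.rpow_le_rpow_of_exponent_le hL1
      push_cast
      linarith
    have h7 : (Fb.card : ℝ) * L ^ (B + 2) ≤ R * W.card :=
      (mul_le_mul_of_nonneg_left h6 (Nat.cast_nonneg _)).trans h5
    calc (Fb.card : ℝ) = Fb.card * L ^ (B + 2) / L ^ (B + 2) := by field_simp
      _ ≤ R * W.card / L ^ (B + 2) := div_le_div_of_nonneg_right h7 (hLp _).le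
      _ = _ := by ring
  rw [← hW]
  refine hone.trans ?_
  have hR0 : 0 ≤ R := by rw [hR]; positivity
  calc R / L ^ (B + 2) * W.card = R / L ^ 2 * (W.card / L ^ B) := by
        have e1 : L ^ (B + 2) = L ^ B * L ^ 2 := by ring
        rw [e1]
        field_simp
    _ ≤ 1 * (W.card / L ^ B) := by
        apply mul_le_mul_of_nonneg_right _ (by positivity)
        rw [div_le_one (hLp 2)]
        refine hLR.trans ?_
        nlinarith
    _ = _ := one_mul _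

end Pool.Agent.Q236.SH
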