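import Pool.Agent.Q236.SH.Rows

/-!
# One large value gives many exceptional fractions
-/

set_option autoImplicit false

open Finset Matrix.SpecialLinearGroup MatrixGroups ModularGroup
open Pool.Agent.TH133.SH

namespace Pool.Agent.Q236.SH

variable {N : ℕ} {a : ℕ → ℤ} {Ω₁ Ω₂ : ℂ} {T X : ℝ}

/-- if both `H(γ)` and `H(γ γ₀)` have coordinates at most `X`, then those of `H(γ₀)` are at most
`2 X` -/
theorem good_of_two (ha : IsForm N a) (hb : IsBasis N a Ω₁ Ω₂) {γ γ₀ : SL(2, ℤ)}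
    (hγ : InG N γ) (h1 : Good a Ω₁ Ω₂ X γ) (h2 : Good a Ω₁ Ω₂ X (γ * γ₀)) :
    Good a Ω₁ Ω₂ (2 * X) γ₀ := by
  rw [good_iff] at h1 h2 ⊢
  intro m n hmn
  obtain ⟨m₁, n₁, e1⟩ := lattice ha hb (z := Hs a γ) ⟨γ, hγ, rfl⟩
  have e2 : Hs a (γ * γ₀) = ((m₁ + m : ℤ) : ℂ) * Ω₁ + ((n₁ + n : ℤ) : ℂ) * Ω₂ := by
    rw [Hs_mul ha hγ, e1, hmn]
    push_cast
    ring
  obtain ⟨a1, a2⟩ := h1 m₁ n₁ e1
  obtain ⟨b1, b2⟩ := h2 _ _ e2
  push_cast at b1 b2
  rw [abs_le] at a1 a2 b1 b2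
  constructor
  · rw [abs_le]
    constructor <;> linarith [a1.1, a1.2, b1.1, b1.2]
  · rw [abs_le]
    constructor <;> linarith [a2.1, a2.2, b2.1, b2.2]

theorem count (hN : 1 ≤ N) (ha : IsForm N a) (hb : IsBasis N a Ω₁ Ω₂) (γ₀ : SL(2, ℤ)) (m : ℤ)
    (hm : 0 < m) (hγ₀ : γ₀ 1 0 = N * m) (hbad : ¬ Good a Ω₁ Ω₂ (2 * X) γ₀) (h R g n : ℕ)
    (hg1 : 1 ≤ g) (hg : ∀ k : ℕ, 1 ≤ k → k ≤ R → 4 * 8 ^ (N * k).primeFactors.card ≤ g)
    (hn : h + n * g * m ≤ R) (hR : R ≤ 2 * h + 1) (hT : ((N * R : ℕ) : ℝ) ≤ T) :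
    (R - h) * n ≤ 2 * (Exceptional N a Ω₁ Ω₂ T X).ncard := by
  classical
  obtain ⟨f, hf⟩ := exists_rows N hN (γ₀ 0 0) m hm h R g n hg1 hg hn
  have hN0 : (0 : ℤ) < N := by exact_mod_cast hN
  set I : Finset (ℕ × ℕ) := (Ioc h R) ×ˢ (range n) with hI
  have hIcard : I.card = (R - h) * n := by
    rw [hI, card_product, Nat.card_Ioc, card_range]
  have memI : ∀ x ∈ I, h < x.1 ∧ x.1 ≤ R ∧ x.2 < n := by
    intro x hx
    rw [hI, mem_product, mem_Ioc, mem_range] at hx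
    exact ⟨hx.1.1, hx.1.2, hx.2⟩
  have hm1 : (1 : ℤ) ≤ m := hm
  have hngR : (n : ℤ) * g ≤ R - h := by
    have h1 : (n : ℤ) * g * 1 ≤ n * g * m := mul_le_mul_of_nonneg_left hm1 (by positivity)
    linarith
  -- the two rows
  set c₁ : ℕ × ℕ → ℤ := fun x => N * x.1 with hc₁
  set c₂ : ℕ × ℕ → ℤ := fun x => N * (x.1 * γ₀ 0 0 + f x * m) with hc₂
  set d₂ : ℕ × ℕ → ℤ := fun x => N * x.1 * γ₀ 0 1 + f x * γ₀ 1 1 with hd₂
  have hfx : ∀ x ∈ I, IsCoprime (f x) ((N : ℤ) * x.1) ∧ (h : ℤ) < x.1 * γ₀ 0 0 + f x * m ∧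
      x.1 * γ₀ 0 0 + f x * m ≤ (R : ℤ) ∧
      (((h : ℤ) - x.1 * γ₀ 0 0) / m + 1) + x.2 * g ≤ f x ∧
      f x < (((h : ℤ) - x.1 * γ₀ 0 0) / m + 1) + (x.2 + 1) * g := by
    rintro ⟨k, j⟩ hx
    obtain ⟨h1, h2, h3⟩ := memI _ hx
    exact hf k j h1 h2 h3
  have hdet := det_eq γ₀
  rw [hγ₀] at hdet
  -- equal index and equal value give the same pair
  have hblock : ∀ x ∈ I, ∀ y ∈ I, x.1 = y.1 → f x = f y → x = y := by
    intro x hx y hy h1 h2
    obtain ⟨-, -, -, p1, p2⟩ := hfx x hx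
    obtain ⟨-, -, -, q1, q2⟩ := hfx y hy
    rw [h1, h2] at p1 p2
    have hg0 : (0 : ℤ) < g := by exact_mod_cast hg1
    have e1 : (x.2 : ℤ) * g < (y.2 + 1) * g := by linarith
    have e2 : (y.2 : ℤ) * g < (x.2 + 1) * g := by linarith
    have e3 := lt_of_mul_lt_mul_right e1 hg0.le
    have e4 := lt_of_mul_lt_mul_right e2 hg0.le
    refine Prod.ext h1 ?_
    omega
  -- the differences in one row are small
  have hdiff : ∀ x ∈ I, ∀ y ∈ I, x.1 = y.1 → |f x - f y| < x.1 := by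
    intro x hx y hy h1
    obtain ⟨-, -, -, p1, p2⟩ := hfx x hx
    obtain ⟨-, -, -, q1, q2⟩ := hfx y hy
    obtain ⟨x1, x2, x3⟩ := memI x hx
    obtain ⟨y1, y2, y3⟩ := memI y hy
    rw [← h1] at q1 q2
    have hg0 : (0 : ℤ) ≤ g := by positivity
    have e1 : ((x.2 : ℤ) + 1) * g ≤ n * g := mul_le_mul_of_nonneg_right (by exact_mod_cast x3) hg0
    have e2 : ((y.2 : ℤ) + 1) * g ≤ n * g := mul_le_mul_of_nonneg_right (by exact_mod_cast y3) hg0
    have e3 : (0 : ℤ) ≤ (x.2 : ℤ) * g := by positivity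
    have e4 : (0 : ℤ) ≤ (y.2 : ℤ) * g := by positivity
    have e5 : (R : ℤ) - h ≤ x.1 := by omega
    rw [abs_lt]
    constructor <;> linarith
  set I₁ : Finset (ℕ × ℕ) := I.filter (fun x => ∃ γ : SL(2, ℤ), γ 1 0 = c₁ x ∧ γ 1 1 = f x ∧
    ¬ Good a Ω₁ Ω₂ X γ) with hI₁
  set I₂ : Finset (ℕ × ℕ) := I.filter (fun x => ∃ γ : SL(2, ℤ), γ 1 0 = c₂ x ∧ γ 1 1 = d₂ x ∧
    ¬ Good a Ω₁ Ω₂ X γ) with hI₂
  have hcover : I ⊆ I₁ ∪ I₂ := by
    intro x hx
    obtain ⟨h1, -, -, -, -⟩ := hfx x hx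
    obtain ⟨x1, x2, x3⟩ := memI x hx
    have hpos : (0 : ℤ) < N * x.1 := by
      have : (0 : ℤ) < x.1 := by exact_mod_cast (by omega : 0 < x.1)
      positivity
    obtain ⟨γ, g1, g2, -, -⟩ := exists_matrix ((N : ℤ) * x.1) (f x) hpos h1
    by_cases hgood : Good a Ω₁ Ω₂ X γ
    · rw [mem_union]
      right
      rw [hI₂, mem_filter]
      refine ⟨hx, γ * γ₀, ?_, ?_, fun hg2 => hbad (good_of_two ha hb ?_ hgood hg2)⟩
      · rw [mul10, g1, g2, hγ₀, hc₂]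
        ring
      · rw [mul11, g1, g2, hd₂]
      · unfold InG
        rw [g1]
        exact dvd_mul_right _ _
    · rw [mem_union]
      left
      rw [hI₁, mem_filter]
      exact ⟨hx, γ, g1, g2, hgood⟩
  have hcard₁ : I₁.card ≤ (Exceptional N a Ω₁ Ω₂ T X).ncard := by
    refine card_rows I₁ c₁ f ha ?_ ?_ ?_ ?_ ?_ ?_
    · intro x hx
      obtain ⟨x1, x2, x3⟩ := memI x (mem_filter.1 hx).1
      have : (0 : ℤ) < x.1 := by exact_mod_cast (by omega : 0 < x.1)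
      rw [hc₁]
      positivity
    · intro x hx
      exact dvd_mul_right _ _
    · intro x hx
      obtain ⟨x1, x2, x3⟩ := memI x (mem_filter.1 hx).1
      refine le_trans ?_ hT
      have h1 : N * x.1 ≤ N * R := Nat.mul_le_mul_left _ x2
      have h2 : ((N * x.1 : ℕ) : ℝ) ≤ ((N * R : ℕ) : ℝ) := by exact_mod_cast h1
      rw [hc₁]
      push_cast at h2 ⊢
      exact h2
    · intro x hx
      exact (hfx x (mem_filter.1 hx).1).1
    · intro x hx
      exact (mem_filter.1 hx).2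
    · intro x hx y hy h1 h2
      have hx' := (mem_filter.1 hx).1
      have hy' := (mem_filter.1 hy).1
      have h3 : (x.1 : ℤ) = y.1 := by
        have h4 : (N : ℤ) * x.1 = N * y.1 := h1
        exact mul_left_cancel₀ hN0.ne' h4
      have h3' : x.1 = y.1 := by exact_mod_cast h3
      have h4 := hdiff x hx' y hy' h3'
      have h5 : f x - f y = 0 := by
        refine Int.eq_zero_of_abs_lt_dvd h2 (lt_of_lt_of_le h4 ?_)
        have h6 : (1 : ℤ) * x.1 ≤ N * x.1 := mul_le_mul_of_nonneg_right hN0 (by positivity)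
        rw [one_mul] at h6
        exact h6
      exact hblock x hx' y hy' h3' (by linarith)
  have hcard₂ : I₂.card ≤ (Exceptional N a Ω₁ Ω₂ T X).ncard := by
    refine card_rows I₂ c₂ d₂ ha ?_ ?_ ?_ ?_ ?_ ?_
    · intro x hx
      obtain ⟨-, h1, -, -, -⟩ := hfx x (mem_filter.1 hx).1
      have h2 : (0 : ℤ) < x.1 * γ₀ 0 0 + f x * m := lt_of_le_of_lt (Int.natCast_nonneg h) h1
      rw [hc₂]
      exact mul_pos hN0 h2
    · intro x hx
      exact dvd_mul_right _ _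
    · intro x hx
      obtain ⟨-, -, h1, -, -⟩ := hfx x (mem_filter.1 hx).1
      refine le_trans ?_ hT
      have h2 : (N : ℤ) * (x.1 * γ₀ 0 0 + f x * m) ≤ N * R := mul_le_mul_of_nonneg_left h1 hN0.le
      have h3 : (((N : ℤ) * (x.1 * γ₀ 0 0 + f x * m) : ℤ) : ℝ) ≤ (((N : ℤ) * R : ℤ) : ℝ) := by
        exact_mod_cast h2
      push_cast at h3 ⊢
      rw [hc₂]
      push_cast
      exact h3
    · intro x hx
      obtain ⟨⟨u, v, huv⟩, -, -, -, -⟩ := hfx x (mem_filter.1 hx).1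
      -- `u f + v N k = 1`
      refine ⟨u * γ₀ 0 0 - v * (N * m), v * γ₀ 1 1 - u * γ₀ 0 1, ?_⟩
      simp only [hc₂, hd₂]
      linear_combination (u * f x + v * (N * x.1)) * hdet + huv
    · intro x hx
      exact (mem_filter.1 hx).2
    · intro x hx y hy h1 h2
      have hx' := (mem_filter.1 hx).1
      have hy' := (mem_filter.1 hy).1
      obtain ⟨-, p1, p2, -, -⟩ := hfx x hx'
      obtain ⟨-, q1, q2, -, -⟩ := hfx y hy'
      obtain ⟨x1, x2, x3⟩ := memI x hx'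
      obtain ⟨y1, y2, y3⟩ := memI y hy'
      have hK : (x.1 : ℤ) * γ₀ 0 0 + f x * m = y.1 * γ₀ 0 0 + f y * m := mul_left_cancel₀ hN0.ne' h1
      set K : ℤ := (x.1 : ℤ) * γ₀ 0 0 + f x * m with hKdef
      set t : ℤ := d₂ x - d₂ y with ht
      have ht1 : (x.1 : ℤ) - y.1 = -(t * m) := by
        have e1 : (N : ℤ) * (x.1 - y.1) = N * (-(t * m)) := by
          rw [ht, hd₂]
          dsimp only
          linear_combination (-(N : ℤ) * (x.1 - y.1)) * hdet + (N : ℤ) * γ₀ 1 1 * hK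
        exact mul_left_cancel₀ hN0.ne' e1
      have ht0 : t = 0 := by
        by_contra hne
        have e2 : c₂ x ≤ |t| := Int.le_of_dvd (abs_pos.2 hne) ((dvd_abs _ _).2 h2)
        have e3 : K ≤ c₂ x := by
          have h3 : (1 : ℤ) * K ≤ N * K :=
            mul_le_mul_of_nonneg_right hN0 (by linarith [Int.natCast_nonneg h])
          rw [one_mul] at h3
          exact h3
        have e4 : |(x.1 : ℤ) - y.1| = |t| * m := by
          rw [ht1, abs_neg, abs_mul, abs_of_pos hm]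
        have e5 : |t| * 1 ≤ |t| * m := mul_le_mul_of_nonneg_left hm1 (abs_nonneg _)
        have e6 : |(x.1 : ℤ) - y.1| < R - h := by
          rw [abs_lt]
          constructor <;> omega
        have e7 : (R : ℤ) - h ≤ h + 1 := by omega
        linarith
      rw [ht0, zero_mul, neg_zero, sub_eq_zero] at ht1
      have ht1' : x.1 = y.1 := by exact_mod_cast ht1
      refine hblock x hx' y hy' ht1' ?_
      rw [← ht1] at hK
      have e8 : f x * m = f y * m := by linarith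
      exact mul_right_cancel₀ hm.ne' e8
  calc (R - h) * n = I.card := hIcard.symm
    _ ≤ (I₁ ∪ I₂).card := card_le_card hcover
    _ ≤ I₁.card + I₂.card := card_union_le _ _
    _ ≤ 2 * (Exceptional N a Ω₁ Ω₂ T X).ncard := by omega

end Pool.Agent.Q236.SH
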