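import Pool.Agent.Q236.SH.Low

set_option autoImplicit false

/-!
# The number of surviving points in an interval
-/

namespace Pool.Agent.Q236.SH

open Finset Filter Polynomial
open Pool.Agent.Q236.MR (pv phi Fz rd Om mem_Om card_Om Om_pos class_ap Om_count Per box_per crt_two crt_many box_sieve dvd_sub_emod prod_close pow_small card_BA_real ba_class TT TT_mono TT_sum TT_mul TT_congr TT_zero TT_const TT_le TT_nonneg qq TT_corr TT_exp TT_moment)
open Pool.Agent.Q236.RP (ev_log_ge ev_pow_log eval_mod)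
open Pool.Agent.Q236.CG (BA mem_BA)
open Pool.Agent.H373R2.T7 (pz mem_pz sum_pz_le Vz Vz_low nuB PerB nuB_le sys_fund)
open Pool.Agent.W123.RP (nuB_shift)

variable {n d e : ℕ}

open Classical in
/-- the number of bad residues -/
noncomputable def omb (b q : ℕ) (A : SF n e) (F : Fin n → ℤ[X]) (c : Fin n → Fin d → ℤ) (p : ℕ) : ℕ :=
  ((range p).filter (fun k => ¬ gd b q A F p c k)).card

/-- the density of the surviving points -/
noncomputable def PQ (b q : ℕ) (A : SF n e) (F : Fin n → ℤ[X]) (z : ℕ) (c : Fin n → Fin d → ℤ) : ℝ :=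
  ∏ p ∈ pz z, (1 - (omb b q A F c p : ℝ) / p)

lemma omb_le (b q : ℕ) (A : SF n e) (F : Fin n → ℤ[X]) (c : Fin n → Fin d → ℤ) (p : ℕ) : omb b q A F c p ≤ p := by
  classical
  unfold omb
  refine (card_filter_le _ _).trans ?_
  rw [card_range]

lemma PQ_nonneg (b q : ℕ) (A : SF n e) (F : Fin n → ℤ[X]) (z : ℕ) (c : Fin n → Fin d → ℤ) : 0 ≤ PQ b q A F z c := by
  unfold PQ
  apply Finset.prod_nonneg
  intro p hp
  have hp0 : (0 : ℝ) < p := by exact_mod_cast (mem_pz.1 hp).2.pos
  have : (omb b q A F c p : ℝ) ≤ p := by exact_mod_cast omb_le b q A F c p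
  have h2 : (omb b q A F c p : ℝ) / p ≤ 1 := by rw [div_le_one hp0]; exact this
  linarith

lemma PQ_zero (b q : ℕ) (A : SF n e) (F : Fin n → ℤ[X]) (z : ℕ) (c : Fin n → Fin d → ℤ) (p : ℕ) (hp : p ∈ pz z)
    (h : ¬ ndq b q A F p c) : PQ b q A F z c = 0 := by
  classical
  unfold PQ
  apply Finset.prod_eq_zero hp
  have hp0 : (p : ℝ) ≠ 0 := by exact_mod_cast (mem_pz.1 hp).2.ne_zero
  have : omb b q A F c p = p := by
    unfold omb
    rw [Finset.filter_true_of_mem, card_range]
    intro k _ hk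
    exact h ⟨k, hk⟩
  rw [this, div_self hp0, sub_self]

lemma Sv_empty (b q : ℕ) (A : SF n e) (F : Fin n → ℤ[X]) (I P : Finset ℕ) (c : Fin n → Fin d → ℤ) (p : ℕ) (hp : p ∈ P)
    (h : ¬ ndq b q A F p c) : Sv b q A F I P c = ∅ := by
  classical
  unfold Sv
  rw [filter_eq_empty_iff]
  intro k _ hk
  exact h ⟨k, hk p hp⟩

/-- the primes dividing the difference of the progression do not matter -/
lemma Sv_drop (b q : ℕ) (A : SF n e) (F : Fin n → ℤ[X]) (I : Finset ℕ) (y z : ℕ) (hyz : y ≤ z) (c : Fin n → Fin d → ℤ)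
    (h : ∀ p ∈ pz z, ndq b q A F p c) : Sv b q A F I (pz y ∪ md y z q) c = Sv b q A F I (pz z) c := by
  classical
  unfold Sv
  apply Finset.filter_congr
  intro k _
  constructor
  · intro h1 p hp
    have hp' := hp
    rw [pz_split y z q hyz, mem_union] at hp'
    rcases hp' with hp' | hp'
    · exact h1 p hp'
    · exact gd_dvd b q A F c p k ((mem_mq y z q p).1 hp').2.2 (h p hp)
  · intro h1 p hp
    apply h1 p
    rw [pz_split y z q hyz]
    exact mem_union_left _ hp

lemma omb_eq (b q : ℕ) (A : SF n e) (F : Fin n → ℤ[X]) (c : Fin n → Fin d → ℤ) (p : ℕ) (h : ndq b q A F p c) :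
    nuB (Qc b q A F c) p = omb b q A F c p := by
  classical
  unfold nuB omb
  have : (range p).filter (fun r => Qc b q A F c p r) = (range p).filter (fun k => ¬ gd b q A F p c k) := by
    apply Finset.filter_congr
    intro k _
    unfold Qc
    exact ⟨fun h => h.2, fun h2 => ⟨h, h2⟩⟩
  rw [← this]

lemma PQ_eq (b q : ℕ) (A : SF n e) (F : Fin n → ℤ[X]) (z : ℕ) (c : Fin n → Fin d → ℤ) (h : ∀ p ∈ pz z, ndq b q A F p c) :
    PQ b q A F z c = ∏ p ∈ pz z, (1 - (nuB (Qc b q A F c) p : ℝ) / p) := by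
  unfold PQ
  apply Finset.prod_congr rfl
  intro p hp
  rw [omb_eq b q A F c p (h p hp)]

lemma nuB_lt (b q : ℕ) (A : SF n e) (F : Fin n → ℤ[X]) (c : Fin n → Fin d → ℤ) (p : ℕ) (hp : p.Prime) (h : ndq b q A F p c) :
    nuB (Qc b q A F c) p < p := by
  classical
  rw [omb_eq b q A F c p h]
  obtain ⟨k, hk⟩ := h
  unfold omb
  have h1 : ((range p).filter (fun k => ¬ gd b q A F p c k)) ⊂ range p := by
    rw [Finset.ssubset_iff_of_subset (filter_subset _ _)]
    refine ⟨k % p, mem_range.2 (Nat.mod_lt _ hp.pos), ?_⟩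
    rw [mem_filter, not_and_not_right]
    intro _
    exact (gd_mod b q A F c p k (k % p) (Nat.mod_modEq k p).symm).1 hk
  have h2 := card_lt_card h1
  rwa [card_range] at h2

end Pool.Agent.Q236.SH
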