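import Pool.Agent.Q236.SH.Count

/-!
# Few exceptional fractions: no exceptional small matrices
-/

set_option autoImplicit false

open Finset Matrix.SpecialLinearGroup MatrixGroups ModularGroup
open Pool.Agent.TH133.SH

namespace Pool.Agent.Q236.SH

variable {N : ℕ} {a : ℕ → ℤ} {Ω₁ Ω₂ : ℂ}

theorem rpow_cond {ε K T : ℝ} (hε0 : 0 < ε) (hε1 : ε < 1) (hK : 1 ≤ K) (hN : 1 ≤ N)
    (hT : (680 * K ^ 2) ^ 2 * (N : ℝ) ^ (1 + ε) ≤ T) :
    680 * K ^ 2 * N * T ^ (ε / 4) ≤ T := by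
  have hN1 : (1 : ℝ) ≤ N := by exact_mod_cast hN
  have hN0 : (0 : ℝ) < N := by linarith
  have hK2 : (1 : ℝ) ≤ K ^ 2 := one_le_pow₀ hK
  have hA1 : (1 : ℝ) ≤ (680 * K ^ 2) ^ 2 := one_le_pow₀ (by linarith)
  have hNe : (1 : ℝ) ≤ (N : ℝ) ^ (1 + ε) := Real.one_le_rpow hN1 (by linarith)
  have hT1 : (1 : ℝ) ≤ T := le_trans (by nlinarith) hT
  have hT0 : (0 : ℝ) < T := by linarith
  have h1 : 680 * K ^ 2 * N ≤ T ^ (1 - ε / 4) := by
    have h2 : ((680 * K ^ 2) ^ 2 * (N : ℝ) ^ (1 + ε)) ^ (1 - ε / 4) ≤ T ^ (1 - ε / 4) :=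
      Real.rpow_le_rpow (by positivity) hT (by linarith)
    refine le_trans ?_ h2
    rw [Real.mul_rpow (by positivity) (by positivity), ← Real.rpow_mul hN0.le]
    have h3 : 680 * K ^ 2 ≤ ((680 * K ^ 2) ^ 2) ^ (1 - ε / 4) := by
      have h4 : ((680 * K ^ 2) ^ 2) ^ ((1 : ℝ) / 2) = 680 * K ^ 2 := by
        rw [← Real.sqrt_eq_rpow, Real.sqrt_sq (by positivity)]
      calc 680 * K ^ 2 = ((680 * K ^ 2) ^ 2) ^ ((1 : ℝ) / 2) := h4.symm
        _ ≤ ((680 * K ^ 2) ^ 2) ^ (1 - ε / 4) :=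
          Real.rpow_le_rpow_of_exponent_le hA1 (by linarith)
    have h5 : (N : ℝ) ≤ (N : ℝ) ^ ((1 + ε) * (1 - ε / 4)) := by
      calc (N : ℝ) = (N : ℝ) ^ (1 : ℝ) := (Real.rpow_one _).symm
        _ ≤ (N : ℝ) ^ ((1 + ε) * (1 - ε / 4)) :=
          Real.rpow_le_rpow_of_exponent_le hN1 (by nlinarith)
    exact mul_le_mul h3 h5 hN0.le (by positivity)
  calc 680 * K ^ 2 * N * T ^ (ε / 4) ≤ T ^ (1 - ε / 4) * T ^ (ε / 4) :=
        mul_le_mul_of_nonneg_right h1 (by positivity)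
    _ = T := by
      rw [← Real.rpow_add hT0]
      simp

theorem few (ε : ℝ) (hε0 : 0 < ε) (hε1 : ε < 1) : ∃ A δ : ℝ, 0 < A ∧ 0 < δ ∧
    ∀ (N : ℕ) (a : ℕ → ℤ) (Ω₁ Ω₂ : ℂ), 1 ≤ N → IsForm N a → IsBasis N a Ω₁ Ω₂ →
      ∀ T X : ℝ, 0 ≤ X → A * (N : ℝ) ^ (1 + ε) ≤ T →
        ((Exceptional N a Ω₁ Ω₂ T X).ncard : ℝ) ≤ δ * T ^ (2 - ε) / (N : ℝ) ^ 2 →
        ∀ γ₀ : SL(2, ℤ), InG N γ₀ → |γ₀ 1 0| ≤ smallEntry N → Good a Ω₁ Ω₂ (2 * X) γ₀ := by
  obtain ⟨K, hK, hω⟩ := exists_omega (ε / 8) (by linarith)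
  refine ⟨(680 * K ^ 2) ^ 2, 1 / (6000 * K ^ 2), by positivity, by positivity, ?_⟩
  intro N a Ω₁ Ω₂ hN ha hb T X hX hT hcard
  have hN1 : (1 : ℝ) ≤ N := by exact_mod_cast hN
  have hN0 : (0 : ℝ) < N := by linarith
  have hK2 : (1 : ℝ) ≤ K ^ 2 := one_le_pow₀ hK
  have hcond := rpow_cond hε0 hε1 hK hN hT
  have hT1 : (1 : ℝ) ≤ T := by
    refine le_trans ?_ hT
    have h1 : (1 : ℝ) ≤ (680 * K ^ 2) ^ 2 := one_le_pow₀ (by linarith)
    have h2 : (1 : ℝ) ≤ (N : ℝ) ^ (1 + ε) := Real.one_le_rpow hN1 (by linarith)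
    nlinarith
  have hT0 : (0 : ℝ) < T := by linarith
  -- the case of a positive lower left entry
  have key : ∀ γ₀ : SL(2, ℤ), InG N γ₀ → 0 < γ₀ 1 0 → γ₀ 1 0 ≤ smallEntry N →
      Good a Ω₁ Ω₂ (2 * X) γ₀ := by
    intro γ₀ hγ₀ hpos hsmall
    by_contra hbad
    obtain ⟨m, hm⟩ := hγ₀
    have hNZ : (0 : ℤ) < N := by exact_mod_cast hN
    have hm0 : 0 < m := by
      rw [hm] at hpos
      exact (mul_pos_iff_of_pos_left hNZ).1 hpos
    have hm1 : m ≤ 17 * 64 ^ N.primeFactors.card := by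
      rw [hm, smallEntry] at hsmall
      push_cast at hsmall
      have h1 : (N : ℤ) * m ≤ N * (17 * 64 ^ N.primeFactors.card) := by linarith
      exact le_of_mul_le_mul_left h1 hNZ
    set q : ℕ := m.toNat with hq
    have hqm : (q : ℤ) = m := Int.toNat_of_nonneg hm0.le
    have hq1 : 1 ≤ q := by omega
    have hqR : (q : ℝ) ≤ 17 * (K * T ^ (ε / 8)) := by
      have h1 : (m : ℝ) ≤ 17 * (64 : ℝ) ^ N.primeFactors.card := by exact_mod_cast hm1
      have h2 : (q : ℝ) = (m : ℝ) := by exact_mod_cast congrArg (fun z : ℤ => (z : ℝ)) hqm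
      have h3 : (N : ℝ) ^ (ε / 8) ≤ T ^ (ε / 8) := by
        refine Real.rpow_le_rpow hN0.le ?_ (by linarith)
        refine le_trans ?_ hT
        have h4 : (1 : ℝ) ≤ (680 * K ^ 2) ^ 2 := one_le_pow₀ (by linarith)
        have h5 : (N : ℝ) ≤ (N : ℝ) ^ (1 + ε) := by
          calc (N : ℝ) = (N : ℝ) ^ (1 : ℝ) := (Real.rpow_one _).symm
            _ ≤ _ := Real.rpow_le_rpow_of_exponent_le hN1 (by linarith)
        nlinarith
      have h6 := hω N hN
      rw [h2]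
      calc (m : ℝ) ≤ 17 * (64 : ℝ) ^ N.primeFactors.card := h1
        _ ≤ 17 * (K * (N : ℝ) ^ (ε / 8)) := by linarith
        _ ≤ 17 * (K * T ^ (ε / 8)) := by gcongr
    set R : ℕ := ⌊T / N⌋₊ with hR
    set h : ℕ := R / 2 with hh
    set g : ℕ := ⌈4 * K * T ^ (ε / 8)⌉₊ with hg
    have hTe : (1 : ℝ) ≤ T ^ (ε / 8) := Real.one_le_rpow hT1 (by linarith)
    have hg1 : 1 ≤ g := by
      rw [hg, Nat.one_le_ceil_iff]
      positivity
    have hg5 : (g : ℝ) ≤ 5 * K * T ^ (ε / 8) := by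
      have h1 := (Nat.ceil_lt_add_one (a := 4 * K * T ^ (ε / 8)) (by positivity)).le
      rw [← hg] at h1
      have h2 : (1 : ℝ) ≤ K * T ^ (ε / 8) := by nlinarith
      nlinarith
    set n : ℕ := (R - h) / (g * q) with hn
    have hNR : ((N * R : ℕ) : ℝ) ≤ T := by
      have h1 : (R : ℝ) ≤ T / N := Nat.floor_le (by positivity)
      rw [le_div_iff₀ hN0] at h1
      push_cast
      linarith
    have hgk : ∀ k : ℕ, 1 ≤ k → k ≤ R → 4 * 8 ^ (N * k).primeFactors.card ≤ g := by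
      intro k hk1 hk2
      have h1 := hω (N * k) (Nat.mul_pos hN hk1)
      have h2 : ((N * k : ℕ) : ℝ) ≤ T := by
        refine le_trans ?_ hNR
        exact_mod_cast Nat.mul_le_mul_left N hk2
      have h3 : ((N * k : ℕ) : ℝ) ^ (ε / 8) ≤ T ^ (ε / 8) :=
        Real.rpow_le_rpow (Nat.cast_nonneg _) h2 (by linarith)
      have h4 : (8 : ℝ) ^ (N * k).primeFactors.card ≤ (64 : ℝ) ^ (N * k).primeFactors.card :=
        pow_le_pow_left₀ (by norm_num) (by norm_num) _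
      have h5 : (4 : ℝ) * 8 ^ (N * k).primeFactors.card ≤ g := by
        calc (4 : ℝ) * 8 ^ (N * k).primeFactors.card
            ≤ 4 * (K * ((N * k : ℕ) : ℝ) ^ (ε / 8)) := by linarith
          _ ≤ 4 * (K * T ^ (ε / 8)) := by gcongr
          _ = 4 * K * T ^ (ε / 8) := by ring
          _ ≤ g := Nat.le_ceil _
      exact_mod_cast h5
    have hnR : (h : ℤ) + n * g * m ≤ R := by
      have h1 : n * (g * q) ≤ R - h := Nat.div_mul_le_self _ _
      have h2 : h + n * g * q ≤ R := by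
        have : n * (g * q) = n * g * q := by ring
        omega
      rw [← hqm]
      exact_mod_cast h2
    have hcount := count hN ha hb γ₀ m hm0 hm hbad h R g n hg1 hgk hnR (by omega) hNR
    -- the sizes
    have hee : T ^ (ε / 8) * T ^ (ε / 8) = T ^ (ε / 4) := by
      rw [← Real.rpow_add hT0]
      congr 1
      ring
    have hTe4 : (1 : ℝ) ≤ T ^ (ε / 4) := Real.one_le_rpow hT1 (by linarith)
    have hTN : 680 * K ^ 2 * T ^ (ε / 4) ≤ T / N := by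
      rw [le_div_iff₀ hN0]
      linarith
    have hTN2 : (680 : ℝ) ≤ T / N := le_trans (by nlinarith) hTN
    have hRT : T / N / 2 ≤ R := by
      have h1 := Nat.lt_floor_add_one (T / N)
      rw [← hR] at h1
      linarith
    have hRh : T / N / 4 ≤ ((R - h : ℕ) : ℝ) := by
      have h1 : R ≤ 2 * (R - h) := by omega
      have h2 : (R : ℝ) ≤ 2 * ((R - h : ℕ) : ℝ) := by exact_mod_cast h1
      linarith
    have hgq : ((g * q : ℕ) : ℝ) ≤ 85 * K ^ 2 * T ^ (ε / 4) := by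
      push_cast
      calc (g : ℝ) * q ≤ (5 * K * T ^ (ε / 8)) * (17 * (K * T ^ (ε / 8))) :=
            mul_le_mul hg5 hqR (Nat.cast_nonneg _) (by positivity)
        _ = 85 * K ^ 2 * (T ^ (ε / 8) * T ^ (ε / 8)) := by ring
        _ = _ := by rw [hee]
    have hgq0 : (0 : ℝ) < ((g * q : ℕ) : ℝ) := by
      exact_mod_cast Nat.mul_pos hg1 hq1
    have hn2 : T / N / (680 * K ^ 2 * T ^ (ε / 4)) ≤ n := by
      have h1 : ((R - h : ℕ) : ℝ) / ((g * q : ℕ) : ℝ) < n + 1 := by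
        rw [div_lt_iff₀ hgq0]
        have h2 : R - h < g * q * (n + 1) := by
          have := Nat.lt_mul_div_succ (R - h) (Nat.mul_pos hg1 hq1)
          rwa [← hn] at this
        have h3 : ((R - h : ℕ) : ℝ) < ((g * q : ℕ) : ℝ) * (n + 1) := by exact_mod_cast h2
        linarith
      have h4 : T / N / 4 / (85 * K ^ 2 * T ^ (ε / 4)) ≤
          ((R - h : ℕ) : ℝ) / ((g * q : ℕ) : ℝ) := by
        rw [div_le_div_iff₀ (by positivity) hgq0]
        exact mul_le_mul hRh hgq hgq0.le (Nat.cast_nonneg _)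
      have h5 : T / N / 4 / (85 * K ^ 2 * T ^ (ε / 4)) =
          2 * (T / N / (680 * K ^ 2 * T ^ (ε / 4))) := by
        field_simp
        ring
      have h6 : 1 ≤ T / N / (680 * K ^ 2 * T ^ (ε / 4)) := by
        rw [one_le_div (by positivity)]
        exact hTN
      linarith
    have hprod : T / N / 4 * (T / N / (680 * K ^ 2 * T ^ (ε / 4))) ≤
        2 * ((Exceptional N a Ω₁ Ω₂ T X).ncard : ℝ) := by
      have h1 : (((R - h) * n : ℕ) : ℝ) ≤ ((2 * (Exceptional N a Ω₁ Ω₂ T X).ncard : ℕ) : ℝ) := by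
        exact_mod_cast hcount
      rw [Nat.cast_mul, Nat.cast_mul, Nat.cast_ofNat] at h1
      exact le_trans (mul_le_mul hRh hn2 (by positivity) (Nat.cast_nonneg _)) h1
    have hpow : T ^ (2 - ε) * T ^ (ε / 4) ≤ T ^ 2 := by
      rw [← Real.rpow_add hT0, ← Real.rpow_natCast T 2]
      refine Real.rpow_le_rpow_of_exponent_le hT1 ?_
      push_cast
      linarith
    have hTpos : 0 < T ^ (2 - ε) := by positivity
    have h1 : T / N / 4 * (T / N / (680 * K ^ 2 * T ^ (ε / 4))) =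
        T ^ 2 / (2720 * K ^ 2 * (N : ℝ) ^ 2 * T ^ (ε / 4)) := by
      field_simp
      ring
    have h2 : T ^ (2 - ε) / (2720 * K ^ 2 * (N : ℝ) ^ 2) ≤
        T ^ 2 / (2720 * K ^ 2 * (N : ℝ) ^ 2 * T ^ (ε / 4)) := by
      rw [div_le_div_iff₀ (by positivity) (by positivity)]
      have h3 : (0 : ℝ) ≤ 2720 * K ^ 2 * (N : ℝ) ^ 2 := by positivity
      nlinarith [mul_le_mul_of_nonneg_left hpow h3]
    have h3 : T ^ (2 - ε) / (2720 * K ^ 2 * (N : ℝ) ^ 2) ≤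
        2 * (1 / (6000 * K ^ 2) * T ^ (2 - ε) / (N : ℝ) ^ 2) := by
      rw [h1] at hprod
      linarith
    have h4 : 2 * (1 / (6000 * K ^ 2) * T ^ (2 - ε) / (N : ℝ) ^ 2) =
        T ^ (2 - ε) / (3000 * K ^ 2 * (N : ℝ) ^ 2) := by
      field_simp
      ring
    rw [h4, div_le_div_iff₀ (by positivity) (by positivity)] at h3
    have h5 : 0 < T ^ (2 - ε) * (K ^ 2 * (N : ℝ) ^ 2) := by positivity
    nlinarith
  intro γ₀ hγ₀ hsmall
  rcases lt_trichotomy (γ₀ 1 0) 0 with h0 | h0 | h0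
  · have e10 : (-γ₀) 1 0 = -(γ₀ 1 0) := by simp
    have hneg : Hs a (-γ₀) = Hs a γ₀ := by
      have h1 : (-γ₀ : SL(2, ℤ)) = -1 * γ₀ := by rw [neg_one_mul]
      have h2 : ((-1 : SL(2, ℤ)) 1 0) = 0 := by simp
      rw [h1, Hs_mul ha (by unfold InG; rw [h2]; exact dvd_zero _), Hs_lower ha h2, zero_add]
    refine (key (-γ₀) ?_ ?_ ?_).congr hneg.symm
    · unfold InG
      rw [e10]
      exact (dvd_neg).2 hγ₀
    · rw [e10]
      linarith
    · rw [e10]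
      rw [abs_of_neg h0] at hsmall
      exact hsmall
  · rw [good_iff]
    intro m n hmn
    rw [Hs_lower ha h0] at hmn
    have h4 := L₁_apply hb m n
    have h5 := L₂_apply hb m n
    rw [← hmn, map_zero] at h4 h5
    rw [← h4, ← h5, abs_zero]
    constructor <;> positivity
  · refine key γ₀ hγ₀ h0 ?_
    rw [abs_of_pos h0] at hsmall
    exact hsmall

end Pool.Agent.Q236.SH
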