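import Pool.Agent.Q236.SH.Few

/-!
# Powers of an element: closed geodesics
-/

set_option autoImplicit false

open Finset Matrix.SpecialLinearGroup MatrixGroups ModularGroup
open Pool.Agent.TH133.SH

namespace Pool.Agent.Q236.SH

variable {N : ℕ} {a : ℕ → ℤ} {Ω₁ Ω₂ : ℂ}

/-- There are constants `κ`, `C` such that the coordinates of `H(γ)` are at most
`C N ^ κ log (2 + |tr γ|)`, for all newforms of all levels `N` and all `γ ∈ Γ₀(N)`. -/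
def GeodesicGrowth : Prop :=
  ∃ κ : ℝ, 0 < κ ∧ ∃ C : ℝ, 0 < C ∧ ∀ N : ℕ, 1 ≤ N → ∀ a : ℕ → ℤ, IsNewform N a →
    ∀ Ω₁ Ω₂ : ℂ, IsBasis N a Ω₁ Ω₂ → ∀ p q r s : ℤ, p * s - q * r = 1 → (N : ℤ) ∣ r →
      CoordBound a Ω₁ Ω₂ p q r s (C * (N : ℝ) ^ κ * Real.log (2 + |((p + s : ℤ) : ℝ)|))

/-- The same for the elements of some subgroup of finite index of the modular group, which may
depend on the level and on the newform. -/
def CoverGrowth : Prop :=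
  ∃ κ : ℝ, 0 < κ ∧ ∃ C : ℝ, 0 < C ∧ ∀ N : ℕ, 1 ≤ N → ∀ a : ℕ → ℤ, IsNewform N a →
    ∀ Ω₁ Ω₂ : ℂ, IsBasis N a Ω₁ Ω₂ → ∃ G : Subgroup SL(2, ℤ), G.FiniteIndex ∧
      ∀ p q r s : ℤ, ∀ h : p * s - q * r = 1, mk p q r s h ∈ G → (N : ℤ) ∣ r →
        CoordBound a Ω₁ Ω₂ p q r s (C * (N : ℝ) ^ κ * Real.log (2 + |((p + s : ℤ) : ℝ)|))

theorem inG_pow {γ : SL(2, ℤ)} (hγ : InG N γ) (k : ℕ) : InG N (γ ^ k) := by
  induction k with
  | zero => simpa using inG_one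
  | succ k ih =>
    rw [pow_succ]
    exact ih.mul hγ

theorem Hs_pow (ha : IsForm N a) {γ : SL(2, ℤ)} (hγ : InG N γ) (k : ℕ) :
    Hs a (γ ^ k) = k * Hs a γ := by
  induction k with
  | zero =>
    rw [pow_zero, Hs_lower ha (by simp)]
    simp
  | succ k ih =>
    rw [pow_succ, Hs_mul ha (inG_pow hγ k), ih]
    push_cast
    ring

/-- the recursion for the lower left entries of the powers -/
theorem pow_lower (γ : SL(2, ℤ)) (k : ℕ) :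
    (γ ^ (k + 2)) 1 0 = (γ 0 0 + γ 1 1) * (γ ^ (k + 1)) 1 0 - (γ ^ k) 1 0 := by
  have h := det_eq γ
  have e1 : γ ^ (k + 2) = γ ^ k * γ * γ := by rw [pow_succ, pow_succ]
  have e2 : γ ^ (k + 1) = γ ^ k * γ := pow_succ _ _
  rw [e1, e2, mul10, mul10, mul11]
  linear_combination (-(γ ^ k) 1 0) * h

/-- the recursion for the traces of the powers -/
theorem pow_trace (γ : SL(2, ℤ)) (k : ℕ) :
    (γ ^ (k + 2)) 0 0 + (γ ^ (k + 2)) 1 1 = (γ 0 0 + γ 1 1) * ((γ ^ (k + 1)) 0 0 +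
      (γ ^ (k + 1)) 1 1) - ((γ ^ k) 0 0 + (γ ^ k) 1 1) := by
  have h := det_eq γ
  have e1 : γ ^ (k + 2) = γ ^ k * γ * γ := by rw [pow_succ, pow_succ]
  have e2 : γ ^ (k + 1) = γ ^ k * γ := pow_succ _ _
  rw [e1, e2, mul00, mul11, mul00, mul01, mul10, mul11]
  linear_combination (-(γ ^ k) 0 0 - (γ ^ k) 1 1) * h

/-- a linear recursion `x (k + 2) = t x (k + 1) - x k` -/
theorem rec_bound (x : ℕ → ℤ) (t D : ℤ) (hD : 0 ≤ D) (h0 : |x 0| ≤ D) (h1 : |x 1| ≤ D * (1 + |t|))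
    (h : ∀ k, x (k + 2) = t * x (k + 1) - x k) (k : ℕ) : |x k| ≤ D * (1 + |t|) ^ k := by
  have ht := abs_nonneg t
  induction k using Nat.twoStepInduction with
  | zero => simpa using h0
  | one => simpa using h1
  | more k ih1 ih2 =>
    rw [h k]
    have h2 : (1 : ℤ) ≤ 1 + |t| := by linarith
    have h3 : (0 : ℤ) ≤ D * (1 + |t|) ^ k := by positivity
    calc |t * x (k + 1) - x k| ≤ |t * x (k + 1)| + |x k| := abs_sub _ _
      _ = |t| * |x (k + 1)| + |x k| := by rw [abs_mul]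
      _ ≤ |t| * (D * (1 + |t|) ^ (k + 1)) + D * (1 + |t|) ^ k := by gcongr
      _ ≤ |t| * (D * (1 + |t|) ^ (k + 1)) + D * (1 + |t|) ^ (k + 1) := by
        have : D * (1 + |t|) ^ k ≤ D * (1 + |t|) ^ (k + 1) := by
          rw [pow_succ]
          nlinarith
        linarith
      _ = D * (1 + |t|) ^ (k + 2) := by ring

theorem lower_bound (γ : SL(2, ℤ)) (k : ℕ) :
    |(γ ^ k) 1 0| ≤ |γ 1 0| * (1 + |γ 0 0 + γ 1 1|) ^ k := by
  refine rec_bound (fun k => (γ ^ k) 1 0) (γ 0 0 + γ 1 1) |γ 1 0| (abs_nonneg _) ?_ ?_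
    (fun k => pow_lower γ k) k
  · simp
  · have h1 : (0 : ℤ) ≤ |γ 0 0 + γ 1 1| := abs_nonneg _
    have h2 : (0 : ℤ) ≤ |γ 1 0| := abs_nonneg _
    simp only [pow_one]
    nlinarith

theorem trace_bound (γ : SL(2, ℤ)) (k : ℕ) :
    |(γ ^ k) 0 0 + (γ ^ k) 1 1| ≤ 2 * (1 + |γ 0 0 + γ 1 1|) ^ k := by
  refine rec_bound (fun k => (γ ^ k) 0 0 + (γ ^ k) 1 1) (γ 0 0 + γ 1 1) 2 (by norm_num) ?_ ?_
    (fun k => pow_trace γ k) k
  · simp
  · have h1 : (0 : ℤ) ≤ |γ 0 0 + γ 1 1| := abs_nonneg _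
    simp only [pow_one]
    linarith

/-- `k x ≤ y + k z` for all `k ≥ 1` implies `x ≤ z` -/
theorem le_of_mul {x y z : ℝ} (h : ∀ k : ℕ, 1 ≤ k → k * x ≤ y + k * z) : x ≤ z := by
  by_contra hc
  push Not at hc
  obtain ⟨k, hk⟩ := exists_nat_gt (|y| / (x - z))
  have hpos : 0 < x - z := by linarith
  have hk0 : (0 : ℝ) < k := lt_of_le_of_lt (by positivity) hk
  have hk1 : 1 ≤ k := by
    rcases Nat.eq_zero_or_pos k with h0 | h0
    · rw [h0] at hk0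
      simp at hk0
    · exact h0
  have h1 := h k hk1
  rw [div_lt_iff₀ hpos] at hk
  have h2 := le_abs_self y
  nlinarith

theorem geodesic_of_log (h : LogarithmicGrowth) : GeodesicGrowth := by
  obtain ⟨κ, hκ, C, hC, h⟩ := h
  refine ⟨κ, hκ, C, hC, ?_⟩
  intro N hN a ha Ω₁ Ω₂ hb p q r s hdet hr m n hmn
  have hN0 : (0 : ℝ) < N := by exact_mod_cast hN
  set γ := mk p q r s hdet with hγdef
  have hγ : InG N γ := hr
  have hHγ : Hs a γ = (m : ℂ) * Ω₁ + (n : ℂ) * Ω₂ := hmn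
  set Y : ℝ := C * (N : ℝ) ^ κ with hY
  have hY0 : 0 < Y := by positivity
  set t : ℤ := p + s with ht
  have hL : 0 ≤ Real.log (2 + |(t : ℝ)|) := Real.log_nonneg (by linarith [abs_nonneg (t : ℝ)])
  have key : ∀ k : ℕ, 1 ≤ k →
      k * |(m : ℝ)| ≤ Y * (1 + Real.log (1 + |(r : ℝ)|)) + k * (Y * Real.log (2 + |(t : ℝ)|)) ∧
      k * |(n : ℝ)| ≤ Y * (1 + Real.log (1 + |(r : ℝ)|)) + k * (Y * Real.log (2 + |(t : ℝ)|)) := by
    intro k hk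
    have hlr : 0 ≤ Real.log (1 + |(r : ℝ)|) := Real.log_nonneg (by linarith [abs_nonneg (r : ℝ)])
    have e1 : Hs a (γ ^ k) = ((k * m : ℤ) : ℂ) * Ω₁ + ((k * n : ℤ) : ℂ) * Ω₂ := by
      rw [Hs_pow ha.toIsForm hγ, hHγ]
      push_cast
      ring
    by_cases h0 : (γ ^ k) 1 0 = 0
    · rw [Hs_lower ha.toIsForm h0] at e1
      have h4 := L₁_apply hb (k * m) (k * n)
      have h5 := L₂_apply hb (k * m) (k * n)
      rw [← e1, map_zero] at h4 h5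
      have hk0 : (k : ℝ) ≠ 0 := by exact_mod_cast (by omega : k ≠ 0)
      push_cast at h4 h5
      have h6 : (m : ℝ) = 0 := by
        rcases mul_eq_zero.1 h4.symm with h | h
        · exact absurd h hk0
        · exact h
      have h7 : (n : ℝ) = 0 := by
        rcases mul_eq_zero.1 h5.symm with h | h
        · exact absurd h hk0
        · exact h
      rw [h6, h7, abs_zero, mul_zero]
      constructor <;> positivity
    · have h1 := h N hN a ha Ω₁ Ω₂ hb _ _ _ _ (det_eq (γ ^ k)) (inG_pow hγ k) h0 _ _ e1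
      have h2 : |(((γ ^ k) 1 0 : ℤ) : ℝ)| ≤ (1 + |(r : ℝ)|) * (2 + |(t : ℝ)|) ^ k := by
        have h3 : |(γ ^ k) 1 0| ≤ |r| * (1 + |t|) ^ k := lower_bound γ k
        have h4 : ((|(γ ^ k) 1 0| : ℤ) : ℝ) ≤ ((|r| * (1 + |t|) ^ k : ℤ) : ℝ) := by
          exact_mod_cast h3
        push_cast at h4
        refine h4.trans ?_
        have h5 := abs_nonneg (r : ℝ)
        have h6 := abs_nonneg (t : ℝ)
        gcongr
        · linarith
        · linarith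
      have h3 : Real.log |(((γ ^ k) 1 0 : ℤ) : ℝ)| ≤
          Real.log (1 + |(r : ℝ)|) + k * Real.log (2 + |(t : ℝ)|) := by
        have h4 : 0 < |(((γ ^ k) 1 0 : ℤ) : ℝ)| := abs_pos.2 (by exact_mod_cast h0)
        have h5 := Real.log_le_log h4 h2
        rw [Real.log_mul (by positivity) (by positivity), Real.log_pow] at h5
        exact h5
      have h4 : Y * (1 + Real.log |(((γ ^ k) 1 0 : ℤ) : ℝ)|) ≤
          Y * (1 + Real.log (1 + |(r : ℝ)|)) + k * (Y * Real.log (2 + |(t : ℝ)|)) := by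
        nlinarith
      obtain ⟨h5, h6⟩ := h1
      push_cast at h5 h6
      rw [abs_mul, abs_of_nonneg (Nat.cast_nonneg k : (0 : ℝ) ≤ k)] at h5 h6
      exact ⟨h5.trans h4, h6.trans h4⟩
  exact ⟨le_of_mul fun k hk => (key k hk).1, le_of_mul fun k hk => (key k hk).2⟩

theorem cover_of_geodesic (h : GeodesicGrowth) : CoverGrowth := by
  obtain ⟨κ, hκ, C, hC, h⟩ := h
  exact ⟨κ, hκ, C, hC, fun N hN a ha Ω₁ Ω₂ hb => ⟨⊤, inferInstance,
    fun p q r s hdet _ hr => h N hN a ha Ω₁ Ω₂ hb p q r s hdet hr⟩⟩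

theorem Hs_translate (ha : IsForm N a) {γ : SL(2, ℤ)} (hγ : InG N γ) (i j : ℤ) :
    Hs a (T ^ i * γ * T ^ j) = Hs a γ := by
  rw [Hs_mul ha ((inG_T i).mul hγ), Hs_mul ha (inG_T i), Hs_lower ha (T_pow i).2.2.1,
    Hs_lower ha (T_pow j).2.2.1, zero_add, add_zero]

theorem entries_of_cover (h : CoverGrowth) : EntriesAtMost 2 := by
  obtain ⟨κ, hκ, C, hC, h⟩ := h
  refine ⟨κ + 2, by positivity, C * 12, by positivity, ?_⟩
  intro N hN a ha Ω₁ Ω₂ hb p q r s hdet hr _ _ hrN _ m n hmn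
  have hN1 : (1 : ℝ) ≤ N := by exact_mod_cast hN
  have hN0 : (0 : ℝ) < N := by linarith
  obtain ⟨G, hG, hGb⟩ := h N hN a ha Ω₁ Ω₂ hb
  set γ := mk p q r s hdet with hγdef
  have hγ : InG N γ := hr
  have hHγ : Hs a γ = (m : ℂ) * Ω₁ + (n : ℂ) * Ω₂ := hmn
  by_cases hr0 : r = 0
  · rw [Hs_lower ha.toIsForm (show γ 1 0 = 0 from hr0)] at hHγ
    have h4 := L₁_apply hb m n
    have h5 := L₂_apply hb m n
    rw [← hHγ, map_zero] at h4 h5
    rw [← h4, ← h5, abs_zero]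
    constructor <;> positivity
  obtain ⟨i, hi⟩ := exists_near p r hr0
  obtain ⟨j, hj⟩ := exists_near s r hr0
  set δ := T ^ i * γ * T ^ j with hδ
  have hδG : InG N δ := ((inG_T i).mul hγ).mul (inG_T j)
  have hHδ : Hs a δ = (m : ℂ) * Ω₁ + (n : ℂ) * Ω₂ := by
    rw [hδ, Hs_translate ha.toIsForm hγ, hHγ]
  have hδ00 : δ 0 0 = p + i * r := by
    rw [hδ, mul00, mul00, mul01, (T_pow i).1, (T_pow i).2.1, (T_pow j).1, (T_pow j).2.2.1]
    change (1 * p + i * r) * 1 + _ * 0 = _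
    ring
  have hδ11 : δ 1 1 = s + j * r := by
    rw [hδ, mul11, mul10, mul11, (T_pow i).2.2.1, (T_pow i).2.2.2, (T_pow j).2.1, (T_pow j).2.2.2]
    change (0 * p + 1 * r) * j + (0 * q + 1 * s) * 1 = _
    ring
  have htr : |δ 0 0 + δ 1 1| ≤ |r| := by
    rw [hδ00, hδ11]
    refine (abs_add_le _ _).trans ?_
    omega
  obtain ⟨k, hk0, -, hkG⟩ := Subgroup.exists_pow_mem_of_index_ne_zero hG.index_ne_zero δ
  have hkR : (0 : ℝ) < k := by exact_mod_cast hk0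
  have e1 : Hs a (δ ^ k) = ((k * m : ℤ) : ℂ) * Ω₁ + ((k * n : ℤ) : ℂ) * Ω₂ := by
    rw [Hs_pow ha.toIsForm hδG, hHδ]
    push_cast
    ring
  have hmk : mk ((δ ^ k) 0 0) ((δ ^ k) 0 1) ((δ ^ k) 1 0) ((δ ^ k) 1 1) (det_eq (δ ^ k)) =
      δ ^ k := by
    ext u v
    fin_cases u <;> fin_cases v <;> rfl
  have h1 := hGb _ _ _ _ (det_eq (δ ^ k)) (by rw [hmk]; exact hkG) (inG_pow hδG k) _ _ e1
  have h2 : (2 + |(((δ ^ k) 0 0 + (δ ^ k) 1 1 : ℤ) : ℝ)|) ≤ (4 * (1 + (N : ℝ) ^ 2)) ^ k := by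
    have h3 := trace_bound δ k
    have h4 : |δ 0 0 + δ 1 1| ≤ (N : ℤ) ^ 2 := htr.trans hrN
    have h5 : |(δ ^ k) 0 0 + (δ ^ k) 1 1| ≤ 2 * (1 + (N : ℤ) ^ 2) ^ k := by
      refine h3.trans ?_
      have := abs_nonneg (δ 0 0 + δ 1 1)
      gcongr
    have h6 : ((|(δ ^ k) 0 0 + (δ ^ k) 1 1| : ℤ) : ℝ) ≤ ((2 * (1 + (N : ℤ) ^ 2) ^ k : ℤ) : ℝ) := by
      exact_mod_cast h5
    rw [Int.cast_abs] at h6
    push_cast at h6 ⊢
    have h7 : (1 : ℝ) ≤ (1 + (N : ℝ) ^ 2) ^ k := one_le_pow₀ (by nlinarith)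
    have h8 : (4 : ℝ) ≤ 4 ^ k := by
      calc (4 : ℝ) = 4 ^ 1 := by norm_num
        _ ≤ 4 ^ k := pow_le_pow_right₀ (by norm_num) hk0
    rw [mul_pow]
    nlinarith
  have h3 : Real.log (2 + |(((δ ^ k) 0 0 + (δ ^ k) 1 1 : ℤ) : ℝ)|) ≤ k * (12 * (N : ℝ) ^ 2) := by
    have h4 := Real.log_le_log (by positivity) h2
    rw [Real.log_pow] at h4
    refine h4.trans ?_
    have h5 := Real.log_le_self (show (0 : ℝ) ≤ 4 * (1 + (N : ℝ) ^ 2) by positivity)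
    have h6 : 4 * (1 + (N : ℝ) ^ 2) ≤ 12 * (N : ℝ) ^ 2 := by nlinarith
    exact mul_le_mul_of_nonneg_left (h5.trans h6) hkR.le
  have h4 : C * (N : ℝ) ^ κ * Real.log (2 + |(((δ ^ k) 0 0 + (δ ^ k) 1 1 : ℤ) : ℝ)|) ≤
      k * (C * 12 * (N : ℝ) ^ (κ + 2)) := by
    have e2 : (N : ℝ) ^ (κ + 2) = (N : ℝ) ^ κ * (N : ℝ) ^ 2 := by
      rw [Real.rpow_add hN0]
      norm_num
    rw [e2]
    calc C * (N : ℝ) ^ κ * Real.log (2 + |(((δ ^ k) 0 0 + (δ ^ k) 1 1 : ℤ) : ℝ)|)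
        ≤ C * (N : ℝ) ^ κ * (k * (12 * (N : ℝ) ^ 2)) := by gcongr
      _ = _ := by ring
  obtain ⟨h5, h6⟩ := h1
  push_cast at h5 h6 h4
  rw [abs_mul, abs_of_nonneg hkR.le] at h5 h6
  exact ⟨le_of_mul_le_mul_left (h5.trans h4) hkR, le_of_mul_le_mul_left (h6.trans h4) hkR⟩

end Pool.Agent.Q236.SH
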