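import Pool.Agent.Q236.MR.LocC

set_option autoImplicit false

/-!
# Values of random polynomials at several points of a constellation: residues
-/

namespace Pool.Agent.Q236.SH

open Finset Polynomial
open Pool.Agent.Q236.MR (pv phi Fz rd card_fun card_arr count_surj)

variable {n d e : ℕ}

/-- a constellation: `e` pairs (member, shift) -/
structure SF (n e : ℕ) where
  /-- the members -/
  ix : Fin e → Fin n
  /-- the shifts -/
  sh : Fin e → ℕ

/-- the value number `t` of the constellation at `k` -/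
def vs (A : SF n e) (F : Fin n → ℤ[X]) (c : Fin n → Fin d → ℤ) (k : ℕ) (t : Fin e) : ℤ := pv F c (k + A.sh t) (A.ix t)

/-- no value is divisible by `p` at `k` -/
def good (A : SF n e) (F : Fin n → ℤ[X]) (p : ℕ) (c : Fin n → Fin d → ℤ) (k : ℕ) : Prop :=
  ∀ t, ¬ (p : ℤ) ∣ vs A F c k t

/-- some argument is good -/
def nd (A : SF n e) (F : Fin n → ℤ[X]) (p : ℕ) (c : Fin n → Fin d → ℤ) : Prop := ∃ k : ℕ, good A F p c k

section Mod

variable (p : ℕ) [Fact p.Prime]

/-- the residues of the values at a finite set of points -/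
noncomputable def ph (Q : Finset (Fin n × ZMod p)) : (Fin n → Fin d → ZMod p) →+ (Q → ZMod p) where
  toFun c := fun x => ∑ j, c x.1.1 j * x.1.2 ^ (j : ℕ)
  map_zero' := by
    funext x
    simp
  map_add' c c' := by
    funext x
    simp only [Pi.add_apply, add_mul, Finset.sum_add_distrib]

lemma ph_surj (Q : Finset (Fin n × ZMod p)) (hQ : Q.card ≤ d) : Function.Surjective (ph (d := d) p Q) := by
  classical
  intro u
  obtain ⟨Qi, hQi⟩ : ∃ Qi : Fin n → Finset (ZMod p), Qi = fun i => (Q.filter (fun x => x.1 = i)).image Prod.snd := ⟨_, rfl⟩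
  have hmem : ∀ i y, y ∈ Qi i ↔ (i, y) ∈ Q := by
    intro i y
    rw [hQi]
    simp only [mem_image, mem_filter]
    constructor
    · rintro ⟨⟨a, b⟩, ⟨h1, h2⟩, h3⟩
      simp only at h2 h3
      rw [← h2, ← h3]
      exact h1
    · intro h
      exact ⟨(i, y), ⟨h, rfl⟩, rfl⟩
  have hcard : ∀ i, (Qi i).card ≤ d := by
    intro i
    rw [hQi]
    exact card_image_le.trans ((card_filter_le _ _).trans hQ)
  obtain ⟨val, hval⟩ : ∃ val : Fin n → ZMod p → ZMod p, val = fun i y => if h : (i, y) ∈ Q then u ⟨(i, y), h⟩ else 0 := ⟨_, rfl⟩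
  obtain ⟨P, hP⟩ : ∃ P : Fin n → (ZMod p)[X], P = fun i => Lagrange.interpolate (Qi i) id (val i) := ⟨_, rfl⟩
  have hinj : ∀ i, Set.InjOn (id : ZMod p → ZMod p) (Qi i) := fun i => Function.injective_id.injOn
  refine ⟨fun i j => (P i).coeff j, ?_⟩
  funext x
  obtain ⟨⟨i, y⟩, hx⟩ := x
  change ∑ j : Fin d, (P i).coeff j * y ^ (j : ℕ) = u ⟨(i, y), hx⟩
  have hd0 : 0 < d := by
    have := card_pos.2 ⟨(i, y), hx⟩
    omega
  have hdeg : (P i).natDegree < d := by
    have h1 : (P i).degree < (Qi i).card := by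
      rw [hP]
      exact Lagrange.degree_interpolate_lt _ (hinj i)
    by_cases h0 : P i = 0
    · rw [h0, natDegree_zero]
      exact hd0
    · rw [Polynomial.natDegree_lt_iff_degree_lt h0]
      refine lt_of_lt_of_le h1 ?_
      exact_mod_cast hcard i
  have h2 : (P i).eval y = ∑ j ∈ range d, (P i).coeff j * y ^ j := Polynomial.eval_eq_sum_range' hdeg y
  rw [Finset.sum_range] at h2
  rw [← h2, hP]
  simp only
  have h3 := Lagrange.eval_interpolate_at_node (s := Qi i) (v := id) (val i) (hinj i) ((hmem i y).2 hx)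
  simp only [id] at h3
  rw [h3, hval]
  simp only
  rw [dif_pos hx]

open Classical in
/-- the number of arrays without a zero at a finite set of points -/
lemma count_pts (Q : Finset (Fin n × ZMod p)) (hQ : Q.card ≤ d) (f : Q → ZMod p) :
    ((univ.filter (fun c : Fin n → Fin d → ZMod p => ∀ x : Q, f x + ph p Q c x ≠ 0)).card : ℝ) =
      (1 - 1 / (p : ℝ)) ^ Q.card * ((p ^ d) ^ n : ℕ) := by
  have hpp := (Fact.out : p.Prime)
  have hp0 : (0 : ℝ) < p := by exact_mod_cast hpp.pos
  have h := count_surj (ph (d := d) p Q) (ph_surj p Q hQ) (fun u : Q → ZMod p => ∀ x, f x + u x ≠ 0)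
  have h1 : (univ.filter (fun u : Q → ZMod p => ∀ x, f x + u x ≠ 0)).card = (p - 1) ^ Q.card := by
    have h2 : (univ.filter (fun u : Q → ZMod p => ∀ x, f x + u x ≠ 0)) =
        Fintype.piFinset (fun x : Q => univ.erase (-f x)) := by
      ext u
      simp only [mem_filter, mem_univ, true_and, Fintype.mem_piFinset, mem_erase, and_true]
      apply forall_congr'
      intro x
      constructor
      · intro h3 h4
        apply h3
        rw [h4]
        ring
      · intro h3 h4
        apply h3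
        linear_combination h4
    rw [h2, Fintype.card_piFinset]
    have h3 : ∀ x : Q, ((univ : Finset (ZMod p)).erase (-f x)).card = p - 1 := by
      intro x
      rw [card_erase_of_mem (mem_univ _), card_univ, ZMod.card]
    rw [Finset.prod_congr rfl (fun x _ => h3 x), Finset.prod_const, card_univ, Fintype.card_coe]
  rw [h1, card_arr, Fintype.card_fun, ZMod.card, Fintype.card_coe] at h
  have h' : ((univ.filter (fun c : Fin n → Fin d → ZMod p => ∀ x : Q, f x + ph p Q c x ≠ 0)).card : ℝ) * (p : ℝ) ^ Q.card =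
      ((p : ℝ) - 1) ^ Q.card * ((p ^ d) ^ n : ℕ) := by
    have h3 : (((p - 1 : ℕ) : ℝ)) = (p : ℝ) - 1 := by
      rw [Nat.cast_sub hpp.one_lt.le, Nat.cast_one]
    rw [← h3]
    exact_mod_cast h
  have h4 : (1 - 1 / (p : ℝ)) ^ Q.card = ((p : ℝ) - 1) ^ Q.card / (p : ℝ) ^ Q.card := by
    rw [← div_pow]
    congr 1
    field_simp
  rw [h4, div_mul_eq_mul_div, eq_div_iff (by positivity)]
  exact h'

open Classical in
/-- the points of the constellation at `k` -/
noncomputable def Qk (A : SF n e) (k : ℕ) : Finset (Fin n × ZMod p) := univ.image fun t => (A.ix t, ((k + A.sh t : ℕ) : ZMod p))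

/-- the number of the points of the constellation -/
noncomputable def nu (A : SF n e) : ℕ := (Qk p A 0).card

lemma card_Qk (A : SF n e) (k : ℕ) : (Qk p A k).card = nu p A := by
  classical
  unfold nu Qk
  have h1 : (univ.image fun t => (A.ix t, ((k + A.sh t : ℕ) : ZMod p))) =
      (univ.image fun t => (A.ix t, ((0 + A.sh t : ℕ) : ZMod p))).image (fun x => (x.1, (k : ZMod p) + x.2)) := by
    rw [Finset.image_image]
    apply Finset.image_congr
    intro t _
    simp only [Function.comp_apply]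
    push_cast
    rw [zero_add]
  rw [h1]
  apply Finset.card_image_of_injective
  rintro ⟨a, b⟩ ⟨a', b'⟩ h
  simp only [Prod.mk.injEq, add_right_inj] at h
  rw [h.1, h.2]

lemma nu_le (A : SF n e) : nu p A ≤ e := by
  classical
  unfold nu Qk
  refine card_image_le.trans ?_
  rw [card_univ, Fintype.card_fin]

/-- the fixed parts at a finite set of points -/
noncomputable def Fq (F : Fin n → ℤ[X]) (Q : Finset (Fin n × ZMod p)) (x : Q) : ZMod p :=
  ((F x.1.1).map (Int.castRingHom (ZMod p))).eval x.1.2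

lemma good_iff (A : SF n e) (F : Fin n → ℤ[X]) (c : Fin n → Fin d → ℤ) (k : ℕ) (Q : Finset (Fin n × ZMod p)) (hQ : Qk p A k ⊆ Q) :
    good A F p c k ↔ ∀ x : Q, x.1 ∈ Qk p A k → Fq p F Q x + ph p Q (rd p c) x ≠ 0 := by
  classical
  have hv : ∀ (t : Fin e) (h : (A.ix t, ((k + A.sh t : ℕ) : ZMod p)) ∈ Q), Fq p F Q ⟨_, h⟩ + ph p Q (rd p c) ⟨_, h⟩ =
      ((vs A F c k t : ℤ) : ZMod p) := by
    intro t h
    unfold vs pv Fq
    have h1 : ((F (A.ix t)).map (Int.castRingHom (ZMod p))).eval ((k + A.sh t : ℕ) : ZMod p) =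
        (((F (A.ix t)).eval ((k + A.sh t : ℕ) : ℤ) : ℤ) : ZMod p) := by
      have h2 : ((k + A.sh t : ℕ) : ZMod p) = (Int.castRingHom (ZMod p)) ((k + A.sh t : ℕ) : ℤ) := by simp
      rw [h2, Polynomial.eval_map_apply]
      rfl
    have h3 : ph p Q (rd p c) ⟨(A.ix t, ((k + A.sh t : ℕ) : ZMod p)), h⟩ =
        ∑ j, (c (A.ix t) j : ZMod p) * ((k + A.sh t : ℕ) : ZMod p) ^ (j : ℕ) := rfl
    rw [h3]
    simp only
    rw [h1]
    push_cast
    rfl
  unfold good
  constructor
  · intro h x hx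
    unfold Qk at hx
    rw [mem_image] at hx
    obtain ⟨t, _, ht⟩ := hx
    have h1 := h t
    rw [← ZMod.intCast_zmod_eq_zero_iff_dvd] at h1
    have hm : (A.ix t, ((k + A.sh t : ℕ) : ZMod p)) ∈ Q := by
      rw [ht]
      exact x.2
    have h2 := hv t hm
    have h3 : x = ⟨_, hm⟩ := Subtype.ext ht.symm
    rw [h3, h2]
    exact h1
  · intro h t
    rw [← ZMod.intCast_zmod_eq_zero_iff_dvd]
    have hk : (A.ix t, ((k + A.sh t : ℕ) : ZMod p)) ∈ Qk p A k := by
      unfold Qk
      exact mem_image.2 ⟨t, mem_univ _, rfl⟩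
    have h2 := h ⟨_, hQ hk⟩ hk
    rw [hv t (hQ hk)] at h2
    exact h2

/-- the density of the good residues -/
noncomputable def qd (A : SF n e) : ℝ := (1 - 1 / (p : ℝ)) ^ nu p A

lemma p_bds : (0 : ℝ) < p ∧ (0 : ℝ) < 1 - 1 / (p : ℝ) ∧ 1 - 1 / (p : ℝ) ≤ 1 := by
  have hpp := (Fact.out : p.Prime)
  have hp0 : (0 : ℝ) < p := by exact_mod_cast hpp.pos
  have hp1 : (1 : ℝ) < p := by exact_mod_cast hpp.one_lt
  refine ⟨hp0, ?_, ?_⟩
  · rw [sub_pos, div_lt_one hp0]
    exact hp1
  · have : (0 : ℝ) < 1 / p := by positivity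
    linarith

lemma qd_pos (A : SF n e) : 0 < qd p A := by
  unfold qd
  exact pow_pos (p_bds p).2.1 _

lemma qd_le_one (A : SF n e) : qd p A ≤ 1 := by
  unfold qd
  exact pow_le_one₀ (p_bds p).2.1.le (p_bds p).2.2

lemma qd_ge (A : SF n e) : 1 - e / (p : ℝ) ≤ qd p A := by
  obtain ⟨hp0, h1, h2⟩ := p_bds p
  have h3 := one_add_mul_le_pow (show (-2 : ℝ) ≤ -(1 / (p : ℝ)) by linarith) (nu p A)
  have h4 : (nu p A : ℝ) / p ≤ e / p := by
    apply div_le_div_of_nonneg_right _ hp0.le
    exact_mod_cast nu_le p A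
  unfold qd
  have h5 : 1 + -(1 / (p : ℝ)) = 1 - 1 / (p : ℝ) := by ring
  rw [h5] at h3
  have h6 : 1 + (nu p A : ℝ) * -(1 / (p : ℝ)) = 1 - nu p A / p := by ring
  rw [h6] at h3
  linarith

open Classical in
/-- **one point** -/
lemma one_point (A : SF n e) (F : Fin n → ℤ[X]) (hd : e ≤ d) (k : ℕ) :
    ((univ.filter (fun c : Fin n → Fin d → ZMod p => ∀ x : Qk p A k, Fq p F (Qk p A k) x + ph p (Qk p A k) c x ≠ 0)).card : ℝ) =
      qd p A * ((p ^ d) ^ n : ℕ) := by
  have h := count_pts (d := d) p (Qk p A k) (by rw [card_Qk]; exact (nu_le p A).trans hd) (Fq p F (Qk p A k))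
  rw [h, card_Qk]
  rfl

open Classical in
/-- **two points** -/
lemma two_points (A : SF n e) (F : Fin n → ℤ[X]) (hd : 2 * e ≤ d) (k l : ℕ) (hkl : Disjoint (Qk p A k) (Qk p A l)) :
    ((univ.filter (fun c : Fin n → Fin d → ZMod p => ∀ x : (Qk p A k ∪ Qk p A l : Finset _), Fq p F (Qk p A k ∪ Qk p A l) x +
      ph p (Qk p A k ∪ Qk p A l) c x ≠ 0)).card : ℝ) = qd p A ^ 2 * ((p ^ d) ^ n : ℕ) := by
  have hcard : (Qk p A k ∪ Qk p A l).card = 2 * nu p A := by
    rw [card_union_of_disjoint hkl, card_Qk, card_Qk]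
    ring
  have h := count_pts (d := d) p (Qk p A k ∪ Qk p A l) (by rw [hcard]; have := nu_le p A; omega) (Fq p F (Qk p A k ∪ Qk p A l))
  rw [h, hcard]
  unfold qd
  congr 1
  rw [← pow_mul, mul_comm]

end Mod

end Pool.Agent.Q236.SH
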