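import Pool.Agent.Q236.SH.LocA

set_option autoImplicit false

/-!
# Arrays modulo `p`
-/

namespace Pool.Agent.Q236.SH

open Finset Polynomial
open Pool.Agent.Q236.MR (pv phi Fz rd phi2_surj card_fun card_arr count_surj Om mem_Om card_Om Om_pos class_ap Om_count)

variable {n d e : ℕ}

section Mod

variable (p : ℕ) [Fact p.Prime]

open Classical in
/-- **one point** -/
lemma om_one (A : SF n e) (F : Fin n → ℤ[X]) (hd : e ≤ d) (k : ℕ) :
    (((Om n d p).filter (fun c => good A F p c k)).card : ℝ) = qd p A * (Om n d p).card := by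
  have h : ((Om n d p).filter (fun c => good A F p c k)).card =
      ((Om n d p).filter (fun c => ∀ x : Qk p A k, Fq p F (Qk p A k) x + ph p (Qk p A k) (rd p c) x ≠ 0)).card := by
    congr 1
    apply Finset.filter_congr
    intro c _
    rw [good_iff p A F c k (Qk p A k) (Finset.Subset.refl _)]
    exact ⟨fun h x => h x x.2, fun h x _ => h x⟩
  rw [h, Om_count p (fun c => ∀ x : Qk p A k, Fq p F (Qk p A k) x + ph p (Qk p A k) c x ≠ 0), one_point p A F hd k, card_Om]

open Classical in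
/-- **two points** -/
lemma om_two (A : SF n e) (F : Fin n → ℤ[X]) (hd : 2 * e ≤ d) (k l : ℕ) (hkl : Disjoint (Qk p A k) (Qk p A l)) :
    (((Om n d p).filter (fun c => good A F p c k ∧ good A F p c l)).card : ℝ) = qd p A ^ 2 * (Om n d p).card := by
  have h : ((Om n d p).filter (fun c => good A F p c k ∧ good A F p c l)).card =
      ((Om n d p).filter (fun c => ∀ x : (Qk p A k ∪ Qk p A l : Finset _), Fq p F (Qk p A k ∪ Qk p A l) x +
        ph p (Qk p A k ∪ Qk p A l) (rd p c) x ≠ 0)).card := by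
    congr 1
    apply Finset.filter_congr
    intro c _
    rw [good_iff p A F c k (Qk p A k ∪ Qk p A l) subset_union_left, good_iff p A F c l (Qk p A k ∪ Qk p A l) subset_union_right]
    constructor
    · rintro ⟨h1, h2⟩ x
      rcases mem_union.1 x.2 with hx | hx
      · exact h1 x hx
      · exact h2 x hx
    · intro h
      exact ⟨fun x _ => h x, fun x _ => h x⟩
  rw [h, Om_count p (fun c => ∀ x : (Qk p A k ∪ Qk p A l : Finset _), Fq p F (Qk p A k ∪ Qk p A l) x +
        ph p (Qk p A k ∪ Qk p A l) c x ≠ 0), two_points p A F hd k l hkl, card_Om]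

/-- the member as a polynomial modulo `p` -/
noncomputable def Bp (F : Fin n → ℤ[X]) (c : Fin n → Fin d → ℤ) (i : Fin n) : (ZMod p)[X] :=
  (F i).map (Int.castRingHom (ZMod p)) + ∑ j, C (c i j : ZMod p) * X ^ (j : ℕ)

/-- the shifted member as a polynomial modulo `p` -/
noncomputable def Gp (A : SF n e) (F : Fin n → ℤ[X]) (c : Fin n → Fin d → ℤ) (t : Fin e) : (ZMod p)[X] :=
  (Bp p F c (A.ix t)).comp (X + C ((A.sh t : ℕ) : ZMod p))

lemma Bp_eval (F : Fin n → ℤ[X]) (c : Fin n → Fin d → ℤ) (i : Fin n) (k : ℕ) :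
    (Bp p F c i).eval (k : ZMod p) = ((pv F c k i : ℤ) : ZMod p) := by
  unfold Bp pv
  rw [eval_add, eval_finsetSum]
  push_cast
  have h1 : ((F i).map (Int.castRingHom (ZMod p))).eval (k : ZMod p) = (((F i).eval (k : ℤ) : ℤ) : ZMod p) := by
    have h2 : (k : ZMod p) = (Int.castRingHom (ZMod p)) (k : ℤ) := by simp
    rw [h2, Polynomial.eval_map_apply]
    rfl
  rw [h1]
  congr 1
  apply Finset.sum_congr rfl
  intro j _
  simp

lemma Gp_eval' (A : SF n e) (F : Fin n → ℤ[X]) (c : Fin n → Fin d → ℤ) (t : Fin e) (x : ZMod p) :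
    (Gp p A F c t).eval x = (Bp p F c (A.ix t)).eval (x + ((A.sh t : ℕ) : ZMod p)) := by
  unfold Gp
  rw [eval_comp, eval_add, eval_X, eval_C]

lemma Gp_eval (A : SF n e) (F : Fin n → ℤ[X]) (c : Fin n → Fin d → ℤ) (t : Fin e) (k : ℕ) :
    (Gp p A F c t).eval (k : ZMod p) = ((vs A F c k t : ℤ) : ZMod p) := by
  rw [Gp_eval', ← Nat.cast_add, Bp_eval]
  rfl

lemma Gp_deg (A : SF n e) (F : Fin n → ℤ[X]) (D : ℕ) (hF : ∀ i, (F i).natDegree ≤ D) (hD : d ≤ D + 1)
    (c : Fin n → Fin d → ℤ) (t : Fin e) : (Gp p A F c t).natDegree ≤ D := by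
  unfold Gp
  rw [natDegree_comp, natDegree_X_add_C, mul_one]
  unfold Bp
  refine (natDegree_add_le _ _).trans (max_le (natDegree_map_le.trans (hF _)) ?_)
  apply natDegree_sum_le_of_forall_le
  intro j _
  refine (natDegree_C_mul_le _ _).trans ?_
  rw [natDegree_X_pow]
  have := j.2
  omega

lemma good_Gp (A : SF n e) (F : Fin n → ℤ[X]) (c : Fin n → Fin d → ℤ) (k : ℕ) :
    good A F p c k ↔ ∀ t, (Gp p A F c t).eval (k : ZMod p) ≠ 0 := by
  unfold good
  apply forall_congr'
  intro t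
  rw [Gp_eval, Ne, ZMod.intCast_zmod_eq_zero_iff_dvd]

open Classical in
/-- few bad residues -/
lemma few_bad (A : SF n e) (F : Fin n → ℤ[X]) (D : ℕ) (hF : ∀ i, (F i).natDegree ≤ D) (hD : d ≤ D + 1)
    (c : Fin n → Fin d → ℤ) (hnd : nd A F p c) (a h b q : ℕ) (hq : (q : ZMod p) ≠ 0) :
    (((Ioc a (a + h)).filter (fun k => ¬ good A F p c (b + q * k))).card : ℝ) ≤ (e * D : ℕ) * (h / p + 1) := by
  obtain ⟨k0, hk0⟩ := hnd
  rw [good_Gp] at hk0
  have hne : ∀ t, Gp p A F c t ≠ 0 := by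
    intro t h0
    apply hk0 t
    rw [h0, eval_zero]
  have h1 : (Ioc a (a + h)).filter (fun k => ¬ good A F p c (b + q * k)) ⊆
      ((univ : Finset (Fin e)).biUnion (fun t => (Gp p A F c t).roots.toFinset)).biUnion
        (fun x => (Ioc a (a + h)).filter (fun k : ℕ => ((b + q * k : ℕ) : ZMod p) = x)) := by
    intro k hk
    rw [mem_filter, good_Gp] at hk
    obtain ⟨hkI, hk⟩ := hk
    push Not at hk
    obtain ⟨t, ht⟩ := hk
    rw [mem_biUnion]
    refine ⟨((b + q * k : ℕ) : ZMod p), ?_, mem_filter.2 ⟨hkI, rfl⟩⟩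
    rw [mem_biUnion]
    refine ⟨t, mem_univ _, ?_⟩
    rw [Multiset.mem_toFinset, mem_roots (hne t)]
    exact ht
  have h2 : ((univ : Finset (Fin e)).biUnion (fun t => (Gp p A F c t).roots.toFinset)).card ≤ e * D := by
    refine card_biUnion_le.trans ?_
    calc ∑ t : Fin e, ((Gp p A F c t).roots.toFinset).card ≤ ∑ _t : Fin e, D := by
          apply Finset.sum_le_sum
          intro t _
          exact (Multiset.toFinset_card_le _).trans ((card_roots' _).trans (Gp_deg p A F D hF hD c t))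
      _ = e * D := by rw [Finset.sum_const, card_univ, Fintype.card_fin, smul_eq_mul]
  have h3 : (((Ioc a (a + h)).filter (fun k => ¬ good A F p c (b + q * k))).card : ℝ) ≤
      ∑ x ∈ (univ : Finset (Fin e)).biUnion (fun t => (Gp p A F c t).roots.toFinset),
        (((Ioc a (a + h)).filter (fun k : ℕ => ((b + q * k : ℕ) : ZMod p) = x)).card : ℝ) := by
    exact_mod_cast (card_le_card h1).trans card_biUnion_le
  refine h3.trans ?_
  have hb : (0 : ℝ) ≤ h / p + 1 := by positivity
  calc ∑ x ∈ (univ : Finset (Fin e)).biUnion (fun t => (Gp p A F c t).roots.toFinset),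
        (((Ioc a (a + h)).filter (fun k : ℕ => ((b + q * k : ℕ) : ZMod p) = x)).card : ℝ) ≤
      ∑ _x ∈ (univ : Finset (Fin e)).biUnion (fun t => (Gp p A F c t).roots.toFinset), ((h : ℝ) / p + 1) :=
        Finset.sum_le_sum fun x _ => class_ap p a h b q hq x
    _ = (((univ : Finset (Fin e)).biUnion (fun t => (Gp p A F c t).roots.toFinset)).card : ℝ) * (h / p + 1) := by
        rw [Finset.sum_const, nsmul_eq_mul]
    _ ≤ (e * D : ℕ) * (h / p + 1) := by
        apply mul_le_mul_of_nonneg_right _ hb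
        exact_mod_cast h2

/-- if all arguments are bad, one member vanishes -/
lemma not_nd (A : SF n e) (F : Fin n → ℤ[X]) (D : ℕ) (hF : ∀ i, (F i).natDegree ≤ D) (hD : d ≤ D + 1) (hp : e * D < p)
    (c : Fin n → Fin d → ℤ) (hnd : ¬ nd A F p c) : ∃ t, Gp p A F c t = 0 := by
  classical
  have : NeZero p := ⟨(Fact.out : p.Prime).ne_zero⟩
  by_contra hall
  push Not at hall
  obtain ⟨Q, hQ⟩ : ∃ Q, Q = ∏ t, Gp p A F c t := ⟨_, rfl⟩
  have hQ0 : Q ≠ 0 := by
    rw [hQ]
    exact Finset.prod_ne_zero_iff.2 fun t _ => hall t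
  have hQd : Q.natDegree ≤ e * D := by
    rw [hQ]
    refine (natDegree_prod_le _ _).trans ?_
    calc ∑ t : Fin e, (Gp p A F c t).natDegree ≤ ∑ _t : Fin e, D := Finset.sum_le_sum fun t _ => Gp_deg p A F D hF hD c t
      _ = e * D := by rw [Finset.sum_const, card_univ, Fintype.card_fin, smul_eq_mul]
  have hex : ∃ x : ZMod p, Q.eval x ≠ 0 := by
    by_contra hno
    push Not at hno
    have h1 : (univ : Finset (ZMod p)) ⊆ Q.roots.toFinset := by
      intro x _
      rw [Multiset.mem_toFinset, mem_roots hQ0]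
      exact hno x
    have h2 := card_le_card h1
    rw [card_univ, ZMod.card] at h2
    have h3 := (Multiset.toFinset_card_le Q.roots).trans ((card_roots' _).trans hQd)
    omega
  obtain ⟨x, hx⟩ := hex
  apply hnd
  refine ⟨x.val, ?_⟩
  rw [good_Gp]
  intro t ht
  apply hx
  rw [ZMod.natCast_zmod_val] at ht
  rw [hQ, eval_prod]
  exact Finset.prod_eq_zero (mem_univ t) ht

open Classical in
/-- few arrays for which all arguments are bad -/
lemma few_not_nd (A : SF n e) (F : Fin n → ℤ[X]) (D : ℕ) (hF : ∀ i, (F i).natDegree ≤ D) (hD : d ≤ D + 1) (hp : e * D < p)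
    (hd : 2 ≤ d) :
    (((Om n d p).filter (fun c => ¬ nd A F p c)).card : ℝ) ≤ e / (p : ℝ) ^ 2 * (Om n d p).card := by
  have hp0 : (0 : ℝ) < p := by exact_mod_cast (Fact.out : p.Prime).pos
  have h01 : ((0 : ℕ) : ZMod p) ≠ ((1 : ℕ) : ZMod p) := by
    rw [Nat.cast_zero, Nat.cast_one]
    exact zero_ne_one
  obtain ⟨P, hP⟩ : ∃ P : Fin e → (Fin n → Fin d → ZMod p) → Prop, P = fun t c =>
    (phi p 0 c (A.ix t), phi p 1 c (A.ix t)) = (-(Fz p F 0 (A.ix t)), -(Fz p F 1 (A.ix t))) := ⟨_, rfl⟩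
  have hone : ∀ t, ((univ.filter (fun c : Fin n → Fin d → ZMod p => P t c)).card : ℝ) = (Om n d p).card / (p : ℝ) ^ 2 := by
    intro t
    obtain ⟨ψ, hψ⟩ : ∃ ψ : (Fin n → Fin d → ZMod p) →+ ZMod p × ZMod p, ψ =
      ((Pi.evalAddMonoidHom (fun _ : Fin n => ZMod p) (A.ix t)).comp (phi p 0)).prod
        ((Pi.evalAddMonoidHom (fun _ : Fin n => ZMod p) (A.ix t)).comp (phi p 1)) := ⟨_, rfl⟩
    have hsurj : Function.Surjective ψ := by
      rintro ⟨x, y⟩
      obtain ⟨c, hc⟩ := phi2_surj (n := n) (d := d) p hd 0 1 h01 (fun _ => x, fun _ => y)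
      refine ⟨c, ?_⟩
      rw [AddMonoidHom.prod_apply, Prod.mk.injEq] at hc
      rw [hψ, AddMonoidHom.prod_apply, Prod.mk.injEq]
      constructor
      · change phi p 0 c (A.ix t) = x
        rw [hc.1]
      · change phi p 1 c (A.ix t) = y
        rw [hc.2]
    have h := count_surj ψ hsurj (fun z => z = (-(Fz p F 0 (A.ix t)), -(Fz p F 1 (A.ix t))))
    have h1 : (univ.filter (fun z : ZMod p × ZMod p => z = (-(Fz p F 0 (A.ix t)), -(Fz p F 1 (A.ix t))))).card = 1 := by
      rw [Finset.card_eq_one]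
      exact ⟨(-(Fz p F 0 (A.ix t)), -(Fz p F 1 (A.ix t))), by
        ext x
        rw [mem_filter, mem_singleton]
        exact ⟨fun hx => hx.2, fun hx => ⟨mem_univ _, hx⟩⟩⟩
    rw [h1, one_mul, Fintype.card_prod, ZMod.card, card_arr] at h
    have h2 : (univ.filter (fun c : Fin n → Fin d → ZMod p => P t c)).card =
        (univ.filter (fun g => ψ g = (-(Fz p F 0 (A.ix t)), -(Fz p F 1 (A.ix t))))).card := by
      congr 1
      apply Finset.filter_congr
      intro c _
      rw [hP, hψ]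
      rfl
    rw [h2, eq_div_iff (by positivity), card_Om]
    rw [sq]
    exact_mod_cast h
  have hsub : (Om n d p).filter (fun c => ¬ nd A F p c) ⊆
      (univ : Finset (Fin e)).biUnion (fun t => (Om n d p).filter (fun c => P t (rd p c))) := by
    intro c hc
    rw [mem_filter] at hc
    obtain ⟨t, ht⟩ := not_nd p A F D hF hD hp c hc.2
    rw [mem_biUnion]
    refine ⟨t, mem_univ _, mem_filter.2 ⟨hc.1, ?_⟩⟩
    have hk : ∀ k : ℕ, phi p k (rd p c) (A.ix t) = -(Fz p F k (A.ix t)) := by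
      intro k
      have h1 := Gp_eval' p A F c t ((k : ZMod p) - ((A.sh t : ℕ) : ZMod p))
      rw [ht, eval_zero, sub_add_cancel, Bp_eval] at h1
      have h2 : ((pv F c k (A.ix t) : ℤ) : ZMod p) = Fz p F k (A.ix t) + phi p k (rd p c) (A.ix t) := by
        unfold pv
        push_cast
        rfl
      rw [h2] at h1
      linear_combination -h1
    rw [hP]
    simp only
    rw [hk 0, hk 1]
  have h1 : (((Om n d p).filter (fun c => ¬ nd A F p c)).card : ℝ) ≤
      ∑ t : Fin e, (((Om n d p).filter (fun c => P t (rd p c))).card : ℝ) := by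
    exact_mod_cast (card_le_card hsub).trans card_biUnion_le
  refine h1.trans ?_
  have h2 : ∀ t : Fin e, (((Om n d p).filter (fun c => P t (rd p c))).card : ℝ) = (Om n d p).card / (p : ℝ) ^ 2 := by
    intro t
    rw [Om_count p (P t)]
    exact hone t
  rw [Finset.sum_congr rfl (fun t _ => h2 t), Finset.sum_const, card_univ, Fintype.card_fin, nsmul_eq_mul]
  apply le_of_eq
  ring

end Mod

end Pool.Agent.Q236.SH
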