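import Pool.Agent.Q236.SH.Dev
import Pool.Agent.Q236.LG.Core
import Pool.Agent.H373R2.T7.Fund
import Pool.Agent.W123.RP.Pair
import Pool.Agent.Q236.RP.Crt

set_option autoImplicit false

/-!
# Lower bounds for the densities, and the periodic conditions
-/

namespace Pool.Agent.Q236.SH

open Finset Filter Polynomial
open Pool.Agent.Q236.MR (pv phi Fz rd Om mem_Om card_Om Om_pos class_ap Om_count Per box_per crt_two crt_many box_sieve dvd_sub_emod prod_close pow_small card_BA_real ba_class TT TT_mono TT_sum TT_mul TT_congr TT_zero TT_const TT_le TT_nonneg qq TT_corr TT_exp TT_moment)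
open Pool.Agent.Q236.RP (ev_log_ge ev_pow_log eval_mod)
open Pool.Agent.Q236.CG (BA mem_BA)
open Pool.Agent.Q236.LG (fac_low PP_low)
open Pool.Agent.H373R2.T7 (pz mem_pz sum_pz_le Vz Vz_low nuB PerB nuB_le)

variable {n d e : ℕ}

/-- lower bound for the product of the densities -/
theorem rho_low (e : ℕ) : ∃ C2 y0 : ℕ, ∀ q y z : ℕ, y0 ≤ z → 2 * e ≤ y → ∀ (n : ℕ) (A : SF n e),
    1 / Real.log z ^ C2 ≤ ∏ p ∈ md y z q, rho A p := by
  obtain ⟨C, N0, hV⟩ := Vz_low
  refine ⟨2 * e * C, max N0 3, ?_⟩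
  intro q y z hz hye n A
  have hzN : N0 ≤ z := (le_max_left _ _).trans hz
  have hz3 : 3 ≤ z := (le_max_right _ _).trans hz
  have hl0 : 0 < Real.log z := Real.log_pos (by exact_mod_cast (by omega : 1 < z))
  have hVz := hV z hzN
  have h1 : (1 / Real.log z ^ C) ^ (2 * e) ≤ Vz z ^ (2 * e) := pow_le_pow_left₀ (by positivity) hVz _
  have h2 : (1 / Real.log z ^ C) ^ (2 * e) = 1 / Real.log z ^ (2 * e * C) := by
    rw [div_pow, one_pow, ← pow_mul, mul_comm C]
  rw [← h2]
  refine h1.trans ?_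
  have h01 : ∀ p ∈ pz z, 0 ≤ (1 - 1 / (p : ℝ)) ∧ (1 - 1 / (p : ℝ)) ≤ 1 := by
    intro p hp
    have hpp := (mem_pz.1 hp).2
    have hp0 : (0 : ℝ) < p := by exact_mod_cast hpp.pos
    have hp1r : (1 : ℝ) ≤ p := by exact_mod_cast hpp.one_lt.le
    have hx1 : (1 : ℝ) / p ≤ 1 := by rw [div_le_one hp0]; exact hp1r
    have hx0 : (0 : ℝ) ≤ 1 / p := by positivity
    exact ⟨by linarith, by linarith⟩
  unfold Vz
  rw [← Finset.prod_pow]
  calc ∏ p ∈ pz z, (1 - 1 / (p : ℝ)) ^ (2 * e) ≤ ∏ p ∈ md y z q, (1 - 1 / (p : ℝ)) ^ (2 * e) := by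
        rw [show pz z = (pz z).filter (fun p => y < p ∧ ¬ p ∣ q) ∪ (pz z).filter (fun p => ¬ (y < p ∧ ¬ p ∣ q)) from
          (Finset.filter_union_filter_not_eq _ _).symm, Finset.prod_union (Finset.disjoint_filter_filter_not _ _ _)]
        have h3 : ∏ p ∈ (pz z).filter (fun p => ¬ (y < p ∧ ¬ p ∣ q)), (1 - 1 / (p : ℝ)) ^ (2 * e) ≤ 1 := by
          apply Finset.prod_le_one
          · intro p hp
            exact pow_nonneg (h01 p (mem_filter.1 hp).1).1 _
          · intro p hp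
            exact pow_le_one₀ (h01 p (mem_filter.1 hp).1).1 (h01 p (mem_filter.1 hp).1).2
        have h4 : 0 ≤ ∏ p ∈ (pz z).filter (fun p => y < p ∧ ¬ p ∣ q), (1 - 1 / (p : ℝ)) ^ (2 * e) := by
          apply Finset.prod_nonneg
          intro p hp
          exact pow_nonneg (h01 p (mem_filter.1 hp).1).1 _
        calc _ ≤ (∏ p ∈ (pz z).filter (fun p => y < p ∧ ¬ p ∣ q), (1 - 1 / (p : ℝ)) ^ (2 * e)) * 1 := mul_le_mul_of_nonneg_left h3 h4
          _ = _ := mul_one _
    _ ≤ ∏ p ∈ md y z q, rho A p := by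
        apply Finset.prod_le_prod
        · intro p hp
          exact pow_nonneg (h01 p (mem_filter.1 hp).1).1 _
        · intro p hp
          rw [mem_md] at hp
          exact (fac_low e p (by omega) hp.1.2.one_lt.le).trans (rho_ge A p hp.1.2)

lemma vs_mod (A : SF n e) (F : Fin n → ℤ[X]) (c : Fin n → Fin d → ℤ) (p k l : ℕ) (h : k ≡ l [MOD p]) (t : Fin e) :
    (p : ℤ) ∣ vs A F c k t - vs A F c l t := by
  have h' : k + A.sh t ≡ l + A.sh t [MOD p] := Nat.ModEq.add_right _ h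
  unfold vs pv
  have e1 : (F (A.ix t)).eval ((k + A.sh t : ℕ) : ℤ) + ∑ j, c (A.ix t) j * ((k + A.sh t : ℕ) : ℤ) ^ (j : ℕ) -
      ((F (A.ix t)).eval ((l + A.sh t : ℕ) : ℤ) + ∑ j, c (A.ix t) j * ((l + A.sh t : ℕ) : ℤ) ^ (j : ℕ)) =
      ((F (A.ix t)).eval ((k + A.sh t : ℕ) : ℤ) - (F (A.ix t)).eval ((l + A.sh t : ℕ) : ℤ)) +
        ∑ j, c (A.ix t) j * (((k + A.sh t : ℕ) : ℤ) ^ (j : ℕ) - ((l + A.sh t : ℕ) : ℤ) ^ (j : ℕ)) := by
    rw [Finset.sum_congr rfl (fun j _ => mul_sub (c (A.ix t) j) (((k + A.sh t : ℕ) : ℤ) ^ (j : ℕ)) (((l + A.sh t : ℕ) : ℤ) ^ (j : ℕ))),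
      Finset.sum_sub_distrib]
    ring
  rw [e1]
  apply dvd_add (eval_mod _ p _ _ h')
  apply Finset.dvd_sum
  intro j _
  apply Dvd.dvd.mul_left
  have h2 : (p : ℤ) ∣ ((k + A.sh t : ℕ) : ℤ) - ((l + A.sh t : ℕ) : ℤ) := (Nat.modEq_iff_dvd.1 h'.symm)
  exact h2.trans (sub_dvd_pow_sub_pow _ _ _)

lemma good_mod (A : SF n e) (F : Fin n → ℤ[X]) (c : Fin n → Fin d → ℤ) (p k l : ℕ) (h : k ≡ l [MOD p]) :
    good A F p c k ↔ good A F p c l := by
  unfold good
  apply forall_congr'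
  intro t
  rw [not_iff_not]
  exact dvd_iff_dvd_of_dvd_sub (vs_mod A F c p k l h t)

/-- some point of the progression is good -/
def ndq (b q : ℕ) (A : SF n e) (F : Fin n → ℤ[X]) (p : ℕ) (c : Fin n → Fin d → ℤ) : Prop := ∃ k, gd b q A F p c k

lemma ndq_nd (b q : ℕ) (A : SF n e) (F : Fin n → ℤ[X]) (p : ℕ) (c : Fin n → Fin d → ℤ) (h : ndq b q A F p c) : nd A F p c := by
  obtain ⟨k, hk⟩ := h
  exact ⟨b + q * k, hk⟩

lemma gd_mod (b q : ℕ) (A : SF n e) (F : Fin n → ℤ[X]) (c : Fin n → Fin d → ℤ) (p k l : ℕ) (h : k ≡ l [MOD p]) :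
    gd b q A F p c k ↔ gd b q A F p c l := by
  unfold gd
  apply good_mod
  exact Nat.ModEq.add_left b (Nat.ModEq.mul_left q h)

lemma gd_dvd (b q : ℕ) (A : SF n e) (F : Fin n → ℤ[X]) (c : Fin n → Fin d → ℤ) (p k : ℕ) (hpq : p ∣ q) (h : ndq b q A F p c) :
    gd b q A F p c k := by
  obtain ⟨l, hl⟩ := h
  refine (good_mod A F c p (b + q * k) (b + q * l) ?_).2 hl
  apply Nat.ModEq.add_left b
  have h1 : q * k ≡ 0 [MOD p] := (Nat.modEq_zero_iff_dvd).2 (Dvd.dvd.mul_right hpq k)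
  have h2 : q * l ≡ 0 [MOD p] := (Nat.modEq_zero_iff_dvd).2 (Dvd.dvd.mul_right hpq l)
  exact h1.trans h2.symm

/-- the condition: `p` divides one of the forms at the point with index `k`, and not for all `k` -/
def Qc (b q : ℕ) (A : SF n e) (F : Fin n → ℤ[X]) (c : Fin n → Fin d → ℤ) (p k : ℕ) : Prop :=
  ndq b q A F p c ∧ ¬ gd b q A F p c k

lemma Qc_per (b q : ℕ) (A : SF n e) (F : Fin n → ℤ[X]) (D : ℕ) (hF : ∀ i, (F i).natDegree ≤ D) (hD : d ≤ D + 1)
    (c : Fin n → Fin d → ℤ) : PerB (Qc b q A F c) (2 * (e * D) + 1) := by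
  classical
  constructor
  · intro p k
    unfold Qc
    apply and_congr_right
    intro _
    rw [not_iff_not]
    exact gd_mod b q A F c p k (k % p) (Nat.mod_modEq k p).symm
  · intro p hp
    have := Fact.mk hp
    unfold nuB
    have hzero : (∀ r, ¬ Qc b q A F c p r) → ((range p).filter (fun r => Qc b q A F c p r)).card ≤ 2 * (e * D) + 1 := by
      intro h0
      have h1 : (range p).filter (fun r => Qc b q A F c p r) = ∅ := by
        rw [filter_eq_empty_iff]
        intro r _ h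
        exact h0 r h
      rw [h1, card_empty]
      exact Nat.zero_le _
    have hgoal : ((range p).filter (fun r => Qc b q A F c p r)).card ≤ 2 * (e * D) + 1 := by
      by_cases hpq : p ∣ q
      · exact hzero fun r h => h.2 (gd_dvd b q A F c p r hpq h.1)
      by_cases hnd : ndq b q A F p c
      · have hbq : (q : ZMod p) ≠ 0 := by
          rw [Ne, ZMod.natCast_eq_zero_iff]
          exact hpq
        have h1 : (range p).filter (fun r => Qc b q A F c p r) ⊆ insert 0 ((Ioc 0 (0 + p)).filter (fun k => ¬ good A F p c (b + q * k))) := by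
          intro r hr
          rw [mem_filter, mem_range] at hr
          rw [mem_insert, mem_filter, mem_Ioc]
          rcases Nat.eq_zero_or_pos r with h | h
          · exact Or.inl h
          · exact Or.inr ⟨⟨h, by omega⟩, hr.2.2⟩
        have h2 := (card_le_card h1).trans (card_insert_le _ _)
        have h3 := few_bad p A F D hF hD c (ndq_nd b q A F p c hnd) 0 p b q hbq
        have hp0 : (p : ℝ) ≠ 0 := by exact_mod_cast hp.ne_zero
        rw [div_self hp0] at h3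
        have h4 : (((Ioc 0 (0 + p)).filter (fun k => ¬ good A F p c (b + q * k))).card : ℝ) ≤ ((2 * (e * D) : ℕ) : ℝ) := by
          push_cast at h3 ⊢
          linarith
        have h5 : ((Ioc 0 (0 + p)).filter (fun k => ¬ good A F p c (b + q * k))).card ≤ 2 * (e * D) := by exact_mod_cast h4
        exact h2.trans (by omega)
      · exact hzero fun r h => hnd h.1
    refine le_trans (le_of_eq ?_) hgoal
    congr

end Pool.Agent.Q236.SH
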