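import Pool.Agent.Q236.SH.Cg
import Pool.Agent.Q236.MR.Mach

set_option autoImplicit false

/-!
# Bateman-Horn in short intervals for constellations
-/

namespace Pool.Agent.Q236.SH

open Finset Filter Polynomial
open Pool.Agent.Q236.RP (ev_log_ge ev_pow_log Box mem_Box card_Box)
open Pool.Agent.Q236.CG (BA mem_BA pri pri_nonneg pri_le mi DD PP MM CZ evm)
open Pool.Agent.Q236.MR (pv ap mem_ap sum_ap)
open Pool.Agent.H373R2.T7 (pz mem_pz Vz)

/-- greedy colourings -/
lemma greedy (R : ℕ → ℕ → Prop) (M : ℕ) (hR : ∀ k, ∀ U : Finset ℕ, (∀ l ∈ U, l < k ∧ R k l) → U.card ≤ M) (N : ℕ) :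
    ∃ col : ℕ → ℕ, ∀ k < N, col k ≤ M ∧ ∀ l < k, R k l → col l ≠ col k := by
  classical
  induction N with
  | zero => exact ⟨fun _ => 0, fun k hk => absurd hk (Nat.not_lt_zero k)⟩
  | succ N ih =>
    obtain ⟨col, hcol⟩ := ih
    obtain ⟨U, hU⟩ : ∃ U, U = (range N).filter (fun l => R N l) := ⟨_, rfl⟩
    have hUM : U.card ≤ M := by
      apply hR N U
      intro l hl
      rw [hU, mem_filter, mem_range] at hl
      exact hl
    have h1 : ∃ c ∈ range (M + 1), c ∉ U.image col := by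
      by_contra hno
      push Not at hno
      have h2 := (card_le_card (fun c hc => hno c hc : range (M + 1) ⊆ U.image col)).trans card_image_le
      rw [card_range] at h2
      omega
    obtain ⟨c, hc1, hc2⟩ := h1
    rw [mem_range] at hc1
    refine ⟨Function.update col N c, ?_⟩
    intro k hk
    rcases Nat.lt_succ_iff_lt_or_eq.1 hk with h | h
    · rw [Function.update_of_ne h.ne]
      refine ⟨(hcol k h).1, ?_⟩
      intro l hl hRl
      rw [Function.update_of_ne (hl.trans h).ne]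
      exact (hcol k h).2 l hl hRl
    · rw [h, Function.update_self]
      refine ⟨by omega, ?_⟩
      intro l hl hRl
      rw [Function.update_of_ne hl.ne]
      intro h3
      apply hc2
      rw [← h3]
      apply mem_image_of_mem
      rw [hU, mem_filter, mem_range]
      exact ⟨hl, hRl⟩

variable {n d e : ℕ}

/-- colourings without conflicts -/
lemma colour (Q : SF n e) (S : Finset ℕ) : ∃ col : ℕ → ℕ, (∀ k ∈ S, col k ≤ e * e) ∧ ∀ j, ∀ k ∈ S.filter (fun k => col k = j),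
    ∀ l ∈ S.filter (fun k => col k = j), k ≠ l → ∀ t t', Q.ix t = Q.ix t' → k + Q.sh t ≠ l + Q.sh t' := by
  classical
  obtain ⟨N, hN⟩ : ∃ N, ∀ k ∈ S, k < N := ⟨S.sup id + 1, fun k hk => Nat.lt_succ_of_le (Finset.le_sup (f := id) hk)⟩
  obtain ⟨col, hcol⟩ := greedy (fun k l => ∃ t t', Q.ix t = Q.ix t' ∧ k + Q.sh t = l + Q.sh t') (e * e) (by
    intro k U hU
    have h1 : U ⊆ (univ : Finset (Fin e × Fin e)).image (fun x => k + Q.sh x.1 - Q.sh x.2) := by
      intro l hl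
      obtain ⟨_, t, t', _, h2⟩ := hU l hl
      rw [mem_image]
      refine ⟨(t, t'), mem_univ _, ?_⟩
      simp only
      omega
    refine (card_le_card h1).trans (card_image_le.trans ?_)
    rw [card_univ, Fintype.card_prod, Fintype.card_fin]) N
  refine ⟨col, fun k hk => (hcol k (hN k hk)).1, ?_⟩
  intro j k hk l hl hkl t t' hix heq
  rw [mem_filter] at hk hl
  rcases Nat.lt_or_gt_of_ne hkl with h | h
  · exact (hcol l (hN l hl.1)).2 k h ⟨t', t, hix.symm, heq.symm⟩ (by rw [hk.2, hl.2])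
  · exact (hcol k (hN k hk.1)).2 l h ⟨t, t', hix, heq⟩ (by rw [hk.2, hl.2])

open Classical in
/-- **The primes minus the model on an arbitrary set** -/
theorem cgT (n d e A C B s : ℕ) (he : 1 ≤ e) (η : ℝ) (hη : 0 < η) (hs1 : 1 ≤ s) (hs : (B : ℝ) + 3 < s * (η / 2)) (hd : 2 * s * e ≤ d) :
    ∀ᶠ X : ℕ in atTop, ∀ z : ℕ, (z : ℝ) ≤ Real.log X ^ A → Real.log X ^ (C * d) ≤ z →
    ∀ (Q : SF n e) (F : Fin n → ℤ[X]) (Z : Fin n → Fin d → ℤ) (Y : Fin n → Fin d → ℕ) (S T : Finset ℕ),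
    (∀ t t', Q.ix t = Q.ix t' → Q.sh t = Q.sh t' → t = t') → (∀ k ∈ S, ∀ t, k + Q.sh t ∈ T) →
    (∀ i, CZ C X (fun k => (F i).eval (k : ℤ)) 1 (Z i) (Y i) T) →
    (((BA Z Y).filter (fun c => Real.log X ^ η * Real.sqrt (1 + S.card / Real.log X ^ e) <
      |∑ k ∈ S, DD z (vs Q F c k)|)).card : ℝ) ≤ (BA Z Y).card / Real.log X ^ B := by
  have hη2 : 0 < η / 2 := by positivity
  have hbig : ∀ᶠ X : ℕ in atTop, ((e * e + 1 : ℕ) : ℝ) ≤ Real.log X ^ (η / 2) :=
    ((tendsto_rpow_atTop hη2).comp (Real.tendsto_log_atTop.comp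
      (tendsto_natCast_atTop_atTop (R := ℝ)))).eventually_ge_atTop _
  filter_upwards [cgS n d e A C (B + 1) s he (η / 2) hη2 hs1 (by push_cast; linarith) hd, hbig, ev_log_ge 1,
    ev_log_ge ((e * e + 1 : ℕ) : ℝ)] with X hcg hbig hL1 hLe z hzA hzC Q F Z Y S T hinj hST hsz
  obtain ⟨col, hcol1, hcol2⟩ := colour Q S
  obtain ⟨L, hL⟩ : ∃ L, L = Real.log (X : ℝ) := ⟨_, rfl⟩
  have hcls : ∀ j ∈ range (e * e + 1), (((BA Z Y).filter (fun c => L ^ (η / 2) * Real.sqrt (1 + (∑ k ∈ S.filter (fun k => col k = j), |(1 : ℝ)|) / L ^ e) <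
      |∑ k ∈ S.filter (fun k => col k = j), (1 : ℝ) * DD z (vs Q F c k)|)).card : ℝ) ≤ (BA Z Y).card / L ^ (B + 1) := by
    intro j _
    rw [hL]
    exact hcg z hzA hzC Q F Z Y (S.filter (fun k => col k = j)) T hinj (fun k hk t => hST k (mem_filter.1 hk).1 t)
      (fun k hk l hl hkl t t' hix => hcol2 j k hk l hl hkl t t' hix) hsz
  rw [← hL] at hbig hL1 hLe ⊢
  have hL0 : 0 < L := by linarith
  have hLη : 0 < L ^ (η / 2) := Real.rpow_pos_of_pos hL0 _
  have hsub : (BA Z Y).filter (fun c => L ^ η * Real.sqrt (1 + S.card / L ^ e) < |∑ k ∈ S, DD z (vs Q F c k)|) ⊆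
      (range (e * e + 1)).biUnion (fun j => (BA Z Y).filter (fun c => L ^ (η / 2) * Real.sqrt (1 + (∑ k ∈ S.filter (fun k => col k = j), |(1 : ℝ)|) / L ^ e) <
      |∑ k ∈ S.filter (fun k => col k = j), (1 : ℝ) * DD z (vs Q F c k)|)) := by
    intro c hc
    rw [mem_filter] at hc
    by_contra hcon
    rw [mem_biUnion] at hcon
    push Not at hcon
    apply absurd hc.2
    rw [not_lt]
    have h1 : ∀ j ∈ range (e * e + 1), |∑ k ∈ S.filter (fun k => col k = j), DD z (vs Q F c k)| ≤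
        L ^ (η / 2) * Real.sqrt (1 + S.card / L ^ e) := by
      intro j hj
      have h2 := hcon j hj
      rw [mem_filter, not_and, not_lt] at h2
      have h3 := h2 hc.1
      simp only [one_mul, abs_one, Finset.sum_const, nsmul_eq_mul, mul_one] at h3
      refine h3.trans ?_
      apply mul_le_mul_of_nonneg_left _ hLη.le
      apply Real.sqrt_le_sqrt
      apply add_le_add le_rfl
      apply div_le_div_of_nonneg_right _ (by positivity)
      exact_mod_cast card_filter_le _ _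
    have h4 : ∑ k ∈ S, DD z (vs Q F c k) = ∑ j ∈ range (e * e + 1), ∑ k ∈ S.filter (fun k => col k = j), DD z (vs Q F c k) := by
      symm
      apply Finset.sum_fiberwise_of_maps_to
      intro k hk
      rw [mem_range]
      have := hcol1 k hk
      omega
    rw [h4]
    have hq0 : 0 ≤ Real.sqrt (1 + S.card / L ^ e) := Real.sqrt_nonneg _
    calc |∑ j ∈ range (e * e + 1), ∑ k ∈ S.filter (fun k => col k = j), DD z (vs Q F c k)| ≤
        ∑ j ∈ range (e * e + 1), |∑ k ∈ S.filter (fun k => col k = j), DD z (vs Q F c k)| := Finset.abs_sum_le_sum_abs _ _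
      _ ≤ ∑ _j ∈ range (e * e + 1), L ^ (η / 2) * Real.sqrt (1 + S.card / L ^ e) := Finset.sum_le_sum h1
      _ = ((e * e + 1 : ℕ) : ℝ) * (L ^ (η / 2) * Real.sqrt (1 + S.card / L ^ e)) := by
          rw [Finset.sum_const, card_range, nsmul_eq_mul]
      _ ≤ L ^ (η / 2) * (L ^ (η / 2) * Real.sqrt (1 + S.card / L ^ e)) :=
          mul_le_mul_of_nonneg_right hbig (by positivity)
      _ = L ^ η * Real.sqrt (1 + S.card / L ^ e) := by
          rw [← mul_assoc, ← Real.rpow_add hL0]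
          congr 2
          ring
  have h1 := (card_le_card hsub).trans card_biUnion_le
  have h2 : ((∑ j ∈ range (e * e + 1), ((BA Z Y).filter (fun c => L ^ (η / 2) * Real.sqrt (1 + (∑ k ∈ S.filter (fun k => col k = j), |(1 : ℝ)|) / L ^ e) <
      |∑ k ∈ S.filter (fun k => col k = j), (1 : ℝ) * DD z (vs Q F c k)|)).card : ℕ) : ℝ) ≤ ((e * e + 1 : ℕ) : ℝ) * ((BA Z Y).card / L ^ (B + 1)) := by
    rw [Nat.cast_sum]
    refine (Finset.sum_le_sum hcls).trans (le_of_eq ?_)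
    rw [Finset.sum_const, card_range, nsmul_eq_mul]
  have h3 : (((BA Z Y).filter (fun c => L ^ η * Real.sqrt (1 + S.card / L ^ e) < |∑ k ∈ S, DD z (vs Q F c k)|)).card : ℝ) ≤
      ((e * e + 1 : ℕ) : ℝ) * ((BA Z Y).card / L ^ (B + 1)) := le_trans (by exact_mod_cast h1) h2
  refine h3.trans ?_
  have hLB : 0 < L ^ B := by positivity
  have hW0 : (0 : ℝ) ≤ (BA Z Y).card := Nat.cast_nonneg _
  calc ((e * e + 1 : ℕ) : ℝ) * ((BA Z Y).card / L ^ (B + 1)) = (((e * e + 1 : ℕ) : ℝ) / L) * ((BA Z Y).card / L ^ B) := by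
        rw [pow_succ]
        field_simp
    _ ≤ 1 * ((BA Z Y).card / L ^ B) := by
        apply mul_le_mul_of_nonneg_right _ (by positivity)
        rw [div_le_one hL0]
        exact hLe
    _ = _ := one_mul _

open Classical in
/-- **Bateman-Horn in short intervals of arithmetic progressions, for constellations.** -/
theorem machS (n e B s d C A' D : ℕ) (he : 1 ≤ e) (η : ℝ) (hη : 0 < η) (hs1 : 1 ≤ s) (hs : (B : ℝ) + 4 < s * (η / 8)) (hd : 2 * s * e ≤ d)
    (hD : d ≤ D + 1) (hC : 1 ≤ C) (ε : ℝ) (hε : 0 < ε) : ∀ᶠ X : ℕ in atTop, ∀ b q z a h : ℕ, 1 ≤ q →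
    (z : ℝ) ≤ Real.log X ^ A' → Real.log X ^ (C * d) ≤ z → Real.log X ^ ((e : ℝ) + η) ≤ h →
    ∀ (Q : SF n e) (F : Fin n → ℤ[X]) (Z : Fin n → Fin d → ℤ) (Y : Fin n → Fin d → ℕ) (T : Finset ℕ),
    (∀ t t', Q.ix t = Q.ix t' → Q.sh t = Q.sh t' → t = t') → (∀ i, (F i).natDegree ≤ D) → (∀ k ∈ ap b q a h, ∀ t, k + Q.sh t ∈ T) →
    (∀ i, CZ C X (fun k => (F i).eval (k : ℤ)) 1 (Z i) (Y i) T) →
    (((BA Z Y).filter (fun c => ¬ |(((Ioc a (a + h)).filter (fun k => ∀ t, (vs Q F c (b + q * k) t).toNat.Prime)).card : ℝ) -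
      PQ b q Q F z c / Vz z ^ e * (h / Real.log X ^ e)| ≤ ε * (PQ b q Q F z c / Vz z ^ e * (h / Real.log X ^ e)))).card : ℝ) ≤
      (BA Z Y).card / Real.log X ^ B := by
  have hd1 : 2 * e ≤ d := by
    refine le_trans ?_ hd
    nlinarith
  filter_upwards [cgT n d e A' C (B + 1) s he (η / 4) (by positivity) hs1 (by push_cast; linarith) hd,
    count_main n d e D A' C (B + 1) 1 (min ε 1 / 4) one_pos (by positivity) he hd1 hD,
    core n e D d A' C he hD η ε hη hε, ev_log_ge 2] with X hcg hcount hcore hL2 b q z a h hq hz hzC hh Q F Z Y T hinj hF hT hCZ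
  have he1 : (1 : ℝ) ≤ e := by exact_mod_cast he
  have hL1 : 1 ≤ Real.log X := by linarith
  have hLz : Real.log X ≤ z := by
    refine le_trans ?_ hzC
    calc Real.log X = Real.log X ^ 1 := (pow_one _).symm
      _ ≤ Real.log X ^ (C * d) := pow_le_pow_right₀ hL1 (Nat.mul_pos hC (by omega))
  have h1 := hcg z hz hzC Q F Z Y (ap b q a h) T hinj hT hCZ
  have h2 := hcount b q z a h hz hLz (by
    refine le_trans ?_ hh
    exact Real.rpow_le_rpow_of_exponent_le hL1 (by linarith)) Z Y (fun i j => (hCZ i).side j) Q F hF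
  obtain ⟨W, hW⟩ : ∃ W, W = BA Z Y := ⟨_, rfl⟩
  rw [← hW] at h1 h2 ⊢
  have hcard : ((ap b q a h).card : ℝ) = h := by
    have h3 := sum_ap b q a h hq (fun _ => (1 : ℝ))
    rw [Finset.sum_const, Finset.sum_const, nsmul_eq_mul, nsmul_eq_mul, mul_one, mul_one, Nat.card_Ioc, Nat.add_sub_cancel_left] at h3
    exact h3
  rw [hcard] at h1
  have hsub : W.filter (fun c => ¬ |(((Ioc a (a + h)).filter (fun k => ∀ t, (vs Q F c (b + q * k) t).toNat.Prime)).card : ℝ) -
      PQ b q Q F z c / Vz z ^ e * (h / Real.log X ^ e)| ≤ ε * (PQ b q Q F z c / Vz z ^ e * (h / Real.log X ^ e))) ⊆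
      W.filter (fun c => Real.log X ^ (η / 4) * Real.sqrt (1 + h / Real.log X ^ e) < |∑ k ∈ ap b q a h, DD z (vs Q F c k)|) ∪
      W.filter (fun c => ¬ |((Sv b q Q F (Ioc a (a + h)) (pz z) c).card : ℝ) - h * PQ b q Q F z c| ≤
        min ε 1 / 4 * (h * PQ b q Q F z c)) := by
    intro c hc
    rw [mem_filter] at hc
    by_contra hcon
    rw [mem_union, mem_filter, mem_filter] at hcon
    push Not at hcon
    obtain ⟨hcon1, hcon2⟩ := hcon
    apply hc.2
    have hcW := hc.1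
    have g1 := hcon1 hcW
    have g2 := hcon2 hcW
    have hval : ∀ k ∈ Ioc a (a + h), ∀ t, (X : ℝ) / Real.log X ^ C ≤ vs Q F c (b + q * k) t ∧
        (vs Q F c (b + q * k) t : ℝ) ≤ X * Real.log X ^ C := by
      intro k hk t
      rw [hW, mem_BA] at hcW
      rw [vs_evm]
      exact ⟨(hCZ _).low _ (hT _ (mem_ap b q a h k hk) t) _ (hcW _), (hCZ _).up _ (hT _ (mem_ap b q a h k hk) t) _ (hcW _)⟩
    have hsum : ∑ k ∈ ap b q a h, DD z (vs Q F c k) =
        ∑ k ∈ Ioc a (a + h), ∏ t, pri (vs Q F c (b + q * k) t) - ∑ k ∈ Ioc a (a + h), ∏ t, mi z (vs Q F c (b + q * k) t) := by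
      rw [sum_ap b q a h hq, ← Finset.sum_sub_distrib]
      rfl
    rw [hsum] at g1
    exact hcore b q z a h hz hLz hh Q F c hF hval g1 g2
  have h4 : ((W.filter (fun c => ¬ |(((Ioc a (a + h)).filter (fun k => ∀ t, (vs Q F c (b + q * k) t).toNat.Prime)).card : ℝ) -
      PQ b q Q F z c / Vz z ^ e * (h / Real.log X ^ e)| ≤ ε * (PQ b q Q F z c / Vz z ^ e * (h / Real.log X ^ e)))).card : ℝ) ≤
      W.card / Real.log X ^ (B + 1) + W.card / Real.log X ^ (B + 1) := by
    have h5 := (card_le_card hsub).trans (card_union_le _ _)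
    have h6 := (Nat.cast_le (α := ℝ)).2 h5
    push_cast at h6
    linarith
  refine h4.trans ?_
  have hLB : 0 < Real.log (X : ℝ) ^ B := by positivity
  rw [pow_succ, ← two_mul, mul_div_assoc', div_le_div_iff₀ (by positivity) hLB]
  have hW0 : (0 : ℝ) ≤ W.card := Nat.cast_nonneg _
  nlinarith [mul_nonneg hW0 hLB.le]

end Pool.Agent.Q236.SH
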