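import Pool.Agent.Q236.SH.Geo

/-!
# Rare exceptions and closed geodesics
-/

set_option autoImplicit false

open Finset Matrix.SpecialLinearGroup MatrixGroups ModularGroup
open Pool.Agent.TH133.SH

namespace Pool.Agent.Q236.SH

/-- There are constants `κ`, `C` such that for every `N ≥ 1` and every newform of level `N` there is
some `T ≥ A N ^ (1 + ε)`, which may depend on `N` and the newform, such that at most
`δ T ^ (2 - ε) / N ^ 2` fractions are exceptional for `T` and `C N ^ κ`. -/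
def RareExceptions (ε A δ : ℝ) : Prop :=
  ∃ κ : ℝ, 0 < κ ∧ ∃ C : ℝ, 0 < C ∧ ∀ N : ℕ, 1 ≤ N → ∀ a : ℕ → ℤ, IsNewform N a →
    ∀ Ω₁ Ω₂ : ℂ, IsBasis N a Ω₁ Ω₂ → ∃ T : ℝ, A * (N : ℝ) ^ (1 + ε) ≤ T ∧
      ((Exceptional N a Ω₁ Ω₂ T (C * (N : ℝ) ^ κ)).ncard : ℝ) ≤ δ * T ^ (2 - ε) / (N : ℝ) ^ 2

theorem rare_of_log {ε A δ : ℝ} (hε0 : 0 < ε) (hε1 : ε < 1) (hA : 0 < A) (hδ : 0 < δ)
    (h : LogarithmicGrowth) : RareExceptions ε A δ := by
  obtain ⟨κ, hκ, C, hC, h⟩ := h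
  refine ⟨κ + 1, by positivity, C * (3 + |Real.log A|), by positivity, ?_⟩
  intro N hN a ha Ω₁ Ω₂ hb
  have hN1 : (1 : ℝ) ≤ N := by exact_mod_cast hN
  have hN0 : (0 : ℝ) < N := by linarith
  refine ⟨A * (N : ℝ) ^ (1 + ε), le_rfl, ?_⟩
  have hempty : Exceptional N a Ω₁ Ω₂ (A * (N : ℝ) ^ (1 + ε))
      (C * (3 + |Real.log A|) * (N : ℝ) ^ (κ + 1)) = ∅ := by
    rw [Set.eq_empty_iff_forall_notMem]
    rintro ⟨p, r⟩ ⟨h1, h2, h3, h4, q, s, h5, h6⟩
    dsimp only at h1 h2 h3 h4 h5 h6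
    apply h6
    have hr0 : 0 < r := by omega
    have hrR : (0 : ℝ) < r := by exact_mod_cast hr0
    have h7 := h N hN a ha Ω₁ Ω₂ hb p q r s h5 h3 hr0.ne'
    have h8 : Real.log |(r : ℝ)| ≤ |Real.log A| + 2 * N := by
      rw [abs_of_pos hrR]
      refine (Real.log_le_log hrR h4).trans ?_
      rw [Real.log_mul hA.ne' (by positivity), Real.log_rpow hN0]
      have h9 := le_abs_self (Real.log A)
      have h10 := Real.log_le_self hN0.le
      have h11 : 0 ≤ Real.log N := Real.log_nonneg hN1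
      nlinarith
    have h9 : C * (N : ℝ) ^ κ * (1 + Real.log |(r : ℝ)|) ≤
        C * (3 + |Real.log A|) * (N : ℝ) ^ (κ + 1) := by
      rw [Real.rpow_add hN0, Real.rpow_one]
      have h10 : 1 + Real.log |(r : ℝ)| ≤ (3 + |Real.log A|) * N := by
        have := abs_nonneg (Real.log A)
        nlinarith
      calc C * (N : ℝ) ^ κ * (1 + Real.log |(r : ℝ)|)
          ≤ C * (N : ℝ) ^ κ * ((3 + |Real.log A|) * N) := by gcongr
        _ = _ := by ring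
    exact fun m n hmn => ⟨(h7 m n hmn).1.trans h9, (h7 m n hmn).2.trans h9⟩
  rw [hempty, Set.ncard_empty, Nat.cast_zero]
  positivity

theorem main (ε : ℝ) (hε0 : 0 < ε) (hε1 : ε < 1) : ∃ A δ : ℝ, 0 < A ∧ 0 < δ ∧
    List.TFAE [EntriesAtMost 2, RareExceptions ε A δ, GeodesicGrowth, CoverGrowth] := by
  obtain ⟨A, δ, hA, hδ, hfew⟩ := few ε hε0 hε1
  refine ⟨A, δ, hA, hδ, ?_⟩
  have h0 := shimura_tfae_small
  have h14 : EntriesAtMost 2 → LogarithmicGrowth := (h0.out 0 3).1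
  have h21 : SmallLowerLeft → EntriesAtMost 2 := (h0.out 1 0).1
  tfae_have 1 → 2 := fun h => rare_of_log hε0 hε1 hA hδ (h14 h)
  tfae_have 2 → 1 := by
    rintro ⟨κ, hκ, C, hC, h⟩
    refine h21 ⟨κ, hκ, 2 * C, by positivity, ?_⟩
    intro N hN a ha Ω₁ Ω₂ hb p q r s hdet hr hsmall
    obtain ⟨T, hT, hcard⟩ := h N hN a ha Ω₁ Ω₂ hb
    have h1 := hfew N a Ω₁ Ω₂ hN ha.toIsForm hb T (C * (N : ℝ) ^ κ) (by positivity) hT hcard
      (mk p q r s hdet) hr hsmall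
    have e1 : 2 * C * (N : ℝ) ^ κ = 2 * (C * (N : ℝ) ^ κ) := by ring
    rw [e1]
    exact h1
  tfae_have 1 → 3 := fun h => geodesic_of_log (h14 h)
  tfae_have 3 → 4 := cover_of_geodesic
  tfae_have 4 → 1 := entries_of_cover
  tfae_finish

end Pool.Agent.Q236.SH
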