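import Pool.Agent.Q236.SH.Core
import Pool.Agent.Q236.CG.Final

set_option autoImplicit false

/-!
# Constellations: the primes minus the model are weakly orthogonal
-/

namespace Pool.Agent.Q236.SH

open Finset Filter Polynomial
open Pool.Agent.Q236.RP (ev_log_ge ev_pow_log Box mem_Box card_Box sv)
open Pool.Agent.Q236.CG (BA mem_BA upd_mem sum_upd di pri pri_nonneg pri_le mi mi_small DD PP MM DD_sum Orth CZ avg_small evm evm_sv)
open Pool.Agent.Q236.MR (pv)

variable {n d e : ℕ}

lemma vs_evm (A : SF n e) (F : Fin n → ℤ[X]) (c : Fin n → Fin d → ℤ) (k : ℕ) (t : Fin e) :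
    vs A F c k t = evm (fun k => (F (A.ix t)).eval (k : ℤ)) 1 (c (A.ix t)) (k + A.sh t) := by
  unfold vs pv evm
  rw [one_mul]

/-- **Weak orthogonality** -/
theorem orthS (n d e A B C D0 : ℕ) (hD0 : D0 * e ≤ d) : ∀ᶠ X : ℕ in atTop, ∀ (z : ℕ), (z : ℝ) ≤ Real.log X ^ A →
    Real.log X ^ (C * d) ≤ z →
    ∀ (Q : SF n e) (F : Fin n → ℤ[X]) (Z : Fin n → Fin d → ℤ) (Y : Fin n → Fin d → ℕ) (S T : Finset ℕ),
    (∀ t t', Q.ix t = Q.ix t' → Q.sh t = Q.sh t' → t = t') → (∀ k ∈ S, ∀ t, k + Q.sh t ∈ T) →
    (∀ k ∈ S, ∀ l ∈ S, k ≠ l → ∀ t t', Q.ix t = Q.ix t' → k + Q.sh t ≠ l + Q.sh t') →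
    (∀ i, CZ C X (fun k => (F i).eval (k : ℤ)) 1 (Z i) (Y i) T) → Orth (BA Z Y) (vs Q F) (DD z) S D0 (1 / Real.log X ^ B) := by
  filter_upwards [avg_small d A (B + 1) C, mi_small A C (1 / 2) (by norm_num), ev_log_ge 1, ev_log_ge e,
    ev_pow_log (C + 1)] with X havg hmi hL1 hLn hP z hzA hzC Q F Z Y S T hinj hST hfree hsz
  obtain ⟨L, hL⟩ : ∃ L, L = Real.log (X : ℝ) := ⟨_, rfl⟩
  rw [← hL] at havg hmi hL1 hLn hP hzA hzC ⊢
  have hL0 : 0 < L := by linarith
  have hLp : ∀ j : ℕ, 0 < L ^ j := fun j => by positivity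
  have hLp1 : ∀ j : ℕ, 1 ≤ L ^ j := fun j => one_le_pow₀ hL1
  have hXp : (0 : ℝ) < X := lt_of_lt_of_le (hLp _) hP
  have hz1 : 1 ≤ z := by
    have : (1 : ℝ) ≤ z := (hLp1 _).trans hzC
    exact_mod_cast this
  have hmi1 : ∀ v : ℤ, (X : ℝ) / L ^ C ≤ v → 0 ≤ mi z v ∧ mi z v ≤ 1 := by
    intro v hv
    have h1 := hmi z v hz1 hzA hv
    refine ⟨h1.1, h1.2.trans ?_⟩
    rw [div_le_one hL0]
    calc L ^ (1 / 2 : ℝ) ≤ L ^ (1 : ℝ) := Real.rpow_le_rpow_of_exponent_le hL1 (by norm_num)
      _ = L := Real.rpow_one L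
  refine ⟨?_⟩
  intro J' hJ' k0 hk0 hk0J hJ'd G hG hGv
  have hkey : ∀ t : Fin e, |∑ c ∈ BA Z Y, G c * (di z (vs Q F c k0 t) *
      ((∏ j ∈ univ.filter (fun j => j < t), pri (vs Q F c k0 j)) *
        ∏ j ∈ univ.filter (fun j => t < j), mi z (vs Q F c k0 j)))| ≤ (BA Z Y).card / L ^ (B + 1) := by
    intro t
    obtain ⟨i, hi⟩ : ∃ i, i = Q.ix t := ⟨_, rfl⟩
    obtain ⟨H, hH⟩ : ∃ H : (Fin n → Fin d → ℤ) → ℝ, H = fun c => G c * (di z (vs Q F c k0 t) *
      ((∏ j ∈ univ.filter (fun j => j < t), pri (vs Q F c k0 j)) *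
        ∏ j ∈ univ.filter (fun j => t < j), mi z (vs Q F c k0 j))) := ⟨_, rfl⟩
    obtain ⟨U, hU⟩ : ∃ U : Finset (ℕ × Fin e), U = ((insert k0 J') ×ˢ (univ : Finset (Fin e))).erase (k0, t) := ⟨_, rfl⟩
    obtain ⟨J2, hJ2⟩ : ∃ J2 : Finset ℕ, J2 = (U.filter (fun x => Q.ix x.2 = i)).image (fun x => x.1 + Q.sh x.2) := ⟨_, rfl⟩
    have hmemJ2 : ∀ k ∈ insert k0 J', ∀ t', (k, t') ≠ (k0, t) → Q.ix t' = i → k + Q.sh t' ∈ J2 := by
      intro k hk t' hne hix
      rw [hJ2, mem_image]
      refine ⟨(k, t'), mem_filter.2 ⟨?_, hix⟩, rfl⟩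
      rw [hU, mem_erase, mem_product]
      exact ⟨hne, hk, mem_univ _⟩
    have hJ2d : J2.card < d := by
      have h1 : U.card + 1 = (J'.card + 1) * e := by
        have hm : (k0, t) ∈ (insert k0 J') ×ˢ (univ : Finset (Fin e)) := mem_product.2 ⟨mem_insert_self _ _, mem_univ _⟩
        rw [hU, card_erase_of_mem hm, card_product, card_insert_of_notMem hk0J, card_univ, Fintype.card_fin]
        have : 1 ≤ (J'.card + 1) * e := Nat.mul_pos (by omega) (by have := t.2; omega)
        omega
      have h2 : J2.card ≤ U.card := by rw [hJ2]; exact card_image_le.trans (card_filter_le _ _)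
      have h3 : (J'.card + 1) * e ≤ D0 * e := Nat.mul_le_mul_right e hJ'd
      omega
    have hx0 : k0 + Q.sh t ∉ J2 := by
      intro hx
      rw [hJ2, mem_image] at hx
      obtain ⟨⟨k, t'⟩, hx1, hx2⟩ := hx
      rw [mem_filter, hU, mem_erase, mem_product] at hx1
      obtain ⟨⟨hne, hk, _⟩, hix⟩ := hx1
      simp only at hix hx2 hk
      by_cases hkk : k = k0
      · apply hne
        rw [hkk] at hx2 ⊢
        have h1 : Q.sh t' = Q.sh t := by omega
        rw [hinj t' t (by rw [hix, hi]) h1]
      · have hkJ : k ∈ J' := (mem_insert.1 hk).resolve_left hkk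
        exact hfree k (hJ' hkJ) k0 hk0 hkk t' t (by rw [hix, hi]) hx2
    have hTsub : insert (k0 + Q.sh t) J2 ⊆ T := by
      intro x hx
      rw [mem_insert] at hx
      rcases hx with hx | hx
      · rw [hx]
        exact hST k0 hk0 t
      · rw [hJ2, mem_image] at hx
        obtain ⟨⟨k, t'⟩, hx1, hx2⟩ := hx
        rw [mem_filter, hU, mem_erase, mem_product] at hx1
        rw [← hx2]
        simp only
        rcases mem_insert.1 hx1.1.2.1 with h | h
        · simp only at h
          rw [h]
          exact hST k0 hk0 t'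
        · exact hST k (hJ' h) t'
    have hsum := sum_upd Z Y i H
    have hYpos : ∀ j, 1 ≤ Y i j := by
      intro j
      have h1 := (hsz i).side j
      rw [← hL] at h1
      have h2 : (0 : ℝ) < X / L ^ C := by positivity
      have : (0 : ℝ) < Y i j := lt_of_lt_of_le h2 h1
      exact_mod_cast this
    have hcard : (0 : ℝ) < (Box (Z i) (Y i)).card := by
      rw [card_Box]
      push_cast
      apply Finset.prod_pos
      intro j _
      exact_mod_cast hYpos j
    have hlow : ∀ c ∈ BA Z Y, ∀ j, (X : ℝ) / L ^ C ≤ vs Q F c k0 j := by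
      intro c hc j
      have h2 := (hsz (Q.ix j)).low (k0 + Q.sh j) (hST k0 hk0 j) (c (Q.ix j)) ((mem_BA Z Y c).1 hc _)
      rw [← hL] at h2
      rw [vs_evm]
      exact h2
    -- the values at the other points do not change
    have hinv : ∀ (c : Fin n → Fin d → ℤ) (b : Fin d → ℤ) (u : ℕ) (k : ℕ) (t' : Fin e), k ∈ insert k0 J' → (k, t') ≠ (k0, t) →
        vs Q F (Function.update c i (b + sv d 1 J2 u)) k t' = vs Q F (Function.update c i b) k t' := by
      intro c b u k t' hk hne
      rw [vs_evm, vs_evm]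
      by_cases hj : Q.ix t' = i
      · rw [hj, Function.update_self, Function.update_self, evm_sv _ _ _ J2 hJ2d, Finset.prod_eq_zero (hmemJ2 k hk t' hne hj) (sub_self _),
          mul_zero, mul_zero, add_zero]
      · rw [Function.update_of_ne hj, Function.update_of_ne hj]
    have hbound : |∑ c ∈ BA Z Y, ∑ b ∈ Box (Z i) (Y i), H (Function.update c i b)| ≤
        (BA Z Y).card * ((Box (Z i) (Y i)).card / L ^ (B + 1)) := by
      refine (Finset.abs_sum_le_sum_abs _ _).trans ?_
      calc ∑ c ∈ BA Z Y, |∑ b ∈ Box (Z i) (Y i), H (Function.update c i b)| ≤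
          ∑ _c ∈ BA Z Y, ((Box (Z i) (Y i)).card : ℝ) / L ^ (B + 1) := by
            apply Finset.sum_le_sum
            intro c hc
            have h1 := havg z (fun k => (F i).eval (k : ℤ)) 1 (Z i) (Y i) J2 (k0 + Q.sh t) hzA hzC hx0 hJ2d
              ((hsz i).mono hTsub)
              (fun b => G (Function.update c i b) * ((∏ j ∈ univ.filter (fun j => j < t), pri (vs Q F (Function.update c i b) k0 j)) *
                ∏ j ∈ univ.filter (fun j => t < j), mi z (vs Q F (Function.update c i b) k0 j))) (by
              intro b hb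
              rw [abs_mul, abs_mul, Finset.abs_prod, Finset.abs_prod]
              apply mul_le_one₀ (hG _ (upd_mem Z Y c hc i b hb))
              · exact mul_nonneg (Finset.prod_nonneg fun j _ => abs_nonneg _) (Finset.prod_nonneg fun j _ => abs_nonneg _)
              · apply mul_le_one₀
                · apply Finset.prod_le_one (fun j _ => abs_nonneg _)
                  intro j _
                  rw [abs_of_nonneg (pri_nonneg _)]
                  exact pri_le _
                · exact Finset.prod_nonneg fun j _ => abs_nonneg _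
                · apply Finset.prod_le_one (fun j _ => abs_nonneg _)
                  intro j _
                  have h3 := hmi1 _ (hlow _ (upd_mem Z Y c hc i b hb) j)
                  rw [abs_of_nonneg h3.1]
                  exact h3.2) (by
              intro b u
              have e1 : G (Function.update c i (b + sv d 1 J2 u)) = G (Function.update c i b) := by
                apply hGv
                intro k hk
                funext t'
                exact hinv c b u k t' (mem_insert_of_mem hk) (by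
                  intro h
                  rw [Prod.mk.injEq] at h
                  exact hk0J (h.1 ▸ hk))
              have e3 : ∏ j ∈ univ.filter (fun j => j < t), pri (vs Q F (Function.update c i (b + sv d 1 J2 u)) k0 j) =
                  ∏ j ∈ univ.filter (fun j => j < t), pri (vs Q F (Function.update c i b) k0 j) := by
                apply Finset.prod_congr rfl
                intro j hj
                rw [hinv c b u k0 j (mem_insert_self _ _) (by
                  intro h
                  rw [Prod.mk.injEq] at h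
                  exact (mem_filter.1 hj).2.ne h.2)]
              have e4 : ∏ j ∈ univ.filter (fun j => t < j), mi z (vs Q F (Function.update c i (b + sv d 1 J2 u)) k0 j) =
                  ∏ j ∈ univ.filter (fun j => t < j), mi z (vs Q F (Function.update c i b) k0 j) := by
                apply Finset.prod_congr rfl
                intro j hj
                rw [hinv c b u k0 j (mem_insert_self _ _) (by
                  intro h
                  rw [Prod.mk.injEq] at h
                  exact (mem_filter.1 hj).2.ne' h.2)]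
              simp only [e1, e3, e4])
            refine le_trans (le_of_eq ?_) h1
            congr 1
            apply Finset.sum_congr rfl
            intro b _
            rw [hH]
            simp only
            have e1 : vs Q F (Function.update c i b) k0 t = evm (fun k => (F i).eval (k : ℤ)) 1 b (k0 + Q.sh t) := by
              rw [vs_evm, ← hi, Function.update_self]
            rw [e1]
            ring
        _ = _ := by rw [Finset.sum_const, nsmul_eq_mul]
    rw [hsum, abs_mul, abs_of_pos hcard] at hbound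
    have h2 : ((Box (Z i) (Y i)).card : ℝ) * |∑ c ∈ BA Z Y, H c| ≤ (Box (Z i) (Y i)).card * ((BA Z Y).card / L ^ (B + 1)) := by
      refine hbound.trans (le_of_eq ?_)
      ring
    have h3 := le_of_mul_le_mul_left h2 hcard
    rw [hH] at h3
    exact h3
  have hsplit : ∑ c ∈ BA Z Y, G c * DD z (vs Q F c k0) = ∑ t : Fin e, ∑ c ∈ BA Z Y, G c * (di z (vs Q F c k0 t) *
      ((∏ j ∈ univ.filter (fun j => j < t), pri (vs Q F c k0 j)) *
        ∏ j ∈ univ.filter (fun j => t < j), mi z (vs Q F c k0 j))) := by
    rw [Finset.sum_comm]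
    apply Finset.sum_congr rfl
    intro c _
    rw [DD_sum, Finset.mul_sum]
  rw [hsplit]
  refine (Finset.abs_sum_le_sum_abs _ _).trans ?_
  refine (Finset.sum_le_sum (fun i _ => hkey i)).trans ?_
  rw [Finset.sum_const, card_univ, Fintype.card_fin, nsmul_eq_mul]
  have hb0 : (0 : ℝ) ≤ (BA Z Y).card := Nat.cast_nonneg _
  calc (e : ℝ) * ((BA Z Y).card / L ^ (B + 1)) = (e / L) * (1 / L ^ B * (BA Z Y).card) := by
        rw [pow_succ]
        field_simp
    _ ≤ 1 * (1 / L ^ B * (BA Z Y).card) := by
        apply mul_le_mul_of_nonneg_right _ (by positivity)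
        rw [div_le_one hL0]
        exact hLn
    _ = _ := one_mul _

end Pool.Agent.Q236.SH
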