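import Pool.Agent.Q236.SH.AllS

set_option autoImplicit false

/-!
# Exact patterns of primes
-/

namespace Pool.Agent.Q236.SH

open Finset Filter Polynomial
open Pool.Agent.Q236.RP (Box mem_Box card_Box ev_log_ge ev_pow_log)
open Pool.Agent.Q236.CG (BA mem_BA CZ evm Vz_inv_eta)
open Pool.Agent.Q236.MR (pv ap mem_ap sum_ap marg')
open Pool.Agent.H373R2.T7 (pz mem_pz Vz Vz_pos Vz_le_one)

variable {m d e : ℕ}

/-- the value at a point of a constellation -/
def pt (F : Fin m → ℤ[X]) (c : Fin m → Fin d → ℤ) (n : ℕ) (x : Fin m × ℕ) : ℤ := pv F c (n + x.2) x.1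

open Classical in
/-- the number of the arguments at which all values of the constellation are primes -/
noncomputable def cntF (F : Fin m → ℤ[X]) (c : Fin m → Fin d → ℤ) (S : Finset (Fin m × ℕ)) (b q a h : ℕ) : ℕ :=
  ((Ioc a (a + h)).filter (fun k => ∀ x ∈ S, (pt F c (b + q * k) x).toNat.Prime)).card

open Classical in
/-- the number of the arguments at which the primes are exactly those of the constellation -/
noncomputable def exF (F : Fin m → ℤ[X]) (c : Fin m → Fin d → ℤ) (J : Finset (Fin m)) (R : ℕ) (S : Finset (Fin m × ℕ))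
    (b q a h : ℕ) : ℕ :=
  ((Ioc a (a + h)).filter (fun k => ∀ x ∈ J ×ˢ range (R + 1), ((pt F c (b + q * k) x).toNat.Prime ↔ x ∈ S))).card

open Classical in
/-- the number of the bad residues -/
noncomputable def omF (F : Fin m → ℤ[X]) (c : Fin m → Fin d → ℤ) (S : Finset (Fin m × ℕ)) (b q p : ℕ) : ℕ :=
  ((range p).filter (fun k => ∃ x ∈ S, (p : ℤ) ∣ pt F c (b + q * k) x)).card

/-- the singular series -/
noncomputable def sgF (F : Fin m → ℤ[X]) (c : Fin m → Fin d → ℤ) (S : Finset (Fin m × ℕ)) (b q z : ℕ) : ℝ :=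
  ∏ p ∈ pz z, ((1 - (omF F c S b q p : ℝ) / p) / (1 - 1 / (p : ℝ)) ^ S.card)

/-- the constellation of a finite set -/
noncomputable def QS (S : Finset (Fin m × ℕ)) : SF m S.card := ⟨fun t => (S.equivFin.symm t).1.1, fun t => (S.equivFin.symm t).1.2⟩

lemma QS_all (S : Finset (Fin m × ℕ)) (P : Fin m × ℕ → Prop) : (∀ t, P ((QS S).ix t, (QS S).sh t)) ↔ ∀ x ∈ S, P x := by
  constructor
  · intro h x hx
    have h1 := h (S.equivFin ⟨x, hx⟩)
    unfold QS at h1
    simp only [Equiv.symm_apply_apply] at h1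
    exact h1
  · intro h t
    exact h _ (S.equivFin.symm t).2

lemma QS_inj (S : Finset (Fin m × ℕ)) : Inj (QS S) := by
  intro t t' h1 h2
  have h3 : (S.equivFin.symm t).1 = (S.equivFin.symm t').1 := Prod.ext h1 h2
  exact S.equivFin.symm.injective (Subtype.ext h3)

lemma cnt_QS (F : Fin m → ℤ[X]) (c : Fin m → Fin d → ℤ) (S : Finset (Fin m × ℕ)) (b q a h : ℕ) :
    cntQ (QS S) F c b q a h = cntF F c S b q a h := by
  classical
  unfold cntQ cntF
  congr 1
  apply Finset.filter_congr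
  intro k _
  exact QS_all S (fun x => (pt F c (b + q * k) x).toNat.Prime)

lemma om_QS (F : Fin m → ℤ[X]) (c : Fin m → Fin d → ℤ) (S : Finset (Fin m × ℕ)) (b q p : ℕ) :
    omb b q (QS S) F c p = omF F c S b q p := by
  classical
  unfold omb omF
  congr 1
  apply Finset.filter_congr
  intro k _
  have h1 := QS_all S (fun x => ¬ (p : ℤ) ∣ pt F c (b + q * k) x)
  have h2 : gd b q (QS S) F p c k ↔ ∀ t, ¬ (p : ℤ) ∣ pt F c (b + q * k) ((QS S).ix t, (QS S).sh t) := Iff.rfl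
  rw [h2, h1]
  push Not
  rfl

lemma sg_QS (F : Fin m → ℤ[X]) (c : Fin m → Fin d → ℤ) (S : Finset (Fin m × ℕ)) (b q z : ℕ) :
    PQ b q (QS S) F z c / Vz z ^ S.card = sgF F c S b q z := by
  unfold PQ sgF Vz
  rw [Finset.prod_div_distrib, ← Finset.prod_pow]
  congr 1
  apply Finset.prod_congr rfl
  intro p _
  rw [om_QS]

lemma omF_le (F : Fin m → ℤ[X]) (c : Fin m → Fin d → ℤ) (S : Finset (Fin m × ℕ)) (b q p : ℕ) : omF F c S b q p ≤ p := by
  classical
  unfold omF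
  refine (card_filter_le _ _).trans ?_
  rw [card_range]

lemma fac_nonneg (F : Fin m → ℤ[X]) (c : Fin m → Fin d → ℤ) (S : Finset (Fin m × ℕ)) (b q p : ℕ) (hp : p.Prime) :
    0 ≤ 1 - (omF F c S b q p : ℝ) / p ∧ 0 < 1 - 1 / (p : ℝ) ∧ 1 - 1 / (p : ℝ) ≤ 1 := by
  have hp0 : (0 : ℝ) < p := by exact_mod_cast hp.pos
  have hp1 : (1 : ℝ) < p := by exact_mod_cast hp.one_lt
  refine ⟨?_, ?_, ?_⟩
  · rw [sub_nonneg, div_le_one hp0]
    exact_mod_cast omF_le F c S b q p
  · rw [sub_pos, div_lt_one hp0]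
    exact hp1
  · have : (0 : ℝ) < 1 / p := by positivity
    linarith

lemma sgF_nonneg (F : Fin m → ℤ[X]) (c : Fin m → Fin d → ℤ) (S : Finset (Fin m × ℕ)) (b q z : ℕ) : 0 ≤ sgF F c S b q z := by
  unfold sgF
  apply Finset.prod_nonneg
  intro p hp
  obtain ⟨h1, h2, _⟩ := fac_nonneg F c S b q p (mem_pz.1 hp).2
  exact div_nonneg h1 (pow_nonneg h2.le _)

/-- one more point -/
lemma sgF_insert (F : Fin m → ℤ[X]) (c : Fin m → Fin d → ℤ) (S : Finset (Fin m × ℕ)) (b q z : ℕ) (x : Fin m × ℕ) (hx : x ∉ S) :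
    sgF F c (insert x S) b q z ≤ sgF F c S b q z * (1 / Vz z) := by
  classical
  unfold sgF Vz
  rw [one_div, ← Finset.prod_inv_distrib, ← Finset.prod_mul_distrib]
  apply Finset.prod_le_prod
  · intro p hp
    obtain ⟨h1, h2, _⟩ := fac_nonneg F c (insert x S) b q p (mem_pz.1 hp).2
    exact div_nonneg h1 (pow_nonneg h2.le _)
  · intro p hp
    have hpp := (mem_pz.1 hp).2
    have hp0 : (0 : ℝ) < p := by exact_mod_cast hpp.pos
    obtain ⟨h1, h2, h3⟩ := fac_nonneg F c S b q p hpp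
    have h4 : (omF F c S b q p : ℝ) ≤ omF F c (insert x S) b q p := by
      have h5 : omF F c S b q p ≤ omF F c (insert x S) b q p := by
        unfold omF
        apply card_le_card
        intro k hk
        rw [mem_filter] at hk ⊢
        obtain ⟨h6, y, hy, h7⟩ := hk
        exact ⟨h6, y, mem_insert_of_mem hy, h7⟩
      exact_mod_cast h5
    have h5 : 1 - (omF F c (insert x S) b q p : ℝ) / p ≤ 1 - (omF F c S b q p : ℝ) / p := by
      have := div_le_div_of_nonneg_right h4 hp0.le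
      linarith
    rw [card_insert_of_notMem hx, pow_succ, ← div_div, ← div_eq_mul_inv]
    apply div_le_div_of_nonneg_right _ h2.le
    exact div_le_div_of_nonneg_right h5 (pow_nonneg h2.le _)

/-- the exact patterns are bounded below -/
lemma ex_lower (F : Fin m → ℤ[X]) (c : Fin m → Fin d → ℤ) (J : Finset (Fin m)) (R : ℕ) (S : Finset (Fin m × ℕ))
    (b q a h : ℕ) : (cntF F c S b q a h : ℝ) - ∑ x ∈ (J ×ˢ range (R + 1)) \ S, (cntF F c (insert x S) b q a h : ℝ) ≤
      exF F c J R S b q a h := by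
  classical
  rw [sub_le_iff_le_add]
  have h1 : (Ioc a (a + h)).filter (fun k => ∀ x ∈ S, (pt F c (b + q * k) x).toNat.Prime) ⊆
      (Ioc a (a + h)).filter (fun k => ∀ x ∈ J ×ˢ range (R + 1), ((pt F c (b + q * k) x).toNat.Prime ↔ x ∈ S)) ∪
      ((J ×ˢ range (R + 1)) \ S).biUnion (fun x => (Ioc a (a + h)).filter (fun k => ∀ y ∈ insert x S, (pt F c (b + q * k) y).toNat.Prime)) := by
    intro k hk
    rw [mem_filter] at hk
    rw [mem_union, mem_filter]
    by_cases hall : ∀ x ∈ J ×ˢ range (R + 1), ((pt F c (b + q * k) x).toNat.Prime ↔ x ∈ S)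
    · exact Or.inl ⟨hk.1, hall⟩
    · right
      push Not at hall
      obtain ⟨x, hx, hx2⟩ := hall
      rcases hx2 with ⟨hx3, hx4⟩ | ⟨hx3, hx4⟩
      · rw [mem_biUnion]
        refine ⟨x, mem_sdiff.2 ⟨hx, hx4⟩, mem_filter.2 ⟨hk.1, ?_⟩⟩
        intro y hy
        rw [mem_insert] at hy
        rcases hy with hy | hy
        · rw [hy]
          exact hx3
        · exact hk.2 y hy
      · exact absurd (hk.2 x hx4) hx3
  have h2 := (card_le_card h1).trans (card_union_le _ _)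
  have h3 : (((J ×ˢ range (R + 1)) \ S).biUnion (fun x => (Ioc a (a + h)).filter (fun k => ∀ y ∈ insert x S, (pt F c (b + q * k) y).toNat.Prime))).card ≤
      ∑ x ∈ (J ×ˢ range (R + 1)) \ S, cntF F c (insert x S) b q a h := by
    refine card_biUnion_le.trans (le_of_eq ?_)
    apply Finset.sum_congr rfl
    intro x _
    unfold cntF
    congr
  have h4 : cntF F c S b q a h ≤ exF F c J R S b q a h + ∑ x ∈ (J ×ˢ range (R + 1)) \ S, cntF F c (insert x S) b q a h := by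
    have h5 := h2.trans (Nat.add_le_add_left h3 _)
    unfold exF
    refine le_trans (le_of_eq ?_) (h5.trans (le_of_eq ?_))
    · unfold cntF
      congr
    · congr
  exact_mod_cast h4

/-- and above -/
lemma ex_upper (F : Fin m → ℤ[X]) (c : Fin m → Fin d → ℤ) (J : Finset (Fin m)) (R : ℕ) (S : Finset (Fin m × ℕ)) (hS : S ⊆ J ×ˢ range (R + 1))
    (b q a h : ℕ) : (exF F c J R S b q a h : ℝ) ≤ cntF F c S b q a h := by
  classical
  unfold exF cntF
  exact_mod_cast card_le_card (fun k hk => by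
    rw [mem_filter] at hk ⊢
    exact ⟨hk.1, fun x hx => (hk.2 x (hS hx)).2 hx⟩)

/-- the formula for all constellations -/
def Reg (N E : ℕ) (η ε : ℝ) (X z : ℕ) (F : Fin m → ℤ[X]) (c : Fin m → Fin d → ℤ) : Prop :=
  ∀ (S : Finset (Fin m × ℕ)) (b q a h : ℕ), 1 ≤ S.card → S.card ≤ N → 1 ≤ q →
    (∀ x ∈ S, ((b + q * (a + h) + x.2 : ℕ) : ℝ) ≤ Real.log X ^ E) → Real.log X ^ ((S.card : ℝ) + η) ≤ h →
    |(cntF F c S b q a h : ℝ) - sgF F c S b q z * (h / Real.log X ^ S.card)| ≤ ε * (sgF F c S b q z * (h / Real.log X ^ S.card))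

open Classical in
/-- **All constellations** -/
theorem all_reg (N B E s C A D d : ℕ) (η : ℝ) (hη : 0 < η) (hs1 : 1 ≤ s)
    (hs : ((B + 1 + (2 * E + 1) * N + 4 * (E + 1) : ℕ) : ℝ) + 4 < s * (η / 8)) (hd : 2 * s * N ≤ d) (ε : ℝ) (hε : 0 < ε) :
    ∀ᶠ X : ℕ in atTop, ∀ z : ℕ, Real.log X ^ ((C + E + 1) * d) ≤ z → (z : ℝ) ≤ Real.log X ^ A →
    ∀ m : ℕ, (m : ℝ) ≤ Real.log X ^ E → ∀ (F : Fin m → ℤ[X]) (Z : Fin m → Fin d → ℤ) (Y : Fin m → Fin d → ℕ),
    (∀ i, (F i).natDegree ≤ D) → (∀ i j, (X : ℝ) / Real.log X ^ C ≤ Y i j) →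
    (∀ i, ∀ c ∈ Box (Z i) (Y i), ∀ k : ℕ, 1 ≤ k → (k : ℝ) ≤ Real.log X ^ E →
      (X : ℝ) / Real.log X ^ C ≤ evm (fun k => (F i).eval (k : ℤ)) 1 c k ∧ (evm (fun k => (F i).eval (k : ℤ)) 1 c k : ℝ) ≤ X * Real.log X ^ C) →
    (((BA Z Y).filter (fun c => ¬ Reg N E η ε X z F c)).card : ℝ) ≤ (BA Z Y).card / Real.log X ^ B := by
  filter_upwards [all_sh N B E s C A D d η hη hs1 hs hd ε hε] with X hX z hz1 hz2 m hm F Z Y hF hY hval
  refine le_trans ?_ (hX z hz1 hz2 m hm F Z Y hF hY hval)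
  exact_mod_cast card_le_card (fun c hc => by
    rw [mem_filter] at hc ⊢
    refine ⟨hc.1, ?_⟩
    have h1 := hc.2
    unfold Reg at h1
    push Not at h1
    obtain ⟨S, b, q, a, h, hS1, hSN, hq, hpts, hh, hbad⟩ := h1
    refine ⟨S.card, QS S, b, q, a, h, hS1, hSN, QS_inj S, hq, ?_, hh, ?_⟩
    · exact (QS_all S (fun x => ((b + q * (a + h) + x.2 : ℕ) : ℝ) ≤ Real.log X ^ E)).2 hpts
    · unfold Bad
      rw [cnt_QS, sg_QS, not_le]
      exact hbad)

/-- **Exact patterns** -/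
theorem reg_exact (N E A : ℕ) (η δ ε : ℝ) (hη : 0 < η) (hδ : 0 < δ) (hε : 0 < ε) : ∀ᶠ X : ℕ in atTop, ∀ z : ℕ, 1 ≤ z →
    (z : ℝ) ≤ Real.log X ^ A → ∀ (m d : ℕ) (F : Fin m → ℤ[X]) (c : Fin m → Fin d → ℤ), Reg (N + 1) E η (min ε 1 / 4) X z F c →
    ∀ (J : Finset (Fin m)) (R : ℕ) (S : Finset (Fin m × ℕ)) (b q a h : ℕ), 1 ≤ S.card → S.card ≤ N → S ⊆ J ×ˢ range (R + 1) →
    (J.card : ℝ) * (R + 1) ≤ Real.log X ^ (1 - δ) → 1 ≤ q → ((b + q * (a + h) + R : ℕ) : ℝ) ≤ Real.log X ^ E →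
    Real.log X ^ ((S.card : ℝ) + 1 + η) ≤ h →
    |(exF F c J R S b q a h : ℝ) - sgF F c S b q z * (h / Real.log X ^ S.card)| ≤ ε * (sgF F c S b q z * (h / Real.log X ^ S.card)) := by
  obtain ⟨τ, hτ⟩ : ∃ τ : ℝ, τ = min ε 1 / 4 := ⟨_, rfl⟩
  have hτ0 : 0 < τ := by rw [hτ]; positivity
  have hτ1 : τ ≤ 1 / 4 := by
    rw [hτ]
    have := min_le_right ε 1
    linarith
  have hτε : 4 * τ ≤ ε := by
    rw [hτ]
    have := min_le_left ε 1
    linarith
  have hδ2 : 0 < δ / 2 := by positivity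
  have hbig : ∀ᶠ X : ℕ in atTop, 2 / τ ≤ Real.log X ^ (δ / 2) :=
    ((tendsto_rpow_atTop hδ2).comp (Real.tendsto_log_atTop.comp
      (tendsto_natCast_atTop_atTop (R := ℝ)))).eventually_ge_atTop _
  filter_upwards [Vz_inv_eta A (δ / 2) hδ2, hbig, ev_log_ge 1] with X hV hbig hL1 z hz1 hz2 m d F c hreg J R S b q a h hS1 hSN hSJ
    hJR hq hpts hh
  rw [← hτ] at hreg
  have hV := hV z hz1 hz2
  obtain ⟨L, hL⟩ : ∃ L, L = Real.log (X : ℝ) := ⟨_, rfl⟩
  unfold Reg at hreg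
  rw [← hL] at hV hbig hL1 hJR hpts hh hreg ⊢
  have hL0 : 0 < L := by linarith
  have hV0 := Vz_pos z
  have hptsx : ∀ x ∈ J ×ˢ range (R + 1), ((b + q * (a + h) + x.2 : ℕ) : ℝ) ≤ L ^ E := by
    intro x hx
    rw [mem_product, mem_range] at hx
    refine le_trans ?_ hpts
    have : b + q * (a + h) + x.2 ≤ b + q * (a + h) + R := by omega
    exact_mod_cast this
  obtain ⟨M, hM⟩ : ∃ M, M = sgF F c S b q z * (h / L ^ S.card) := ⟨_, rfl⟩
  rw [← hM]
  have hM0 : 0 ≤ M := by rw [hM]; exact mul_nonneg (sgF_nonneg F c S b q z) (by positivity)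
  have h1 := hreg S b q a h hS1 (by omega) hq (fun x hx => hptsx x (hSJ hx)) (by
    refine le_trans ?_ hh
    apply Real.rpow_le_rpow_of_exponent_le hL1
    linarith)
  rw [← hM] at h1
  have h2 : ∀ x ∈ (J ×ˢ range (R + 1)) \ S, (cntF F c (insert x S) b q a h : ℝ) ≤ 2 * M * (L ^ (δ / 2) / L) := by
    intro x hx
    rw [Finset.mem_sdiff] at hx
    have hc : (insert x S).card = S.card + 1 := card_insert_of_notMem hx.2
    have h3 := hreg (insert x S) b q a h (by omega) (by omega) hq (by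
      intro y hy
      rw [mem_insert] at hy
      rcases hy with hy | hy
      · rw [hy]
        exact hptsx x hx.1
      · exact hptsx y (hSJ hy)) (by
      rw [hc]
      push_cast
      exact hh)
    have h4 := sgF_insert F c S b q z x hx.2
    have h5 : sgF F c (insert x S) b q z * (h / L ^ (insert x S).card) ≤ M * (L ^ (δ / 2) / L) := by
      rw [hc]
      calc sgF F c (insert x S) b q z * (h / L ^ (S.card + 1)) ≤ (sgF F c S b q z * (1 / Vz z)) * (h / L ^ (S.card + 1)) :=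
            mul_le_mul_of_nonneg_right h4 (by positivity)
        _ ≤ (sgF F c S b q z * L ^ (δ / 2)) * (h / L ^ (S.card + 1)) := by
            apply mul_le_mul_of_nonneg_right _ (by positivity)
            rw [one_div]
            exact mul_le_mul_of_nonneg_left hV (sgF_nonneg F c S b q z)
        _ = M * (L ^ (δ / 2) / L) := by
            rw [hM, pow_succ]
            field_simp
    have h6 : 0 ≤ sgF F c (insert x S) b q z * (h / L ^ (insert x S).card) :=
      mul_nonneg (sgF_nonneg F c _ b q z) (by positivity)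
    have h7 := (abs_le.1 h3).2
    nlinarith
  have h3 : ∑ x ∈ (J ×ˢ range (R + 1)) \ S, (cntF F c (insert x S) b q a h : ℝ) ≤ τ * M := by
    have h4 : (((J ×ˢ range (R + 1)) \ S).card : ℝ) ≤ L ^ (1 - δ) := by
      have h5 : (((J ×ˢ range (R + 1)) \ S).card : ℝ) ≤ (J ×ˢ range (R + 1)).card := by exact_mod_cast card_le_card sdiff_subset
      rw [card_product, card_range] at h5
      push_cast at h5
      linarith
    have hLδ : 0 < L ^ (δ / 2) := Real.rpow_pos_of_pos hL0 _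
    have h6 : L ^ (1 - δ) * (L ^ (δ / 2) / L) = 1 / L ^ (δ / 2) := by
      have e1 : L ^ (1 - δ) * L ^ (δ / 2) * L ^ (δ / 2) = L := by
        rw [← Real.rpow_add hL0, ← Real.rpow_add hL0]
        have : 1 - δ + δ / 2 + δ / 2 = 1 := by ring
        rw [this, Real.rpow_one]
      rw [mul_div_assoc', div_eq_div_iff hL0.ne' hLδ.ne', one_mul]
      exact e1
    calc ∑ x ∈ (J ×ˢ range (R + 1)) \ S, (cntF F c (insert x S) b q a h : ℝ) ≤
        ∑ _x ∈ (J ×ˢ range (R + 1)) \ S, 2 * M * (L ^ (δ / 2) / L) := Finset.sum_le_sum h2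
      _ = (((J ×ˢ range (R + 1)) \ S).card : ℝ) * (2 * M * (L ^ (δ / 2) / L)) := by rw [Finset.sum_const, nsmul_eq_mul]
      _ ≤ L ^ (1 - δ) * (2 * M * (L ^ (δ / 2) / L)) := mul_le_mul_of_nonneg_right h4 (by positivity)
      _ = 2 * M * (L ^ (1 - δ) * (L ^ (δ / 2) / L)) := by ring
      _ = 2 * M * (1 / L ^ (δ / 2)) := by rw [h6]
      _ ≤ τ * M := by
          have h7 : 2 * (1 / L ^ (δ / 2)) ≤ τ := by
            rw [mul_one_div, div_le_iff₀ hLδ]
            rw [div_le_iff₀ hτ0] at hbig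
            linarith
          nlinarith
  have h4 := ex_lower F c J R S b q a h
  have h5 := ex_upper F c J R S hSJ b q a h
  have h6 := abs_le.1 h1
  have h7 : 4 * τ * M ≤ ε * M := mul_le_mul_of_nonneg_right hτε hM0
  rw [abs_le]
  constructor <;> nlinarith [h6.1, h6.2, mul_nonneg hτ0.le hM0]

end Pool.Agent.Q236.SH
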