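import Pool.Agent.Q236.SH.Blocks

/-!
# Exceptional fractions and rows
-/

set_option autoImplicit false

open Finset Matrix.SpecialLinearGroup MatrixGroups ModularGroup
open Pool.Agent.TH133.SH

namespace Pool.Agent.Q236.SH

/-- The reduced fractions `p / r` modulo one with `N ∣ r` and `r ≤ T` such that a coordinate of
`H(γ)`, `γ` a matrix with first column `(p, r)`, has absolute value more than `X`. -/
def Exceptional (N : ℕ) (a : ℕ → ℤ) (Ω₁ Ω₂ : ℂ) (T X : ℝ) : Set (ℤ × ℤ) :=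
  {x | 0 ≤ x.1 ∧ x.1 < x.2 ∧ (N : ℤ) ∣ x.2 ∧ (x.2 : ℝ) ≤ T ∧
    ∃ q s : ℤ, x.1 * s - q * x.2 = 1 ∧ ¬ CoordBound a Ω₁ Ω₂ x.1 q x.2 s X}

variable {N : ℕ} {a : ℕ → ℤ} {Ω₁ Ω₂ : ℂ} {T X : ℝ}

theorem exceptional_finite : (Exceptional N a Ω₁ Ω₂ T X).Finite := by
  refine ((Finset.Icc (0 : ℤ) ⌊T⌋) ×ˢ (Finset.Icc (0 : ℤ) ⌊T⌋)).finite_toSet.subset ?_
  rintro ⟨p, r⟩ ⟨h1, h2, -, h3, -⟩
  dsimp only at h1 h2 h3
  have h4 : r ≤ ⌊T⌋ := Int.le_floor.2 h3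
  simp only [Finset.coe_product, Set.mem_prod, Finset.coe_Icc, Set.mem_Icc]
  exact ⟨⟨h1, by omega⟩, by omega, h4⟩

theorem Hs_lower (ha : IsForm N a) {γ : SL(2, ℤ)} (h : γ 1 0 = 0) : Hs a γ = 0 := by
  have h2 := (isCuspHom ha Complex.reLm).zero_of_lower (g := γ) h
  have h3 := (isCuspHom ha Complex.imLm).zero_of_lower (g := γ) h
  exact Complex.ext h2 h3

theorem Hs_row (ha : IsForm N a) {γ γ' : SL(2, ℤ)} (hγ : InG N γ) (hγ' : InG N γ')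
    (h0 : γ' 1 0 = γ 1 0) (h1 : γ' 1 1 = γ 1 1) : Hs a γ' = Hs a γ := by
  have h2 : (γ' * γ⁻¹) 1 0 = 0 := by
    rw [mul10, inv00, inv10, h0, h1]
    ring
  have h3 : Hs a (γ' * γ⁻¹ * γ) = Hs a (γ' * γ⁻¹) + Hs a γ := Hs_mul ha (hγ'.mul hγ.inv)
  rw [Hs_lower ha h2, zero_add, inv_mul_cancel_right] at h3
  exact h3

/-- the coordinates of `H(γ)` are at most `X` -/
def Good (a : ℕ → ℤ) (Ω₁ Ω₂ : ℂ) (X : ℝ) (γ : SL(2, ℤ)) : Prop :=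
  CoordBound a Ω₁ Ω₂ (γ 0 0) (γ 0 1) (γ 1 0) (γ 1 1) X

theorem good_iff {γ : SL(2, ℤ)} : Good a Ω₁ Ω₂ X γ ↔
    ∀ m n : ℤ, Hs a γ = (m : ℂ) * Ω₁ + (n : ℂ) * Ω₂ → |(m : ℝ)| ≤ X ∧ |(n : ℝ)| ≤ X := Iff.rfl

theorem Good.congr {γ γ' : SL(2, ℤ)} (h : Hs a γ' = Hs a γ) (hg : Good a Ω₁ Ω₂ X γ) :
    Good a Ω₁ Ω₂ X γ' := by
  rw [good_iff] at hg ⊢
  rw [h]
  exact hg

open Classical in
theorem card_rows {ι : Type*} (S : Finset ι) (c d : ι → ℤ) (ha : IsForm N a)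
    (hc : ∀ i ∈ S, 0 < c i) (hN : ∀ i ∈ S, (N : ℤ) ∣ c i) (hT : ∀ i ∈ S, (c i : ℝ) ≤ T)
    (hcop : ∀ i ∈ S, IsCoprime (d i) (c i))
    (hbad : ∀ i ∈ S, ∃ γ : SL(2, ℤ), γ 1 0 = c i ∧ γ 1 1 = d i ∧ ¬ Good a Ω₁ Ω₂ X γ)
    (hinj : ∀ i ∈ S, ∀ j ∈ S, c i = c j → c i ∣ d i - d j → i = j) :
    S.card ≤ (Exceptional N a Ω₁ Ω₂ T X).ncard := by
  have key : ∀ i : ι, ∃ γ : SL(2, ℤ), i ∈ S → γ 1 0 = c i ∧ γ 1 1 = d i ∧ 0 ≤ γ 0 0 ∧ γ 0 0 < c i := by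
    intro i
    by_cases hi : i ∈ S
    · obtain ⟨γ, h⟩ := exists_matrix (c i) (d i) (hc i hi) (hcop i hi)
      exact ⟨γ, fun _ => h⟩
    · exact ⟨1, fun h => absurd h hi⟩
  choose γ hγ using key
  rw [← Set.ncard_coe_finset]
  refine Set.ncard_le_ncard_of_injOn (fun i => (γ i 0 0, γ i 1 0)) ?_ ?_ exceptional_finite
  · intro i hi
    obtain ⟨h1, h2, h3, h4⟩ := hγ i hi
    obtain ⟨δ, hδ1, hδ2, hδ⟩ := hbad i hi
    refine ⟨h3, by rw [h1]; exact h4, by rw [h1]; exact hN i hi, by rw [h1]; exact hT i hi,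
      γ i 0 1, γ i 1 1, ?_, ?_⟩
    · exact det_eq (γ i)
    · intro hgood
      apply hδ
      have hg : Good a Ω₁ Ω₂ X (γ i) := hgood
      refine hg.congr (Hs_row ha ?_ ?_ (by rw [hδ1, h1]) (by rw [hδ2, h2]))
      · unfold InG
        rw [h1]
        exact hN i hi
      · unfold InG
        rw [hδ1]
        exact hN i hi
  · intro i hi j hj hij
    obtain ⟨h1, h2, h3, h4⟩ := hγ i hi
    obtain ⟨h1', h2', h3', h4'⟩ := hγ j hj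
    have hij' : (γ i 0 0, γ i 1 0) = (γ j 0 0, γ j 1 0) := hij
    rw [Prod.mk.injEq] at hij'
    obtain ⟨e1, e2⟩ := hij'
    have hcc : c i = c j := by rw [← h1, ← h1', e2]
    refine hinj i hi j hj hcc ?_
    have d1 := det_eq (γ i)
    have d2 := det_eq (γ j)
    rw [h1, h2] at d1
    rw [h1', h2', ← e1, ← hcc] at d2
    have h5 : IsCoprime (c i) (γ i 0 0) := ⟨-(γ i 0 1), d i, by linear_combination d1⟩
    refine h5.dvd_of_dvd_mul_left ⟨γ i 0 1 - γ j 0 1, ?_⟩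
    linear_combination d1 - d2

end Pool.Agent.Q236.SH
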